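import Pool.Agent.ColorLog.Defs

namespace Pool.Agent.ColorLog

open Finset BigOperators
open scoped Classical
open Pool.Agent.ColorRef

set_option linter.unusedSectionVars false

variable {n : ℕ} {k : ℕ} [NeZero k]

/-- `B` is a block of `S`. -/
def IsBl (S B : Finset (Pair n)) : Prop := Blk B ∧ CaseA S B

/-- The component of an edge is connected. -/
lemma cn_comp (G : Finset (Pair n)) {e : Pair n} (he : e ∈ G) :
    Cn (G.filter (fun f => Conn G e.1.1 f.1.1)) := by
  have hv : ∀ v ∈ vset (G.filter (fun f => Conn G e.1.1 f.1.1)), Conn G e.1.1 v := by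
    intro v hv
    obtain ⟨f, hf, h1 | h1⟩ := mem_vset.1 hv
    · rw [h1]; exact (mem_filter.1 hf).2
    · rw [h1]; exact ((mem_filter.1 hf).2).trans (Conn.of_mem (mem_filter.1 hf).1)
  refine ⟨⟨e, mem_filter.2 ⟨he, Conn.refl _ _⟩⟩, ?_⟩
  intro u hu v hv'
  refine Conn.local_mono (G := G) (fun x => Conn G e.1.1 x) ?_ ?_ (hv u hu)
    ((hv u hu).symm.trans (hv v hv'))
  · intro f hf
    exact ⟨fun h => h.trans (Conn.of_mem hf), fun h => h.trans (Conn.of_mem hf).symm⟩
  · intro f hf h
    exact mem_filter.2 ⟨hf, h⟩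

lemma conn_of_mem_vset_comp {G : Finset (Pair n)} {e : Pair n} {v : Fin n}
    (hv : v ∈ vset (G.filter (fun f => Conn G e.1.1 f.1.1))) : Conn G e.1.1 v := by
  obtain ⟨f, hf, h1 | h1⟩ := mem_vset.1 hv
  · rw [h1]; exact (mem_filter.1 hf).2
  · rw [h1]; exact ((mem_filter.1 hf).2).trans (Conn.of_mem (mem_filter.1 hf).1)

/-- Transfer of connections into a part that is attached at single vertices. -/
lemma transfer {S B Z : Finset (Pair n)}
    (hBsep : ∀ u ∈ vset B, ∀ v ∈ vset B, u ≠ v → ¬ Conn (S \ B) u v) {u v : Fin n}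
    (huB : u ∈ vset B) (hvB : v ∈ vset B) (hc : Conn (S \ Z) u v) : Conn (B \ Z) u v := by
  have key := Conn.ind (G := S \ Z)
    (fun x y => (∀ b ∈ vset B, Conn (S \ B) x b →
        ∃ c ∈ vset B, Conn (S \ B) y c ∧ Conn (B \ Z) b c) ∧
      (∀ b ∈ vset B, Conn (S \ B) y b →
        ∃ c ∈ vset B, Conn (S \ B) x c ∧ Conn (B \ Z) b c))
    ⟨fun x => ⟨fun b hb h => ⟨b, hb, h, Conn.refl _ _⟩, fun b hb h => ⟨b, hb, h, Conn.refl _ _⟩⟩,
     fun {x y} h => ⟨h.2, h.1⟩,
     fun {x y z} h1 h2 => ⟨fun b hb h => by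
        obtain ⟨c, hc, h3, h4⟩ := h1.1 b hb h
        obtain ⟨d, hd, h5, h6⟩ := h2.1 c hc h3
        exact ⟨d, hd, h5, h4.trans h6⟩, fun b hb h => by
        obtain ⟨c, hc, h3, h4⟩ := h2.2 b hb h
        obtain ⟨d, hd, h5, h6⟩ := h1.2 c hc h3
        exact ⟨d, hd, h5, h4.trans h6⟩⟩⟩
    (by
      intro e he
      rw [mem_sdiff] at he
      by_cases heB : e ∈ B
      · have h1 := fst_mem_vset heB
        have h2 := snd_mem_vset heB
        have h3 : Conn (B \ Z) e.1.1 e.1.2 := Conn.of_mem (mem_sdiff.2 ⟨heB, he.2⟩)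
        refine ⟨fun b hb h => ?_, fun b hb h => ?_⟩
        · have hbe : e.1.1 = b := by
            by_contra hne
            exact hBsep _ h1 _ hb hne h
          exact ⟨e.1.2, h2, Conn.refl _ _, hbe ▸ h3⟩
        · have hbe : e.1.2 = b := by
            by_contra hne
            exact hBsep _ h2 _ hb hne h
          exact ⟨e.1.1, h1, Conn.refl _ _, hbe ▸ h3.symm⟩
      · have h3 : Conn (S \ B) e.1.1 e.1.2 := Conn.of_mem (mem_sdiff.2 ⟨he.1, heB⟩)
        exact ⟨fun b hb h => ⟨b, hb, h3.symm.trans h, Conn.refl _ _⟩,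
          fun b hb h => ⟨b, hb, h3.trans h, Conn.refl _ _⟩⟩) hc
  obtain ⟨c, hcB, h1, h2⟩ := key.1 u huB (Conn.refl _ _)
  have hvc : v = c := by
    by_contra hne
    exact hBsep _ hvB _ hcB hne h1
  rw [hvc]; exact h2

/-- Every edge lies in a block. Proof: take `B` of minimal cardinality among the sets `Z ⊆ S` with
`f ∈ Z`, `Cn Z` and no two distinct vertices of `Z` connected in `S \ Z` (the class of `f` is one).
If `B` is not inseparable there is `∅ ≠ Z ⊂ B` such that no two distinct vertices of `Z` are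
connected in `B \ Z`. If `f ∈ Z` the component of `f` in `Z` is a smaller such set, if `f ∉ Z` the
component of `f` in `B \ Z` is one. (For `Conn (S \ Y) u v → Conn (B \ Y) u v`, `u, v ∈ vset B`, see
the transfer step `key` in ColorRef.exists_block.) -/
theorem exists_block_mem (S : Finset (Pair n)) {f : Pair n} (hf : f ∈ S) :
    ∃ B, IsBl S B ∧ f ∈ B := by
  set F : Finset (Finset (Pair n)) := S.powerset.filter
    (fun Z => f ∈ Z ∧ Cn Z ∧ ∀ u ∈ vset Z, ∀ v ∈ vset Z, u ≠ v → ¬ Conn (S \ Z) u v) with hF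
  have hne : F.Nonempty := by
    refine ⟨S.filter (fun e => Conn S f.1.1 e.1.1), ?_⟩
    rw [hF, mem_filter, mem_powerset]
    refine ⟨filter_subset _ _, mem_filter.2 ⟨hf, Conn.refl _ _⟩, cn_comp S hf, ?_⟩
    intro u hu v hv huv hc
    have hu1 := conn_of_mem_vset_comp hu
    have hu2 : u ∉ vset (S \ S.filter (fun e => Conn S f.1.1 e.1.1)) := by
      intro h
      obtain ⟨e, he, h1⟩ := mem_vset.1 h
      obtain ⟨heS, hen⟩ := mem_sdiff.1 he
      apply hen
      rw [mem_filter]
      refine ⟨heS, ?_⟩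
      rcases h1 with h1 | h1
      · rw [← h1]; exact hu1
      · exact (h1 ▸ hu1).trans (Conn.of_mem heS).symm
    exact huv (Conn.eq_of_notMem hu2 hc)
  obtain ⟨B, hBF, hBmin⟩ := exists_min_image F card hne
  rw [hF, mem_filter, mem_powerset] at hBF
  obtain ⟨hBS, hfB, hBc, hBsep⟩ := hBF
  refine ⟨B, ⟨⟨⟨f, hfB⟩, ?_⟩, hBS, hBsep⟩, hfB⟩
  intro Z hZB hZne hZB'
  by_contra hcon
  push Not at hcon
  have hsmall : ∀ Z' : Finset (Pair n), Z' ⊆ B → f ∈ Z' → Cn Z' →
      (∀ u ∈ vset Z', ∀ v ∈ vset Z', u ≠ v → ¬ Conn (B \ Z') u v) → B.card ≤ Z'.card := by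
    intro Z' h1 h2 h3 h4
    apply hBmin
    rw [hF, mem_filter, mem_powerset]
    refine ⟨h1.trans hBS, h2, h3, ?_⟩
    intro u hu v hv huv hc
    exact h4 u hu v hv huv (transfer hBsep (vset_mono h1 hu) (vset_mono h1 hv) hc)
  by_cases hfZ : f ∈ Z
  · have h1 := hsmall (Z.filter (fun e => Conn Z f.1.1 e.1.1)) ((filter_subset _ _).trans hZB)
      (mem_filter.2 ⟨hfZ, Conn.refl _ _⟩) (cn_comp Z hfZ) (by
        intro u hu v hv huv hc
        have huZ := vset_mono (filter_subset _ _) hu
        have hvZ := vset_mono (filter_subset _ _) hv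
        have hKc := Conn.closed (fun x => Conn (B \ Z) u x) (fun e he => ?_) hc
        · exact hcon u huZ v hvZ huv (hKc.1 (Conn.refl _ _))
        · obtain ⟨heB, heZ⟩ := mem_sdiff.1 he
          by_cases h : e ∈ Z
          · have hend : ∀ w, (w = e.1.1 ∨ w = e.1.2) → ¬ Conn (B \ Z) u w := by
              intro w hw hcw
              have hwZ : w ∈ vset Z := mem_vset.2 ⟨e, h, hw⟩
              have huw : u = w := by
                by_contra hne'
                exact hcon u huZ w hwZ hne' hcw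
              have hfw : Conn Z f.1.1 w := huw ▸ conn_of_mem_vset_comp hu
              apply heZ
              rw [mem_filter]
              refine ⟨h, ?_⟩
              rcases hw with hw | hw
              · rw [← hw]; exact hfw
              · exact (hw ▸ hfw).trans (Conn.of_mem h).symm
            exact ⟨fun h' => absurd h' (hend _ (Or.inl rfl)),
              fun h' => absurd h' (hend _ (Or.inr rfl))⟩
          · have h' : Conn (B \ Z) e.1.1 e.1.2 := Conn.of_mem (mem_sdiff.2 ⟨heB, h⟩)
            exact ⟨fun h'' => h''.trans h', fun h'' => h''.trans h'.symm⟩)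
    have h2 : (Z.filter (fun e => Conn Z f.1.1 e.1.1)).card ≤ Z.card :=
      card_le_card (filter_subset _ _)
    have h3 : Z.card < B.card := card_lt_card (Finset.ssubset_iff_subset_ne.2 ⟨hZB, hZB'⟩)
    omega
  · have hfY : f ∈ B \ Z := mem_sdiff.2 ⟨hfB, hfZ⟩
    have h1 := hsmall ((B \ Z).filter (fun e => Conn (B \ Z) f.1.1 e.1.1))
      ((filter_subset _ _).trans sdiff_subset)
      (mem_filter.2 ⟨hfY, Conn.refl _ _⟩) (cn_comp (B \ Z) hfY) (by
        intro u hu v hv huv hc
        have huY := conn_of_mem_vset_comp hu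
        have hvY := conn_of_mem_vset_comp hv
        obtain ⟨w0, hw0⟩ : ∃ w0 : Fin n, ∀ w ∈ vset Z, Conn (B \ Z) f.1.1 w → w = w0 := by
          by_cases hex : ∃ w ∈ vset Z, Conn (B \ Z) f.1.1 w
          · obtain ⟨w0, hw0, hcw0⟩ := hex
            refine ⟨w0, fun w hw hcw => ?_⟩
            by_contra hne'
            exact hcon w hw w0 hw0 hne' (hcw.symm.trans hcw0)
          · push Not at hex
            exact ⟨u, fun w hw hcw => absurd hcw (hex w hw)⟩
        have hmap := Conn.map (fun x => if Conn (B \ Z) f.1.1 x then x else w0) (fun e he => ?_) hc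
        · rw [if_pos huY, if_pos hvY] at hmap
          exact huv hmap
        · obtain ⟨heB, heZ⟩ := mem_sdiff.1 he
          by_cases h : e ∈ Z
          · have hend : ∀ w, (w = e.1.1 ∨ w = e.1.2) →
                (if Conn (B \ Z) f.1.1 w then w else w0) = w0 := by
              intro w hw
              split_ifs with hcw
              · exact hw0 w (mem_vset.2 ⟨e, h, hw⟩) hcw
              · rfl
            rw [hend _ (Or.inl rfl), hend _ (Or.inr rfl)]
          · have heY : e ∈ B \ Z := mem_sdiff.2 ⟨heB, h⟩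
            have h3 : ¬ Conn (B \ Z) f.1.1 e.1.1 := by
              intro hc1
              exact heZ (mem_filter.2 ⟨heY, hc1⟩)
            have h4 : ¬ Conn (B \ Z) f.1.1 e.1.2 := by
              intro hc1
              exact h3 (hc1.trans (Conn.of_mem heY).symm)
            rw [if_neg h3, if_neg h4])
    have h2 : ((B \ Z).filter (fun e => Conn (B \ Z) f.1.1 e.1.1)).card ≤ (B \ Z).card :=
      card_le_card (filter_subset _ _)
    have h3 : (B \ Z).card < B.card := by
      have h4 := card_sdiff_add_card_eq_card hZB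
      have h5 := card_pos.2 hZne
      omega
    omega

theorem block_disjoint {S B B' : Finset (Pair n)} (hB : IsBl S B) (hB' : IsBl S B')
    (hne : B ≠ B') : Disjoint B B' := by
  have key : ∀ B B' : Finset (Pair n), IsBl S B → IsBl S B' → (B ∩ B').Nonempty → B ⊆ B' := by
    intro B B' hB hB' hi
    by_contra hsub
    have hne' : B ∩ B' ≠ B := fun h => hsub (inter_eq_left.1 h)
    obtain ⟨u, hu, v, hv, huv, hc⟩ := hB.1.2 (B ∩ B') inter_subset_left hi hne'
    refine hB'.2.2 u (vset_mono inter_subset_right hu) v (vset_mono inter_subset_right hv) huv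
      (hc.mono ?_)
    intro e he
    obtain ⟨h1, h2⟩ := mem_sdiff.1 he
    exact mem_sdiff.2 ⟨hB.2.1 h1, fun h3 => h2 (mem_inter.2 ⟨h1, h3⟩)⟩
  by_contra hd
  rw [Finset.not_disjoint_iff_nonempty_inter] at hd
  apply hne
  apply Subset.antisymm (key B B' hB hB' hd)
  apply key B' B hB' hB
  rwa [inter_comm]

/-- The classes (components) of a graph as edge sets. -/
noncomputable def comps (S : Finset (Pair n)) : Finset (Finset (Pair n)) :=
  S.image (fun e => S.filter (fun f => Conn S e.1.1 f.1.1))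

lemma comps_cn {S c : Finset (Pair n)} (hc : c ∈ comps S) : Cn c := by
  obtain ⟨e, he, rfl⟩ := mem_image.1 hc
  exact cn_comp S he

lemma comps_subset {S c : Finset (Pair n)} (hc : c ∈ comps S) : c ⊆ S := by
  obtain ⟨e, he, rfl⟩ := mem_image.1 hc
  exact filter_subset _ _

lemma comps_eq_of_mem {S c c' : Finset (Pair n)} (hc : c ∈ comps S) (hc' : c' ∈ comps S)
    {v : Fin n} (hv : v ∈ vset c) (hv' : v ∈ vset c') : c = c' := by
  obtain ⟨e, he, rfl⟩ := mem_image.1 hc
  obtain ⟨e', he', rfl⟩ := mem_image.1 hc'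
  have h : Conn S e.1.1 e'.1.1 := (conn_of_mem_vset_comp hv).trans (conn_of_mem_vset_comp hv').symm
  apply filter_congr
  intro f _
  exact ⟨fun h1 => h.symm.trans h1, fun h1 => h.trans h1⟩

lemma comps_disjoint {S c c' : Finset (Pair n)} (hc : c ∈ comps S) (hc' : c' ∈ comps S)
    (hne : c ≠ c') : Disjoint (vset c) (vset c') := by
  rw [disjoint_left]
  intro v hv hv'
  exact hne (comps_eq_of_mem hc hc' hv hv')

lemma exists_comps {S : Finset (Pair n)} {e : Pair n} (he : e ∈ S) : ∃ c ∈ comps S, e ∈ c :=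
  ⟨_, mem_image_of_mem _ he, mem_filter.2 ⟨he, Conn.refl _ _⟩⟩

lemma comps_union (S : Finset (Pair n)) : (comps S).biUnion id = S := by
  ext e
  rw [mem_biUnion]
  constructor
  · rintro ⟨c, hc, he⟩
    exact comps_subset hc he
  · intro he
    exact exists_comps he

lemma vset_comps_union (P : Finset (Finset (Pair n))) :
    vset (P.biUnion id) = P.biUnion vset := by
  ext v
  rw [mem_vset, mem_biUnion]
  constructor
  · rintro ⟨e, he, h⟩
    obtain ⟨c, hc, hec⟩ := mem_biUnion.1 he
    exact ⟨c, hc, mem_vset.2 ⟨e, hec, h⟩⟩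
  · rintro ⟨c, hc, hv⟩
    obtain ⟨e, hec, h⟩ := mem_vset.1 hv
    exact ⟨e, mem_biUnion.2 ⟨c, hc, hec⟩, h⟩

lemma vset_nonempty_of_cn {c : Finset (Pair n)} (hc : Cn c) : (vset c).Nonempty := by
  obtain ⟨e, he⟩ := hc.1
  exact ⟨_, fst_mem_vset he⟩

/-- number of vertices and of classes for a union `S'` of some of the components of `S` -/
lemma ncl_comps {S : Finset (Pair n)} {P : Finset (Finset (Pair n))} (hP : P ⊆ comps S) :
    ncl (P.biUnion id) (vset (P.biUnion id)) = P.card := by
  have h1 : ∀ c ∈ P, ∀ v ∈ vset c, cls (P.biUnion id) v = vset c := by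
    intro c hc v hv
    ext u
    rw [mem_cls]
    constructor
    · intro h
      refine (Conn.closed (fun x => x ∈ vset c) (fun e he => ?_) h).1 hv
      obtain ⟨c', hc', hec'⟩ := mem_biUnion.1 he
      by_cases hcc : c = c'
      · rw [hcc]
        exact ⟨fun _ => snd_mem_vset hec', fun _ => fst_mem_vset hec'⟩
      · have hd := comps_disjoint (hP hc) (hP hc') hcc
        rw [disjoint_left] at hd
        exact ⟨fun h' => absurd (fst_mem_vset hec') (hd h'),
          fun h' => absurd (snd_mem_vset hec') (hd h')⟩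
    · intro hu
      refine ((comps_cn (hP hc)).2 v hv u hu).mono ?_
      intro e he
      exact mem_biUnion.2 ⟨c, hc, he⟩
  have h2 : (vset (P.biUnion id)).image (cls (P.biUnion id)) = P.image vset := by
    ext K
    rw [mem_image, mem_image]
    constructor
    · rintro ⟨v, hv, rfl⟩
      rw [vset_comps_union, mem_biUnion] at hv
      obtain ⟨c, hc, hv⟩ := hv
      exact ⟨c, hc, (h1 c hc v hv).symm⟩
    · rintro ⟨c, hc, rfl⟩
      obtain ⟨v, hv⟩ := vset_nonempty_of_cn (comps_cn (hP hc))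
      refine ⟨v, ?_, h1 c hc v hv⟩
      rw [vset_comps_union, mem_biUnion]
      exact ⟨c, hc, hv⟩
  rw [ncl, h2]
  apply card_image_of_injOn
  intro c hc c' hc' h
  obtain ⟨v, hv⟩ := vset_nonempty_of_cn (comps_cn (hP hc))
  exact comps_eq_of_mem (hP hc) (hP hc') hv (by rw [← h]; exact hv)

lemma card_vset_comps {S : Finset (Pair n)} {P : Finset (Finset (Pair n))} (hP : P ⊆ comps S) :
    (vset (P.biUnion id)).card = ∑ c ∈ P, (vset c).card := by
  rw [vset_comps_union]
  apply card_biUnion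
  intro c hc c' hc' hne
  exact comps_disjoint (hP hc) (hP hc') hne

/-- Touching components: `U ⊇ S` such that every class of `U` meeting `vset S` contains at least two
components of `S`. -/
lemma two_ncl_le {S U : Finset (Pair n)} (hSU : S ⊆ U)
    (h : ∀ c ∈ comps S, ∃ c' ∈ comps S, c' ≠ c ∧ ∃ u ∈ vset c, ∃ v ∈ vset c', Conn U u v) :
    2 * ncl U (vset S) ≤ (comps S).card := by
  set Φ : Finset (Pair n) → Finset (Fin n) :=
    fun c => univ.filter (fun x => ∃ v ∈ vset c, Conn U v x) with hΦ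
  have h1 : ∀ c ∈ comps S, ∀ v ∈ vset c, Φ c = cls U v := by
    intro c hc v hv
    ext x
    rw [hΦ, mem_filter, mem_cls]
    constructor
    · rintro ⟨-, w, hw, hwx⟩
      exact (((comps_cn hc).2 v hv w hw).mono ((comps_subset hc).trans hSU)).trans hwx
    · intro hx
      exact ⟨mem_univ _, v, hv, hx⟩
  have h2 : (vset S).image (cls U) = (comps S).image Φ := by
    ext K
    rw [mem_image, mem_image]
    constructor
    · rintro ⟨v, hv, rfl⟩
      obtain ⟨e, he, hve⟩ := mem_vset.1 hv
      obtain ⟨c, hc, hec⟩ := exists_comps he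
      exact ⟨c, hc, h1 c hc v (mem_vset.2 ⟨e, hec, hve⟩)⟩
    · rintro ⟨c, hc, rfl⟩
      obtain ⟨v, hv⟩ := vset_nonempty_of_cn (comps_cn hc)
      exact ⟨v, vset_mono (comps_subset hc) hv, (h1 c hc v hv).symm⟩
  rw [ncl, h2]
  apply Finset.mul_card_image_le_card
  intro K hK
  obtain ⟨c, hc, rfl⟩ := mem_image.1 hK
  obtain ⟨c', hc', hne, u, hu, v, hv, huv⟩ := h c hc
  have h3 : Φ c' = Φ c := by
    rw [h1 c hc u hu, h1 c' hc' v hv]
    exact (cls_eq_iff.2 huv).symm
  have h4 : ({c, c'} : Finset (Finset (Pair n))) ⊆ (comps S).filter (fun x => Φ x = Φ c) := by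
    intro x hx
    rw [mem_insert, mem_singleton] at hx
    rw [mem_filter]
    rcases hx with rfl | rfl
    · exact ⟨hc, rfl⟩
    · exact ⟨hc', h3⟩
  calc 2 = ({c, c'} : Finset (Finset (Pair n))).card := (card_pair hne.symm).symm
    _ ≤ _ := card_le_card h4

end Pool.Agent.ColorLog
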