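import Pool.Agent.ColorLog.Expo

/-!
Summation of the weights over configurations.
-/

namespace Pool.Agent.ColorLog

open Finset BigOperators
open scoped Classical
open Pool.Agent.ColorRef

set_option linter.unusedSectionVars false

variable {n : ℕ} {k : ℕ} [NeZero k]

/-- The basic constant. -/
noncomputable def Yc (D : ℕ) : ℝ := (520 * (D : ℝ) ^ 5) ^ (2 * D)

lemma Yc_ge_one {D : ℕ} (hD1 : 1 ≤ D) : 1 ≤ Yc D := by
  unfold Yc
  apply one_le_pow₀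
  have h1 : (1 : ℝ) ≤ D := by exact_mod_cast hD1
  have h2 : (1 : ℝ) ≤ (D : ℝ) ^ 5 := one_le_pow₀ h1
  linarith

lemma geom_le (r : ℝ) (hr0 : 0 ≤ r) (hr : 2 * r ≤ 1) (a m : ℕ) :
    ∑ j ∈ Icc a m, r ^ j ≤ 2 * r ^ a := by
  have h1 : ∀ N : ℕ, ∑ i ∈ range N, r ^ i ≤ 2 := by
    intro N
    have h2 := mul_neg_geom_sum r N
    have h3 : 0 ≤ ∑ i ∈ range N, r ^ i := sum_nonneg (fun i _ => pow_nonneg hr0 i)
    have h4 : 0 ≤ r ^ N := pow_nonneg hr0 N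
    nlinarith
  by_cases ham : a ≤ m
  · have h2 : Icc a m = Ico a (m + 1) := by
      ext j; simp only [mem_Icc, mem_Ico]; omega
    rw [h2, sum_Ico_eq_sum_range]
    have h3 : ∑ i ∈ range (m + 1 - a), r ^ (a + i) = r ^ a * ∑ i ∈ range (m + 1 - a), r ^ i := by
      rw [mul_sum]
      apply sum_congr rfl
      intro i _
      rw [pow_add]
    rw [h3]
    have := h1 (m + 1 - a)
    have h4 : 0 ≤ r ^ a := pow_nonneg hr0 a
    nlinarith
  · have h2 : Icc a m = ∅ := by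
      ext j; simp only [mem_Icc, notMem_empty, iff_false]; omega
    rw [h2, sum_empty]
    positivity

lemma card_Ie_le (S : Finset (Pair n)) (φ : Pair n → St n) :
    (Ie S φ).card ≤ 2 * ∑ e ∈ Tset S φ, (hs (φ e)).card := by
  have h1 : Ie S φ ⊆ (Tset S φ).biUnion (fun e => vset (hs (φ e))) := by
    intro v hv
    unfold Ie at hv
    rw [mem_sdiff] at hv
    rcases mem_vset_Ue.1 hv.1 with h2 | ⟨e, he, h2⟩
    · exact absurd h2 hv.2
    · exact mem_biUnion.2 ⟨e, he, h2⟩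
  calc (Ie S φ).card ≤ ((Tset S φ).biUnion (fun e => vset (hs (φ e)))).card := card_le_card h1
    _ ≤ ∑ e ∈ Tset S φ, (vset (hs (φ e))).card := card_biUnion_le
    _ ≤ ∑ e ∈ Tset S φ, 2 * (hs (φ e)).card := sum_le_sum (fun e _ => card_vset_le _)
    _ = _ := by rw [mul_sum]

lemma hcount_aux {D : ℕ} (hD1 : 1 ≤ D) {S : Finset (Pair n)} (hSD : S.card ≤ D)
    (F : Finset (Pair n → St n)) (b : (Pair n → St n) → ℕ)
    (hmem : ∀ φ ∈ F, ∀ e ∈ Tset S φ, e ∈ hs (φ e))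
    (hsz : ∀ φ ∈ F, ∑ e ∈ Tset S φ, (hs (φ e)).card ≤ D * (2 * b φ + 1))
    (hinj : ∀ φ ∈ F, ∀ φ' ∈ F, (∀ e ∈ S, rsp (φ e) = rsp (φ' e)) → φ = φ')
    (I0 : Finset (Fin n)) (j : ℕ) (hj : j ≤ D) :
    (F.filter (fun φ => Ie S φ = I0 ∧ b φ = j)).card ≤ (65 * D ^ 5) ^ (D * (2 * j + 1)) := by
  set F' := F.filter (fun φ => Ie S φ = I0 ∧ b φ = j) with hF'
  rcases F'.eq_empty_or_nonempty with he | ⟨φ0, hφ0⟩
  · rw [he, card_empty]; exact Nat.zero_le _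
  · have h1 := count_le (S := S) F' (vset S ∪ I0) (D * (2 * j + 1)) ?_ ?_ ?_
    · refine h1.trans ?_
      apply Nat.pow_le_pow_left
      obtain ⟨hφF, hI, hb⟩ := mem_filter.1 hφ0
      have h2 : I0.card ≤ 2 * (D * (2 * j + 1)) := by
        rw [← hI, ← hb]
        exact (card_Ie_le S φ0).trans (Nat.mul_le_mul_left _ (hsz φ0 hφF))
      have h3 : (vset S ∪ I0).card ≤ 8 * D ^ 2 := by
        have h4 := card_union_le (vset S) I0
        have h5 := card_vset_le S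
        have h6 : D * j ≤ D * D := Nat.mul_le_mul_left _ hj
        nlinarith
      have h7 : (vset S ∪ I0).card ^ 2 ≤ (8 * D ^ 2) ^ 2 := Nat.pow_le_pow_left h3 2
      have h8 : S.card * (vset S ∪ I0).card ^ 2 ≤ D * (8 * D ^ 2) ^ 2 := Nat.mul_le_mul hSD h7
      have h9 : 1 ≤ D ^ 5 := Nat.one_le_pow _ _ hD1
      calc S.card * (vset S ∪ I0).card ^ 2 + 1 ≤ D * (8 * D ^ 2) ^ 2 + D ^ 5 := by omega
        _ = 65 * D ^ 5 := by ring
    · intro φ hφ e he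
      obtain ⟨hφF, hI, hb⟩ := mem_filter.1 hφ
      refine ⟨hmem φ hφF e he, ?_⟩
      intro v hv
      rw [mem_union]
      by_cases h2 : v ∈ vset S
      · exact Or.inl h2
      · right
        rw [← hI, Ie, mem_sdiff]
        exact ⟨mem_vset_Ue.2 (Or.inr ⟨e, he, hv⟩), h2⟩
    · intro φ hφ
      obtain ⟨hφF, hI, hb⟩ := mem_filter.1 hφ
      rw [← hb]
      exact hsz φ hφF
    · intro φ hφ φ' hφ' h
      exact hinj φ (mem_filter.1 hφ).1 φ' (mem_filter.1 hφ').1 h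

/-- Summation of weights over configurations. -/
theorem sum_bound {D : ℕ} (hD1 : 1 ≤ D) (hn : n ≤ k ^ 2) {S : Finset (Pair n)}
    (hSD : S.card ≤ D) (C : ℝ) (hC : 1 ≤ C) (hk : 2 * (Yc D * C) ≤ k)
    (F : Finset (Pair n → St n)) (b : (Pair n → St n) → ℕ) (b0 : ℕ)
    (f : (Pair n → St n) → ℝ) (E : ℝ) (hE : 0 ≤ E)
    (hf : ∀ φ ∈ F, f φ * (k : ℝ) ^ (2 * (Ie S φ).card + b φ) ≤
      8 ^ (D * (2 * b φ + 1)) * C ^ (b φ) * E)
    (hb : ∀ φ ∈ F, b0 ≤ b φ ∧ b φ ≤ D)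
    (hmem : ∀ φ ∈ F, ∀ e ∈ Tset S φ, e ∈ hs (φ e))
    (hsz : ∀ φ ∈ F, ∑ e ∈ Tset S φ, (hs (φ e)).card ≤ D * (2 * b φ + 1))
    (hinj : ∀ φ ∈ F, ∀ φ' ∈ F, (∀ e ∈ S, rsp (φ e) = rsp (φ' e)) → φ = φ') :
    ∑ φ ∈ F, f φ ≤ 6 * Yc D * (Yc D * C / k) ^ b0 * E := by
  have hk0 := kpos (k := k)
  have hC0 : (0 : ℝ) ≤ C := by linarith
  have hD0 : (1 : ℝ) ≤ D := by exact_mod_cast hD1
  have hY1 := Yc_ge_one hD1
  have h1 := sum_conf_le (k := k) hn F (fun φ => Ie S φ) b (Icc b0 D) f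
    (fun j => 8 ^ (D * (2 * j + 1)) * C ^ j * E / (k : ℝ) ^ j)
    (fun j => (65 * D ^ 5) ^ (D * (2 * j + 1)))
    (fun j => by positivity)
    (by
      intro φ hφ
      have h2 := hf φ hφ
      rw [pow_add, ← mul_assoc] at h2
      have h3 : (0 : ℝ) < (k : ℝ) ^ (2 * (Ie S φ).card) := by positivity
      have h4 : (0 : ℝ) < (k : ℝ) ^ b φ := by positivity
      have h5 : 8 ^ (D * (2 * b φ + 1)) * C ^ b φ * E / (k : ℝ) ^ b φ *
          (1 / (k : ℝ) ^ 2) ^ (Ie S φ).card =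
          8 ^ (D * (2 * b φ + 1)) * C ^ b φ * E /
            ((k : ℝ) ^ (2 * (Ie S φ).card) * (k : ℝ) ^ b φ) := by
        rw [one_div, inv_pow, ← pow_mul]
        field_simp
      show f φ ≤ 8 ^ (D * (2 * b φ + 1)) * C ^ b φ * E / (k : ℝ) ^ b φ *
          (1 / (k : ℝ) ^ 2) ^ (Ie S φ).card
      rw [h5, le_div_iff₀ (by positivity), ← mul_assoc]
      exact h2)
    (by
      intro φ hφ
      rw [mem_Icc]
      exact hb φ hφ)
    (by
      intro I0 j hj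
      exact hcount_aux hD1 hSD F b hmem hsz hinj I0 j (mem_Icc.1 hj).2)
  refine h1.trans ?_
  set r := Yc D * C / k with hr
  have hr0 : 0 ≤ r := by rw [hr]; positivity
  have hr1 : 2 * r ≤ 1 := by
    rw [hr, ← mul_div_assoc, div_le_one hk0]
    exact hk
  have h2 : ∀ j ∈ Icc b0 D, (((65 * D ^ 5) ^ (D * (2 * j + 1)) : ℕ) : ℝ) *
      (8 ^ (D * (2 * j + 1)) * C ^ j * E / (k : ℝ) ^ j) ≤ Yc D * E * r ^ j := by
    intro j _
    have h3 : (((65 * D ^ 5) ^ (D * (2 * j + 1)) : ℕ) : ℝ) * 8 ^ (D * (2 * j + 1)) ≤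
        Yc D ^ (j + 1) := by
      push_cast
      rw [← mul_pow, Yc, ← pow_mul]
      have h4 : (65 * (D : ℝ) ^ 5 * 8) = 520 * (D : ℝ) ^ 5 := by ring
      rw [h4]
      apply pow_le_pow_right₀
      · have : (1 : ℝ) ≤ (D : ℝ) ^ 5 := one_le_pow₀ hD0
        linarith
      · nlinarith
    calc (((65 * D ^ 5) ^ (D * (2 * j + 1)) : ℕ) : ℝ) *
          (8 ^ (D * (2 * j + 1)) * C ^ j * E / (k : ℝ) ^ j)
        = ((((65 * D ^ 5) ^ (D * (2 * j + 1)) : ℕ) : ℝ) * 8 ^ (D * (2 * j + 1))) *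
          (C ^ j * E / (k : ℝ) ^ j) := by ring
      _ ≤ Yc D ^ (j + 1) * (C ^ j * E / (k : ℝ) ^ j) := by
          apply mul_le_mul_of_nonneg_right h3
          positivity
      _ = Yc D * E * r ^ j := by
          rw [hr, div_pow, mul_pow, pow_succ]; ring
  calc 3 * ∑ j ∈ Icc b0 D, (((65 * D ^ 5) ^ (D * (2 * j + 1)) : ℕ) : ℝ) *
        (8 ^ (D * (2 * j + 1)) * C ^ j * E / (k : ℝ) ^ j)
      ≤ 3 * ∑ j ∈ Icc b0 D, Yc D * E * r ^ j := by
        apply mul_le_mul_of_nonneg_left (sum_le_sum h2) (by norm_num)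
    _ = 3 * (Yc D * E * ∑ j ∈ Icc b0 D, r ^ j) := by rw [← mul_sum]
    _ ≤ 3 * (Yc D * E * (2 * r ^ b0)) := by
        apply mul_le_mul_of_nonneg_left _ (by norm_num)
        apply mul_le_mul_of_nonneg_left (geom_le r hr0 hr1 b0 D) (by positivity)
    _ = _ := by ring

end Pool.Agent.ColorLog
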