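import Pool.Agent.ColorLog.Defs

/-!
Cancellation of clean blocks.
-/

namespace Pool.Agent.ColorLog

open Finset BigOperators
open scoped Classical
open Pool.Agent.ColorRef

set_option linter.unusedSectionVars false

variable {n : ℕ} {k : ℕ} [NeZero k]

/-- The coefficients on the block `B` are those of the first order correction. -/
def GoodC (k : ℕ) [NeZero k] (c : Pair n → St n → ℝ) (B : Finset (Pair n)) : Prop :=
  ∀ e ∈ B, c e none = -1 ∧ c e (some none) = 1 ∧ c e (some (some B)) = gco k B

lemma sum_stt_zero {D : ℕ} {S B : Finset (Pair n)} {φ : Pair n → St n} (hBS : B ⊆ S)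
    (hB : B ∈ gd n D) (hk : 2 * (vset B).card ^ 2 ≤ k) (hsep : SepB S φ B)
    (c : Pair n → St n → ℝ) (hc : GoodC k c B) :
    ∑ o ∈ insertNone B, (∏ e ∈ S, c e (sttB B φ o e)) * Wt k D S (sttB B φ o) = 0 := by
  -- splitting products
  have hsplit : ∀ (f : Pair n → ℝ), ∏ e ∈ S, f e = (∏ e ∈ B, f e) * ∏ e ∈ S \ B, f e := by
    intro f
    rw [mul_comm, prod_sdiff hBS]
  have hrest : ∀ (F : Pair n → St n → ℝ) (o : Option (Pair n)),
      ∏ e ∈ S \ B, F e (sttB B φ o e) = ∏ e ∈ S \ B, F e (φ e) := by
    intro F o
    apply prod_congr rfl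
    intro e he
    rw [sttB_of_notMem (mem_sdiff.1 he).2]
  -- character part
  have hch : ∀ o ∈ insertNone B, ∀ x : Pair n → Bool,
      ∏ e ∈ B, ch x e (sttB B φ o e) = 1 := by
    intro o ho x
    rcases o with _ | e
    · apply prod_eq_one
      intro e he
      rw [sttB_none he]; simp [ch]
    · have he : e ∈ B := by simpa using ho
      rw [← mul_prod_erase B _ he, sttB_some_self he]
      have : ∏ f ∈ B.erase e, ch x f (sttB B φ (some e) f) = chi (B.erase e) x := by
        rw [chi]
        apply prod_congr rfl
        intro f hf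
        rw [sttB_some_ne (mem_of_mem_erase hf) (ne_of_mem_erase hf)]
        simp [ch]
      rw [this]
      simp only [ch]
      exact chi_mul_self _ _
  -- coefficient part
  have hco : ∀ o ∈ insertNone B, ∏ e ∈ B, c e (sttB B φ o e) = psiC k B o := by
    intro o ho
    rcases o with _ | e
    · rw [prod_congr rfl (fun e he => by rw [sttB_none he, (hc e he).1])]
      simp [psiC]
    · have he : e ∈ B := by simpa using ho
      rw [← mul_prod_erase B _ he, sttB_some_self he]
      have : ∏ f ∈ B.erase e, c f (sttB B φ (some e) f) = 1 := by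
        apply prod_eq_one
        intro f hf
        rw [sttB_some_ne (mem_of_mem_erase hf) (ne_of_mem_erase hf)]
        exact (hc f (mem_of_mem_erase hf)).2.1
      rw [this, mul_one, (hc e he).2.2]
      simp [psiC]
  -- indicator part
  have hind : ∀ o ∈ insertNone B, ∀ (σ : Fin n → ZMod k) (R : Finset (Pair n)),
      ∏ e ∈ B, iD D σ R e (sttB B φ o e) = psiI B σ R o := by
    intro o ho σ R
    rcases o with _ | e
    · rw [prod_congr rfl (fun e he => by rw [sttB_none he])]
      simp only [iD, psiI]
      split_ifs with h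
      · exact prod_eq_one (fun e he => by rw [if_pos (h e he)])
      · push Not at h
        obtain ⟨e, he, hne⟩ := h
        exact prod_eq_zero he (by rw [if_neg hne])
    · have he : e ∈ B := by simpa using ho
      rw [← mul_prod_erase B _ he, sttB_some_self he]
      have hself : iD D σ R e (some (some B)) =
          if (B ∈ gd n D ∧ e ∈ B ∧ B ∩ R = {e} ∧ Rain σ B) then 1 else 0 := rfl
      rw [hself, psiI]
      by_cases h : Rain σ B ∧ B ∩ R = {e}
      · have h1 : ∏ f ∈ B.erase e, iD D σ R f (sttB B φ (some e) f) = 1 := by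
          apply prod_eq_one
          intro f hf
          rw [sttB_some_ne (mem_of_mem_erase hf) (ne_of_mem_erase hf)]
          simp only [iD]
          rw [if_pos]
          refine ⟨h.1.not_mono (mem_of_mem_erase hf), fun hfR => ?_⟩
          have : f ∈ B ∩ R := mem_inter.2 ⟨mem_of_mem_erase hf, hfR⟩
          rw [h.2, mem_singleton] at this
          exact ne_of_mem_erase hf this
        rw [h1, if_pos h, if_pos ⟨hB, he, h.2, h.1⟩, mul_one]
      · rw [if_neg h, if_neg (fun h' => h ⟨h'.2.2.2, h'.2.2.1⟩), zero_mul]
  set Crest := ∏ e ∈ S \ B, c e (φ e) with hCrest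
  set Xrest := 𝔼 x : Pair n → Bool, ∏ e ∈ S \ B, ch x e (φ e) with hXrest
  let I : (Fin n → ZMod k) → Finset (Pair n) → ℝ := fun σ R => ∏ e ∈ S \ B, iD D σ R e (φ e)
  let psi : Option (Pair n) → (Fin n → ZMod k) → Finset (Pair n) → ℝ := fun o σ R =>
    psiC k B o * psiI B σ R o
  let Psi : (Fin n → ZMod k) → Finset (Pair n) → ℝ := fun σ R => ∑ o ∈ insertNone B, psi o σ R
  have hwt : ∀ o ∈ insertNone B, (∏ e ∈ S, c e (sttB B φ o e)) * Wt k D S (sttB B φ o) =
      Crest * Xrest * 𝔼 σ : Fin n → ZMod k, 𝔼 R : Finset (Pair n), psi o σ R * I σ R := by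
    intro o ho
    rw [Wt]
    simp only [hsplit]
    rw [hco o ho]
    have h1 : (𝔼 x : Pair n → Bool, (∏ e ∈ B, ch x e (sttB B φ o e)) *
        ∏ e ∈ S \ B, ch x e (sttB B φ o e)) = Xrest := by
      apply expect_congr rfl
      intro x _
      rw [hch o ho x, one_mul, hrest (fun e st => ch x e st) o]
    have h2 : (𝔼 σ : Fin n → ZMod k, 𝔼 R : Finset (Pair n),
        (∏ e ∈ B, iD D σ R e (sttB B φ o e)) * ∏ e ∈ S \ B, iD D σ R e (sttB B φ o e)) =
        𝔼 σ : Fin n → ZMod k, 𝔼 R : Finset (Pair n), psiI B σ R o * I σ R := by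
      apply expect_congr rfl
      intro σ _
      apply expect_congr rfl
      intro R _
      rw [hind o ho σ R, hrest (fun e st => iD D σ R e st) o]
    have h3 : ∏ e ∈ S \ B, c e (sttB B φ o e) = Crest := hrest (fun e st => c e st) o
    rw [h1, h2, h3]
    have h4 : (𝔼 σ : Fin n → ZMod k, 𝔼 R : Finset (Pair n), psi o σ R * I σ R) =
        psiC k B o *
        𝔼 σ : Fin n → ZMod k, 𝔼 R : Finset (Pair n), psiI B σ R o * I σ R := by
      rw [mul_expect]
      apply expect_congr rfl
      intro σ _
      rw [mul_expect]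
      apply expect_congr rfl
      intro R _
      simp only [psi]
      ring
    rw [h4]
    ring
  rw [sum_congr rfl hwt, ← mul_sum]
  have hsum : ∑ o ∈ insertNone B, 𝔼 σ : Fin n → ZMod k, 𝔼 R : Finset (Pair n),
      psi o σ R * I σ R = 𝔼 σ : Fin n → ZMod k, 𝔼 R : Finset (Pair n), Psi σ R * I σ R := by
    rw [← expect_sum_comm]
    apply expect_congr rfl
    intro σ _
    rw [← expect_sum_comm]
    apply expect_congr rfl
    intro R _
    rw [← sum_mul]
  rw [hsum]
  -- the factor vanishing by the choice of the gadget coefficient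
  have hPsi0 : (𝔼 σ : Fin n → ZMod k, 𝔼 R : Finset (Pair n), Psi σ R) = 0 := by
    have h1 : ∀ (σ : Fin n → ZMod k) (R : Finset (Pair n)), Psi σ R =
        (-1) ^ B.card * (if (∀ e ∈ B, Mono σ e) then 1 else 0) +
        gco k B * ∑ e ∈ B, (if (Rain σ B ∧ B ∩ R = {e}) then 1 else 0) := by
      intro σ R
      show ∑ o ∈ insertNone B, psi o σ R = _
      rw [sum_insertNone, mul_sum]
      rfl
    simp only [h1, expect_add_distrib, ← mul_expect]
    have h2 : (𝔼 σ : Fin n → ZMod k, 𝔼 _R : Finset (Pair n),
        if (∀ e ∈ B, Mono σ e) then (1 : ℝ) else 0) = pm k B := by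
      rw [pm]
      apply expect_congr rfl
      intro σ _
      rw [expect_const univ_nonempty]
    have h3 : (𝔼 σ : Fin n → ZMod k, 𝔼 R : Finset (Pair n),
        ∑ e ∈ B, (if (Rain σ B ∧ B ∩ R = {e}) then (1 : ℝ) else 0)) = pr k B := rfl
    rw [h2, h3, gco]
    rw [mem_gd] at hB
    have hpr : pr k B ≠ 0 := by
      have := pr_ge (k := k) hB.1.1 hk
      have hpos : (0 : ℝ) < (1 / 2) ^ (B.card + 1) := by positivity
      exact (lt_of_lt_of_le hpos this).ne'
    field_simp
    ring
  rw [indep B (Gset S φ B) Psi I hsep ?_ ?_ ?_ ?_, hPsi0, zero_mul, mul_zero]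
  · -- shift invariance
    intro σ t R ht
    apply prod_congr rfl
    intro f hf
    have hfG : f ∈ Gset S φ B := by rw [Gset, mem_union]; exact Or.inl hf
    have htf := ht f hfG
    have hmono : Mono (σ + t) f ↔ Mono σ f := by
      unfold Mono
      simp only [Pi.add_apply, htf]
      exact add_left_inj _
    rcases hφ : φ f with _ | _ | H
    · simp only [iD, hmono]
    · simp only [iD, hmono]
    · simp only [iD]
      by_cases hH : H ∈ gd n D
      · have hrain : Rain (σ + t) H ↔ Rain σ H := by
          have hconst : ∀ u ∈ vset H, ∀ v ∈ vset H, t u = t v := by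
            intro u hu v hv
            have hcn := (mem_gd.1 hH).1.2 u hu v hv
            apply Conn.map t _ hcn
            intro e he
            apply ht
            have := hs_subset_Gset (φ := φ) hf
            rw [hφ] at this
            exact this he
          unfold Rain
          constructor
          · intro h u hu v hv huv
            apply h u hu v hv
            simp only [Pi.add_apply, huv, hconst u hu v hv]
          · intro h u hu v hv huv
            apply h u hu v hv
            simp only [Pi.add_apply, hconst u hu v hv] at huv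
            exact add_right_cancel huv
        simp only [hrain]
      · simp [hH]
  · -- independence of `R ∩ B`
    intro σ R R' hRR
    apply prod_congr rfl
    intro f hf
    have hfR : f ∈ R ↔ f ∈ R' := by
      have h1 : f ∈ R \ B ↔ f ∈ R' \ B := by rw [hRR]
      simp only [mem_sdiff, (mem_sdiff.1 hf).2, not_false_eq_true, and_true] at h1
      exact h1
    rcases hφ : φ f with _ | _ | H
    · simp only [iD]
    · simp only [iD, hfR]
    · simp only [iD]
      have hd := hsep.disjoint hf
      rw [hφ] at hd
      have hHR : H ∩ R = H ∩ R' := by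
        ext e
        rw [mem_inter, mem_inter]
        constructor
        · rintro ⟨h1, h2⟩
          have : e ∈ R \ B := mem_sdiff.2 ⟨h2, (disjoint_left.1 hd) h1⟩
          rw [hRR] at this
          exact ⟨h1, (mem_sdiff.1 this).1⟩
        · rintro ⟨h1, h2⟩
          have : e ∈ R' \ B := mem_sdiff.2 ⟨h2, (disjoint_left.1 hd) h1⟩
          rw [← hRR] at this
          exact ⟨h1, (mem_sdiff.1 this).1⟩
      simp only [hHR]
  · -- `Psi` depends only on colours of `B`
    intro σ σ' R hσ
    have h1 : (∀ e ∈ B, Mono σ e) ↔ (∀ e ∈ B, Mono σ' e) := by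
      apply forall₂_congr
      intro e he
      unfold Mono
      rw [hσ _ (fst_mem_vset he), hσ _ (snd_mem_vset he)]
    have h2 : Rain σ B ↔ Rain σ' B := by
      unfold Rain
      apply forall₂_congr
      intro u hu
      apply forall₂_congr
      intro v hv
      rw [hσ u hu, hσ v hv]
    apply sum_congr rfl
    intro o _
    rcases o with _ | e
    · simp only [psi, psiI, h1]
    · simp only [psi, psiI, h2]
  · intro σ R R' hRR
    have h1 : B ∩ R = B ∩ R' := by rw [inter_comm B R, inter_comm B R', hRR]
    apply sum_congr rfl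
    intro o _
    rcases o with _ | e
    · simp only [psi, psiI]
    · simp only [psi, psiI, h1]


lemma clean_sum_zero {D : ℕ} {S B : Finset (Pair n)} (hBS : B ⊆ S) (hB : B ∈ gd n D)
    (hk : 2 * (vset B).card ^ 2 ≤ k) (c : Pair n → St n → ℝ) (hc : GoodC k c B)
    (Q : (Pair n → St n) → Prop)
    (hQ : ∀ (φ : Pair n → St n) (o : Option (Pair n)), o ∈ insertNone B → resetB B φ = φ →
      (Q (sttB B φ o) ↔ Q φ))
    (F : Finset (Pair n → St n)) (hF : ∀ φ, φ ∈ F ↔ (φ ∈ Phi S ∧ Clean S φ B ∧ Q φ)) :
    ∑ φ ∈ F, (∏ e ∈ S, c e (φ e)) * Wt k D S φ = 0 := by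
  set F0 := (Phi S).filter (fun φ => resetB B φ = φ ∧ SepB S φ B ∧ Q φ) with hF0
  have hstt : ∀ φ, GoodSt φ B → ∃ o ∈ insertNone B, φ = sttB B (resetB B φ) o := by
    intro φ hφ
    rcases hφ with h | ⟨e, he, h1, h2⟩
    · refine ⟨none, by simp, ?_⟩
      funext f
      by_cases hf : f ∈ B
      · rw [sttB_none hf, h f hf]
      · rw [sttB_of_notMem hf]; simp [resetB, hf]
    · refine ⟨some e, by simpa using he, ?_⟩
      funext f
      by_cases hf : f ∈ B
      · by_cases hfe : f = e
        · subst hfe; rw [sttB_some_self hf, h1]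
        · rw [sttB_some_ne hf hfe, h2 f hf hfe]
      · rw [sttB_of_notMem hf]; simp [resetB, hf]
  have hmaps : ∀ φ ∈ F, resetB B φ ∈ F0 := by
    intro φ hφ
    rw [hF] at hφ
    obtain ⟨hφ1, hφ2, hφ3⟩ := hφ
    have hrr : resetB B (resetB B φ) = resetB B φ := by
      funext f; by_cases hf : f ∈ B <;> simp [resetB, hf]
    obtain ⟨o, ho, hφo⟩ := hstt φ hφ2.1
    rw [hF0, mem_filter]
    refine ⟨?_, hrr, ?_, ?_⟩
    · rw [mem_Phi] at hφ1 ⊢
      intro e he
      have : e ∉ B := fun h => he (hBS h)
      simp [resetB, this, hφ1 e he]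
    · have h1 := hφ2.2
      unfold SepB at h1 ⊢
      rw [hφo, Gset_stt] at h1
      exact h1
    · rw [hφo] at hφ3
      exact (hQ _ o ho hrr).1 hφ3
  rw [← sum_fiberwise_of_maps_to hmaps]
  apply sum_eq_zero
  intro φ0 hφ0
  rw [hF0, mem_filter] at hφ0
  obtain ⟨h1, h2, h3, h4⟩ := hφ0
  have himg : F.filter (fun φ => resetB B φ = φ0) = (insertNone B).image (sttB B φ0) := by
    ext φ
    rw [mem_filter, mem_image]
    constructor
    · rintro ⟨hφ, hr⟩
      rw [hF] at hφ
      obtain ⟨o, ho, hφo⟩ := hstt φ hφ.2.1.1
      exact ⟨o, ho, by rw [hφo, hr]⟩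
    · rintro ⟨o, ho, rfl⟩
      refine ⟨?_, ?_⟩
      · rw [hF]
        refine ⟨?_, ⟨goodSt_stt ho, ?_⟩, (hQ φ0 o ho h2).2 h4⟩
        · rw [mem_Phi] at h1 ⊢
          intro e he
          have : e ∉ B := fun h => he (hBS h)
          rw [sttB_of_notMem this, h1 e he]
        · unfold SepB
          rw [Gset_stt]
          exact h3
      · funext f
        by_cases hf : f ∈ B
        · have : φ0 f = none := by
            rw [← h2]; simp [resetB, hf]
          simp [resetB, hf, this]
        · simp [resetB, hf, sttB]
  rw [himg, sum_image]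
  · exact sum_stt_zero hBS hB hk h3 c hc
  · intro o ho o' ho' hoo
    rcases o with _ | e <;> rcases o' with _ | e'
    · rfl
    · exfalso
      have he' : e' ∈ B := by simpa using ho'
      have h5 := congrFun hoo e'
      rw [sttB_none he', sttB_some_self he'] at h5
      exact absurd h5 (by simp)
    · exfalso
      have he : e ∈ B := by simpa using ho
      have h5 := congrFun hoo e
      rw [sttB_none he, sttB_some_self he] at h5
      exact absurd h5 (by simp)
    · have he : e ∈ B := by simpa using ho
      have h5 := congrFun hoo e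
      by_contra hne
      have hne' : e ≠ e' := fun h => hne (by rw [h])
      rw [sttB_some_self he, sttB_some_ne he hne'] at h5
      exact absurd h5 (by simp)

/-- Configurations which are clean at some block of a disjoint family cancel. -/
lemma sum_eq_nonclean {D : ℕ} {S : Finset (Pair n)} (c : Pair n → St n → ℝ)
    (Bs : Finset (Finset (Pair n)))
    (hBs : ∀ B ∈ Bs, B ⊆ S ∧ B ∈ gd n D ∧ 2 * (vset B).card ^ 2 ≤ k ∧ GoodC k c B)
    (hdis : ∀ B ∈ Bs, ∀ B' ∈ Bs, B ≠ B' → Disjoint B B') :
    ∑ φ ∈ Phi S, (∏ e ∈ S, c e (φ e)) * Wt k D S φ =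
      ∑ φ ∈ (Phi S).filter (fun φ => ∀ B ∈ Bs, ¬ Clean S φ B),
        (∏ e ∈ S, c e (φ e)) * Wt k D S φ := by
  induction Bs using Finset.induction_on with
  | empty => simp
  | insert B Bs' hB ih =>
    have ih' := ih (fun B' hB' => hBs B' (mem_insert_of_mem hB'))
      (fun B1 h1 B2 h2 => hdis B1 (mem_insert_of_mem h1) B2 (mem_insert_of_mem h2))
    rw [ih']
    have hBS := hBs B (mem_insert_self _ _)
    have hzero := clean_sum_zero hBS.1 hBS.2.1 hBS.2.2.1 c hBS.2.2.2
      (fun φ => ∀ B' ∈ Bs', ¬ Clean S φ B') ?_
      ((Phi S).filter (fun φ => (∀ B' ∈ Bs', ¬ Clean S φ B') ∧ Clean S φ B))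
      (fun φ => by rw [mem_filter]; tauto)
    · have hsplit := sum_filter_add_sum_filter_not
        ((Phi S).filter (fun φ => ∀ B' ∈ Bs', ¬ Clean S φ B')) (fun φ => Clean S φ B)
        (fun φ => (∏ e ∈ S, c e (φ e)) * Wt k D S φ)
      rw [filter_filter, filter_filter] at hsplit
      have e2 : (Phi S).filter (fun φ => (∀ B' ∈ Bs', ¬ Clean S φ B') ∧ ¬ Clean S φ B) =
          (Phi S).filter (fun φ => ∀ B' ∈ insert B Bs', ¬ Clean S φ B') := by
        apply filter_congr
        intro φ _
        simp only [mem_insert, forall_eq_or_imp]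
        exact and_comm
      rw [hzero, zero_add, e2] at hsplit
      exact hsplit.symm
    · intro φ o ho hφ
      have hnone : ∀ f ∈ B, φ f = none := by
        intro f hf; rw [← hφ]; simp [resetB, hf]
      apply forall₂_congr
      intro B' hB'
      have hne : B ≠ B' := fun h => hB (h ▸ hB')
      have hd := hdis B (mem_insert_self _ _) B' (mem_insert_of_mem hB') hne
      have hval : ∀ f ∈ B', sttB B φ o f = φ f := by
        intro f hf
        exact sttB_of_notMem (fun h => (disjoint_left.1 hd) h hf)
      have hgood : GoodSt (sttB B φ o) B' ↔ GoodSt φ B' := by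
        unfold GoodSt
        constructor
        · rintro (h | ⟨e, he, h1, h2⟩)
          · exact Or.inl (fun e he => by rw [← hval e he]; exact h e he)
          · exact Or.inr ⟨e, he, by rw [← hval e he]; exact h1,
              fun f hf hfe => by rw [← hval f hf]; exact h2 f hf hfe⟩
        · rintro (h | ⟨e, he, h1, h2⟩)
          · exact Or.inl (fun e he => by rw [hval e he]; exact h e he)
          · exact Or.inr ⟨e, he, by rw [hval e he]; exact h1,
              fun f hf hfe => by rw [hval f hf]; exact h2 f hf hfe⟩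
      have hG : Gset S (sttB B φ o) B' = Gset S φ B' := by
        have hBsub : B ⊆ S \ B' := by
          intro f hf
          rw [mem_sdiff]
          exact ⟨hBS.1 hf, (disjoint_left.1 hd) hf⟩
        rw [Gset, Gset]
        ext f
        simp only [mem_union, mem_biUnion]
        constructor
        · rintro (h | ⟨g, hg, hfg⟩)
          · exact Or.inl h
          · by_cases hgB : g ∈ B
            · left
              rcases o with _ | e
              · rw [sttB_none hgB] at hfg
                simp [hs] at hfg
              · by_cases hge : g = e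
                · subst hge
                  rw [sttB_some_self hgB] at hfg
                  exact hBsub hfg
                · rw [sttB_some_ne hgB hge] at hfg
                  simp [hs] at hfg
            · right
              rw [sttB_of_notMem hgB] at hfg
              exact ⟨g, hg, hfg⟩
        · rintro (h | ⟨g, hg, hfg⟩)
          · exact Or.inl h
          · by_cases hgB : g ∈ B
            · rw [hnone g hgB] at hfg
              simp [hs] at hfg
            · right
              exact ⟨g, hg, by rw [sttB_of_notMem hgB]; exact hfg⟩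
      unfold Clean SepB
      rw [hgood, hG]

end Pool.Agent.ColorLog
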