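import Pool.Agent.ColorLog.Defs
import Pool.Agent.ColorRef.Count2

/-!
Counting configurations.
-/

namespace Pool.Agent.ColorLog

open Finset BigOperators
open scoped Classical
open Pool.Agent.ColorRef

set_option linter.unusedSectionVars false

variable {n : ℕ} {k : ℕ} [NeZero k]

/-- The number of small subsets of a finite set. -/
lemma card_subsets_le {α : Type*} [DecidableEq α] (X : Finset α) (N : ℕ) :
    (X.powerset.filter (fun Y => Y.card ≤ N)).card ≤ (X.card + 1) ^ N := by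
  have h1 : X.powerset.filter (fun Y => Y.card ≤ N) ⊆
      (range (N + 1)).biUnion (fun j => powersetCard j X) := by
    intro Y hY
    rw [mem_filter, mem_powerset] at hY
    rw [mem_biUnion]
    exact ⟨Y.card, by rw [mem_range]; omega, by rw [mem_powersetCard]; exact ⟨hY.1, rfl⟩⟩
  calc (X.powerset.filter (fun Y => Y.card ≤ N)).card
      ≤ ∑ j ∈ range (N + 1), (powersetCard j X).card :=
        (card_le_card h1).trans card_biUnion_le
    _ ≤ ∑ j ∈ range (N + 1), X.card ^ j * 1 ^ (N - j) * N.choose j := by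
        apply sum_le_sum
        intro j hj
        rw [card_powersetCard, one_pow, mul_one]
        have h2 : 1 ≤ N.choose j := Nat.choose_pos (by rw [mem_range] at hj; omega)
        calc X.card.choose j ≤ X.card ^ j := Nat.choose_le_pow _ _
          _ = X.card ^ j * 1 := (mul_one _).symm
          _ ≤ X.card ^ j * N.choose j := Nat.mul_le_mul_left _ h2
    _ = (X.card + 1) ^ N := by rw [add_pow]; simp

/-- Incidences between response edges and the edges of their gadgets. -/
noncomputable def Inc (S : Finset (Pair n)) (φ : Pair n → St n) : Finset (Pair n × Pair n) :=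
  (Tset S φ).biUnion (fun e => (hs (φ e)).image (fun f => (e, f)))

lemma mem_Inc {S : Finset (Pair n)} {φ : Pair n → St n} {e f : Pair n} :
    (e, f) ∈ Inc S φ ↔ e ∈ Tset S φ ∧ f ∈ hs (φ e) := by
  unfold Inc
  rw [mem_biUnion]
  constructor
  · rintro ⟨e', he', h⟩
    obtain ⟨f', hf', h2⟩ := mem_image.1 h
    rw [Prod.mk.injEq] at h2
    obtain ⟨rfl, rfl⟩ := h2
    exact ⟨he', hf'⟩
  · rintro ⟨he, hf⟩
    exact ⟨e, he, mem_image.2 ⟨f, hf, rfl⟩⟩

lemma card_Inc_le (S : Finset (Pair n)) (φ : Pair n → St n) :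
    (Inc S φ).card ≤ ∑ e ∈ Tset S φ, (hs (φ e)).card := by
  refine card_biUnion_le.trans ?_
  apply sum_le_sum
  intro e _
  exact card_image_le

lemma rsp_of_Inc {S : Finset (Pair n)} {φ φ' : Pair n → St n}
    (h1 : ∀ e ∈ Tset S φ, e ∈ hs (φ e)) (h2 : ∀ e ∈ Tset S φ', e ∈ hs (φ' e))
    (h : Inc S φ = Inc S φ') : ∀ e ∈ S, rsp (φ e) = rsp (φ' e) := by
  intro e he
  have key : ∀ ψ ψ' : Pair n → St n, (∀ e ∈ Tset S ψ, e ∈ hs (ψ e)) →
      (∀ e ∈ Tset S ψ', e ∈ hs (ψ' e)) → Inc S ψ = Inc S ψ' →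
      ∀ H, ψ e = some (some H) → ψ' e = some (some H) := by
    intro ψ ψ' hψ hψ' hI H hH
    have heT : e ∈ Tset S ψ := mem_filter.2 ⟨he, H, hH⟩
    have h3 : (e, e) ∈ Inc S ψ' := by
      rw [← hI, mem_Inc]; exact ⟨heT, hψ e heT⟩
    have heT' : e ∈ Tset S ψ' := (mem_Inc.1 h3).1
    obtain ⟨-, H', hH'⟩ := mem_filter.1 heT'
    have : H = H' := by
      ext f
      have h4 : (e, f) ∈ Inc S ψ ↔ (e, f) ∈ Inc S ψ' := by rw [hI]
      rw [mem_Inc, mem_Inc, hH, hH'] at h4
      simp only [heT, heT', true_and] at h4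
      exact h4
    rw [hH', this]
  rcases hφ : φ e with _ | _ | H
  · rcases hφ' : φ' e with _ | _ | H'
    · rfl
    · rfl
    · have := key φ' φ h2 h1 h.symm H' hφ'
      rw [hφ] at this; simp at this
  · rcases hφ' : φ' e with _ | _ | H'
    · rfl
    · rfl
    · have := key φ' φ h2 h1 h.symm H' hφ'
      rw [hφ] at this; simp at this
  · rw [key φ φ' h1 h2 h H hφ]

/-- The number of configurations with few incidences. -/
lemma count_le {S : Finset (Pair n)} (F : Finset (Pair n → St n)) (W : Finset (Fin n)) (N : ℕ)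
    (h2 : ∀ φ ∈ F, ∀ e ∈ Tset S φ, e ∈ hs (φ e) ∧ vset (hs (φ e)) ⊆ W)
    (h3 : ∀ φ ∈ F, ∑ e ∈ Tset S φ, (hs (φ e)).card ≤ N)
    (hinj : ∀ φ ∈ F, ∀ φ' ∈ F, (∀ e ∈ S, rsp (φ e) = rsp (φ' e)) → φ = φ') :
    F.card ≤ (S.card * W.card ^ 2 + 1) ^ N := by
  have hmaps : ∀ φ ∈ F, Inc S φ ∈ (S ×ˢ inside W).powerset.filter (fun Y => Y.card ≤ N) := by
    intro φ hφ
    rw [mem_filter, mem_powerset]
    refine ⟨?_, (card_Inc_le S φ).trans (h3 φ hφ)⟩
    rintro ⟨e, f⟩ hef
    rw [mem_Inc] at hef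
    rw [mem_product]
    refine ⟨(mem_filter.1 hef.1).1, ?_⟩
    have h4 := (h2 φ hφ e hef.1).2
    unfold inside
    rw [mem_filter]
    exact ⟨mem_univ _, h4 (fst_mem_vset hef.2), h4 (snd_mem_vset hef.2)⟩
  have hinj' : Set.InjOn (Inc S) F := by
    intro φ hφ φ' hφ' h
    rw [mem_coe] at hφ hφ'
    exact hinj φ hφ φ' hφ' (rsp_of_Inc (fun e he => (h2 φ hφ e he).1)
      (fun e he => (h2 φ' hφ' e he).1) h)
  calc F.card ≤ ((S ×ˢ inside W).powerset.filter (fun Y => Y.card ≤ N)).card :=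
        card_le_card_of_injOn (Inc S) hmaps hinj'
    _ ≤ ((S ×ˢ inside W).card + 1) ^ N := card_subsets_le _ _
    _ ≤ (S.card * W.card ^ 2 + 1) ^ N := by
        gcongr
        rw [card_product]
        exact Nat.mul_le_mul_left _ (card_inside_le W)

/-- The parity condition determines a configuration from its response part. -/
lemma eq_of_rsp {S : Finset (Pair n)} {φ φ' : Pair n → St n}
    (hv : fin S (Lst S φ) = Mset S φ) (hv' : fin S (Lst S φ') = Mset S φ')
    (h : ∀ e ∈ S, rsp (φ e) = rsp (φ' e)) : ∀ e ∈ S, φ e = φ' e := by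
  have hresp : ∀ e ∈ S, ∀ H, φ e = some (some H) ↔ φ' e = some (some H) := by
    intro e he H
    have h1 : rsp (φ e) = rsp (φ' e) := h e he
    constructor
    · intro h2
      rw [h2] at h1
      rcases hφ : φ' e with _ | _ | H'
      · rw [hφ] at h1; simp [rsp] at h1
      · rw [hφ] at h1; simp [rsp] at h1
      · rw [hφ] at h1; simp only [rsp] at h1; exact h1.symm
    · intro h2
      rw [h2] at h1
      rcases hφ : φ e with _ | _ | H'
      · rw [hφ] at h1; simp [rsp] at h1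
      · rw [hφ] at h1; simp [rsp] at h1
      · rw [hφ] at h1; simp only [rsp] at h1; exact h1
  have hT : Tset S φ = Tset S φ' := by
    unfold Tset
    apply filter_congr
    intro e he
    constructor
    · rintro ⟨H, hH⟩; exact ⟨H, (hresp e he H).1 hH⟩
    · rintro ⟨H, hH⟩; exact ⟨H, (hresp e he H).2 hH⟩
  have hL : Lst S φ = Lst S φ' := by
    unfold Lst
    rw [hT]
    apply List.map_congr_left
    intro e he
    obtain ⟨heS, H, hH⟩ := mem_filter.1 (mem_toList.1 he)
    rw [hH, (hresp e heS H).2 hH]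
  have hM : Mset S φ = Mset S φ' := by rw [← hv, ← hv', hL]
  intro e heS
  have hnone : φ e = none ↔ φ' e = none := by
    have h1 : e ∈ Mset S φ ↔ e ∈ Mset S φ' := by rw [hM]
    simpa [Mset, heS] using h1
  rcases hφ : φ e with _ | _ | H
  · exact (hnone.1 hφ).symm
  · rcases hφ' : φ' e with _ | _ | H'
    · rw [hnone.2 hφ'] at hφ; simp at hφ
    · rfl
    · rw [(hresp e heS H').2 hφ'] at hφ; simp at hφ
  · exact ((hresp e heS H).1 hφ).symm

/-- Summation over configurations, by extra vertices and number of active steps. -/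
lemma sum_conf_le (hn : n ≤ k ^ 2) (F : Finset (Pair n → St n))
    (I : (Pair n → St n) → Finset (Fin n)) (b : (Pair n → St n) → ℕ) (Bs : Finset ℕ)
    (f : (Pair n → St n) → ℝ) (G : ℕ → ℝ) (N : ℕ → ℕ) (hG : ∀ j, 0 ≤ G j)
    (hf : ∀ φ ∈ F, f φ ≤ G (b φ) * (1 / (k : ℝ) ^ 2) ^ (I φ).card)
    (hb : ∀ φ ∈ F, b φ ∈ Bs)
    (hcount : ∀ I0 : Finset (Fin n), ∀ j ∈ Bs,
      (F.filter (fun φ => I φ = I0 ∧ b φ = j)).card ≤ N j) :
    ∑ φ ∈ F, f φ ≤ 3 * ∑ j ∈ Bs, (N j : ℝ) * G j := by
  have hk0 := kpos (k := k)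
  calc ∑ φ ∈ F, f φ ≤ ∑ φ ∈ F, G (b φ) * (1 / (k : ℝ) ^ 2) ^ (I φ).card := sum_le_sum hf
    _ = ∑ p ∈ (univ : Finset (Finset (Fin n))) ×ˢ Bs,
          ∑ φ ∈ F.filter (fun φ => (I φ, b φ) = p), G (b φ) * (1 / (k : ℝ) ^ 2) ^ (I φ).card := by
        refine (sum_fiberwise_of_maps_to (g := fun φ => (I φ, b φ)) ?_ _).symm
        intro φ hφ
        rw [mem_product]
        exact ⟨mem_univ _, hb φ hφ⟩
    _ ≤ ∑ p ∈ (univ : Finset (Finset (Fin n))) ×ˢ Bs,
          ((N p.2 : ℝ) * G p.2) * (1 / (k : ℝ) ^ 2) ^ p.1.card := by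
        apply sum_le_sum
        rintro ⟨I0, j⟩ hp
        rw [mem_product] at hp
        have h1 : ∑ φ ∈ F.filter (fun φ => (I φ, b φ) = (I0, j)),
            G (b φ) * (1 / (k : ℝ) ^ 2) ^ (I φ).card =
            ((F.filter (fun φ => (I φ, b φ) = (I0, j))).card : ℝ) *
              (G j * (1 / (k : ℝ) ^ 2) ^ I0.card) := by
          rw [← nsmul_eq_mul, ← sum_const]
          apply sum_congr rfl
          intro φ hφ
          have := (mem_filter.1 hφ).2
          rw [Prod.mk.injEq] at this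
          rw [this.1, this.2]
        rw [h1]
        have h2 : ((F.filter (fun φ => (I φ, b φ) = (I0, j))).card : ℝ) ≤ N j := by
          have h3 := hcount I0 j hp.2
          have h4 : F.filter (fun φ => (I φ, b φ) = (I0, j)) =
              F.filter (fun φ => I φ = I0 ∧ b φ = j) := by
            apply filter_congr
            intro φ _
            rw [Prod.mk.injEq]
          rw [h4]
          exact_mod_cast h3
        have h5 : 0 ≤ G j * (1 / (k : ℝ) ^ 2) ^ I0.card := mul_nonneg (hG j) (by positivity)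
        calc _ ≤ (N j : ℝ) * (G j * (1 / (k : ℝ) ^ 2) ^ I0.card) := by gcongr
          _ = _ := by ring
    _ = (∑ I0 : Finset (Fin n), (1 / (k : ℝ) ^ 2) ^ I0.card) * ∑ j ∈ Bs, (N j : ℝ) * G j := by
        rw [sum_product, sum_mul]
        apply sum_congr rfl
        intro I0 _
        rw [mul_sum]
        apply sum_congr rfl
        intro j _
        ring
    _ ≤ 3 * ∑ j ∈ Bs, (N j : ℝ) * G j := by
        apply mul_le_mul_of_nonneg_right (sum_extra_le hn)
        exact sum_nonneg (fun j _ => mul_nonneg (Nat.cast_nonneg _) (hG j))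

end Pool.Agent.ColorLog
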