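import Pool.Agent.ColorLog.Defs

namespace Pool.Agent.ColorLog

open Finset BigOperators
open scoped Classical
open Pool.Agent.ColorRef

set_option linter.unusedSectionVars false

variable {n : ℕ} {k : ℕ} [NeZero k]

/-- The vertices used by the edges of `S` in the configuration `φ`. -/
noncomputable def Us (S : Finset (Pair n)) (φ : Pair n → St n) : Finset (Fin n) :=
  vset S ∪ S.biUnion (fun e => vset (hs (φ e)))

/-- The pairs used by the edges of `S` in the configuration `φ`. -/
noncomputable def Es (S : Finset (Pair n)) (φ : Pair n → St n) : Finset (Pair n) :=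
  S ∪ S.biUnion (fun e => hs (φ e))

lemma vset_Es (S : Finset (Pair n)) (φ : Pair n → St n) : vset (Es S φ) = Us S φ := by
  ext v
  simp only [mem_vset, Es, Us, mem_union, mem_biUnion]
  constructor
  · rintro ⟨e, he | ⟨f, hf, he⟩, h⟩
    · exact Or.inl ⟨e, he, h⟩
    · exact Or.inr ⟨f, hf, e, he, h⟩
  · rintro (⟨e, he, h⟩ | ⟨f, hf, e, he, h⟩)
    · exact ⟨e, Or.inl he, h⟩
    · exact ⟨e, Or.inr ⟨f, hf, he⟩, h⟩

lemma subset_Es (S : Finset (Pair n)) (φ : Pair n → St n) : S ⊆ Es S φ :=
  subset_union_left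

lemma hs_subset_Es {S : Finset (Pair n)} {φ : Pair n → St n} {e : Pair n} (he : e ∈ S) :
    hs (φ e) ⊆ Es S φ := by
  intro f hf
  rw [Es, mem_union, mem_biUnion]
  exact Or.inr ⟨e, he, hf⟩

lemma disjoint_of_vset {A B : Finset (Pair n)} (h : Disjoint (vset A) (vset B)) :
    Disjoint A B := by
  rw [disjoint_left]
  intro e he he'
  exact disjoint_left.1 h (fst_mem_vset he) (fst_mem_vset he')

/-- Independence for a uniform Boolean vector. -/
lemma indep_bool (A : Finset (Pair n)) (f g : (Pair n → Bool) → ℝ)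
    (hf : ∀ x y : Pair n → Bool, (∀ e ∈ A, x e = y e) → f x = f y)
    (hg : ∀ x y : Pair n → Bool, (∀ e, e ∉ A → x e = y e) → g x = g y) :
    𝔼 x, f x * g x = (𝔼 x, f x) * 𝔼 x, g x := by
  let tt : (Pair n → Bool) → (Pair n → Bool) → (Pair n → Bool) := fun y x e =>
    if e ∈ A then xor (x e) (y e) else x e
  have htt : ∀ y, Function.Involutive (tt y) := by
    intro y x
    funext e
    by_cases he : e ∈ A <;> simp [tt, he]
  let ff : (Pair n → Bool) → (Pair n → Bool) → (Pair n → Bool) := fun y x e => xor (x e) (y e)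
  have hff : ∀ y, Function.Involutive (ff y) := by
    intro y x
    funext e
    simp [ff]
  have hff2 : ∀ x, Function.Involutive (fun y => ff y x) := by
    intro x y
    funext e
    simp [ff]
  have hshift : ∀ y, 𝔼 x, f x * g x = 𝔼 x, f (ff y x) * g x := by
    intro y
    rw [← Fintype.expect_bijective (tt y) (htt y).bijective
      (fun x => f (tt y x) * g (tt y x)) (fun x => f x * g x) (fun x => rfl)]
    apply expect_congr rfl
    intro x _
    rw [hf (tt y x) (ff y x) (fun e he => by simp [tt, ff, he]),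
      hg (tt y x) x (fun e he => by simp [tt, he])]
  calc 𝔼 x, f x * g x = 𝔼 _y : Pair n → Bool, 𝔼 x, f x * g x := by
        rw [expect_const univ_nonempty]
    _ = 𝔼 y, 𝔼 x, f (ff y x) * g x := expect_congr rfl (fun y _ => hshift y)
    _ = 𝔼 x, 𝔼 y, f (ff y x) * g x := by rw [expect_comm]
    _ = 𝔼 x, (𝔼 y, f y) * g x := by
        apply expect_congr rfl
        intro x _
        rw [← expect_mul]
        congr 1
        exact Fintype.expect_bijective (fun y => ff y x) (hff2 x).bijective _ _ (fun y => rfl)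
    _ = _ := by rw [← mul_expect]

lemma iD_congr_sigma (D : ℕ) {σ σ' : Fin n → ZMod k} (R : Finset (Pair n)) {e : Pair n}
    {st : St n} (he : σ e.1.1 = σ' e.1.1 ∧ σ e.1.2 = σ' e.1.2)
    (hst : ∀ v ∈ vset (hs st), σ v = σ' v) : iD D σ R e st = iD D σ' R e st := by
  have hm : Mono σ e ↔ Mono σ' e := by unfold Mono; rw [he.1, he.2]
  rcases st with _ | _ | H
  · simp only [iD, hm]
  · simp only [iD, hm]
  · have hr : Rain σ H ↔ Rain σ' H := by
      unfold Rain
      apply forall₂_congr
      intro u hu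
      apply forall₂_congr
      intro v hv
      rw [hst u hu, hst v hv]
    simp only [iD, hr]

lemma iD_congr_R (D : ℕ) (σ : Fin n → ZMod k) {R R' : Finset (Pair n)} {e : Pair n}
    {st : St n} (he : e ∈ R ↔ e ∈ R') (hst : hs st ∩ R = hs st ∩ R') :
    iD D σ R e st = iD D σ R' e st := by
  rcases st with _ | _ | H
  · simp only [iD]
  · simp only [iD, he]
  · have h1 : H ∩ R = H ∩ R' := hst
    simp only [iD, h1]

lemma iD_shift (D : ℕ) (σ t : Fin n → ZMod k) (R : Finset (Pair n)) {e : Pair n}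
    {st : St n} (he : t e.1.1 = t e.1.2) (hst : ∀ f ∈ hs st, t f.1.1 = t f.1.2) :
    iD D (σ + t) R e st = iD D σ R e st := by
  have hmono : Mono (σ + t) e ↔ Mono σ e := by
    unfold Mono
    simp only [Pi.add_apply, he]
    exact add_left_inj _
  rcases st with _ | _ | H
  · simp only [iD, hmono]
  · simp only [iD, hmono]
  · simp only [iD]
    by_cases hH : H ∈ gd n D
    · have hrain : Rain (σ + t) H ↔ Rain σ H := by
        have hconst : ∀ u ∈ vset H, ∀ v ∈ vset H, t u = t v := by
          intro u hu v hv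
          exact Conn.map t hst ((mem_gd.1 hH).1.2 u hu v hv)
        unfold Rain
        constructor
        · intro h u hu v hv huv
          apply h u hu v hv
          simp only [Pi.add_apply, huv, hconst u hu v hv]
        · intro h u hu v hv huv
          apply h u hu v hv
          simp only [Pi.add_apply, hconst u hu v hv] at huv
          exact add_right_cancel huv
      simp only [hrain]
    · simp [hH]

/-- Factorisation of the weight for configurations that do not touch. The first factor of `Wt` is an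
expectation over independent colours of the vertices and a uniform set of pairs, the second over a
uniform Boolean vector; if some gadget is not in `gd n D` both sides vanish. -/
theorem Wt_mul (D : ℕ) {S₁ S₂ : Finset (Pair n)} {φ : Pair n → St n}
    (hd : Disjoint (Us S₁ φ) (Us S₂ φ)) :
    Wt k D (S₁ ∪ S₂) φ = Wt k D S₁ φ * Wt k D S₂ φ := by
  have hd' : Disjoint (vset (Es S₁ φ)) (vset (Es S₂ φ)) := by
    rw [vset_Es, vset_Es]; exact hd
  have hE : Disjoint (Es S₁ φ) (Es S₂ φ) := disjoint_of_vset hd'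
  have hS : Disjoint S₁ S₂ := hE.mono (subset_Es _ _) (subset_Es _ _)
  have h1 : (𝔼 σ : Fin n → ZMod k, 𝔼 R : Finset (Pair n),
      ∏ e ∈ S₁ ∪ S₂, iD D σ R e (φ e)) =
      (𝔼 σ : Fin n → ZMod k, 𝔼 R : Finset (Pair n), ∏ e ∈ S₁, iD D σ R e (φ e)) *
      𝔼 σ : Fin n → ZMod k, 𝔼 R : Finset (Pair n), ∏ e ∈ S₂, iD D σ R e (φ e) := by
    rw [← indep (Es S₁ φ) (Es S₂ φ) (fun σ R => ∏ e ∈ S₁, iD D σ R e (φ e))
      (fun σ R => ∏ e ∈ S₂, iD D σ R e (φ e))]
    · apply expect_congr rfl
      intro σ _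
      apply expect_congr rfl
      intro R _
      exact prod_union hS
    · intro u hu v hv huv hc
      exact huv (Conn.eq_of_notMem (disjoint_left.1 hd' hu) hc)
    · intro σ t R ht
      apply prod_congr rfl
      intro e he
      exact iD_shift D σ t R (ht e (subset_Es _ _ he)) (fun f hf => ht f (hs_subset_Es he hf))
    · intro σ R R' hR
      apply prod_congr rfl
      intro e he
      have key : ∀ f ∈ Es S₂ φ, (f ∈ R ↔ f ∈ R') := by
        intro f hf
        have hf1 : f ∉ Es S₁ φ := fun h => disjoint_left.1 hE h hf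
        have h2 : f ∈ R \ Es S₁ φ ↔ f ∈ R' \ Es S₁ φ := by rw [hR]
        simp only [mem_sdiff, hf1, not_false_eq_true, and_true] at h2
        exact h2
      apply iD_congr_R D σ (key e (subset_Es _ _ he))
      ext f
      rw [mem_inter, mem_inter]
      constructor
      · rintro ⟨h2, h3⟩
        exact ⟨h2, (key f (hs_subset_Es he h2)).1 h3⟩
      · rintro ⟨h2, h3⟩
        exact ⟨h2, (key f (hs_subset_Es he h2)).2 h3⟩
    · intro σ σ' R hσ
      apply prod_congr rfl
      intro e he
      have heE : e ∈ Es S₁ φ := subset_Es _ _ he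
      exact iD_congr_sigma D R ⟨hσ _ (fst_mem_vset heE), hσ _ (snd_mem_vset heE)⟩
        (fun v hv => hσ v (vset_mono (hs_subset_Es he) hv))
    · intro σ R R' hR
      apply prod_congr rfl
      intro e he
      have key : ∀ f ∈ Es S₁ φ, (f ∈ R ↔ f ∈ R') := by
        intro f hf
        have h2 : f ∈ R ∩ Es S₁ φ ↔ f ∈ R' ∩ Es S₁ φ := by rw [hR]
        simp only [mem_inter, hf, and_true] at h2
        exact h2
      apply iD_congr_R D σ (key e (subset_Es _ _ he))
      ext f
      rw [mem_inter, mem_inter]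
      constructor
      · rintro ⟨h2, h3⟩
        exact ⟨h2, (key f (hs_subset_Es he h2)).1 h3⟩
      · rintro ⟨h2, h3⟩
        exact ⟨h2, (key f (hs_subset_Es he h2)).2 h3⟩
  have hchcongr : ∀ (x y : Pair n → Bool) (e : Pair n) (st : St n), x e = y e →
      (∀ f ∈ hs st, x f = y f) → ch x e st = ch y e st := by
    intro x y e st he hst
    rcases st with _ | _ | H
    · rfl
    · simp only [ch, he]
    · simp only [ch, chi]
      apply prod_congr rfl
      intro f hf
      rw [hst f (mem_of_mem_erase hf)]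
  have h2 : (𝔼 x : Pair n → Bool, ∏ e ∈ S₁ ∪ S₂, ch x e (φ e)) =
      (𝔼 x : Pair n → Bool, ∏ e ∈ S₁, ch x e (φ e)) *
      𝔼 x : Pair n → Bool, ∏ e ∈ S₂, ch x e (φ e) := by
    rw [← indep_bool (Es S₁ φ) (fun x => ∏ e ∈ S₁, ch x e (φ e))
      (fun x => ∏ e ∈ S₂, ch x e (φ e))]
    · apply expect_congr rfl
      intro x _
      exact prod_union hS
    · intro x y h
      apply prod_congr rfl
      intro e he
      exact hchcongr x y e _ (h e (subset_Es _ _ he)) (fun f hf => h f (hs_subset_Es he hf))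
    · intro x y h
      apply prod_congr rfl
      intro e he
      exact hchcongr x y e _ (h e (fun h' => disjoint_left.1 hE h' (subset_Es _ _ he)))
        (fun f hf => h f (fun h' => disjoint_left.1 hE h' (hs_subset_Es he hf)))
  rw [Wt, Wt, Wt, h1, h2]
  ring

/-- Product formula for sums over state assignments. -/
theorem sum_Phi_mul {S₁ S₂ : Finset (Pair n)} (hd : Disjoint S₁ S₂)
    (f g : (Pair n → St n) → ℝ)
    (hf : ∀ φ φ' : Pair n → St n, (∀ e ∈ S₁, φ e = φ' e) → f φ = f φ')
    (hg : ∀ φ φ' : Pair n → St n, (∀ e ∈ S₂, φ e = φ' e) → g φ = g φ') :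
    ∑ φ ∈ Phi (S₁ ∪ S₂), f φ * g φ = (∑ φ ∈ Phi S₁, f φ) * ∑ φ ∈ Phi S₂, g φ := by
  rw [sum_mul_sum, ← sum_product']
  refine sum_nbij' (fun φ => ((fun e => if e ∈ S₁ then φ e else none),
      (fun e => if e ∈ S₂ then φ e else none)))
    (fun p => fun e => if e ∈ S₁ then p.1 e else p.2 e) ?_ ?_ ?_ ?_ ?_
  · intro φ _
    rw [mem_product]
    constructor
    · rw [mem_Phi]
      intro e he
      simp [he]
    · rw [mem_Phi]
      intro e he
      simp [he]
  · rintro ⟨a, b⟩ hab
    rw [mem_product, mem_Phi, mem_Phi] at hab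
    rw [mem_Phi]
    intro e he
    rw [mem_union, not_or] at he
    simp only [he.1, if_false]
    exact hab.2 e he.2
  · intro φ hφ
    rw [mem_Phi] at hφ
    funext e
    by_cases h1 : e ∈ S₁
    · simp [h1]
    · by_cases h2 : e ∈ S₂
      · simp [h1, h2]
      · simp [h1, h2, hφ e (by simp [h1, h2])]
  · rintro ⟨a, b⟩ hab
    rw [mem_product, mem_Phi, mem_Phi] at hab
    rw [Prod.mk.injEq]
    constructor
    · funext e
      by_cases h1 : e ∈ S₁
      · simp [h1]
      · simp only [h1, if_false]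
        exact (hab.1 e h1).symm
    · funext e
      by_cases h2 : e ∈ S₂
      · have h1 : e ∉ S₁ := fun h => disjoint_left.1 hd h h2
        simp [h1, h2]
      · simp only [h2, if_false]
        exact (hab.2 e h2).symm
  · intro φ _
    rw [hf φ (fun e => if e ∈ S₁ then φ e else none) (fun e he => by simp [he]),
      hg φ (fun e => if e ∈ S₂ then φ e else none) (fun e he => by simp [he])]

/-- Full weight. -/
noncomputable def Wc (k : ℕ) [NeZero k] (D : ℕ) (g : Finset (Pair n) → ℝ) (S : Finset (Pair n))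
    (φ : Pair n → St n) : ℝ := (∏ e ∈ S, cf g (φ e)) * Wt k D S φ

/-- The class `c` is touched by another one. -/
def Tch (C : Finset (Finset (Pair n))) (φ : Pair n → St n) (c : Finset (Pair n)) : Prop :=
  ∃ c' ∈ C, c' ≠ c ∧ ¬ Disjoint (Us c φ) (Us c' φ)

lemma Wc_congr (D : ℕ) (g : Finset (Pair n) → ℝ) {S : Finset (Pair n)}
    {φ φ' : Pair n → St n} (h : ∀ e ∈ S, φ e = φ' e) : Wc k D g S φ = Wc k D g S φ' := by
  rw [Wc, Wc, Wt, Wt]
  have h1 : ∏ e ∈ S, cf g (φ e) = ∏ e ∈ S, cf g (φ' e) :=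
    prod_congr rfl (fun e he => by rw [h e he])
  have h2 : ∀ (σ : Fin n → ZMod k) (R : Finset (Pair n)),
      ∏ e ∈ S, iD D σ R e (φ e) = ∏ e ∈ S, iD D σ R e (φ' e) :=
    fun σ R => prod_congr rfl (fun e he => by rw [h e he])
  have h3 : ∀ x : Pair n → Bool, ∏ e ∈ S, ch x e (φ e) = ∏ e ∈ S, ch x e (φ' e) :=
    fun x => prod_congr rfl (fun e he => by rw [h e he])
  simp only [h1, h2, h3]

lemma ac_eq_Wc (D : ℕ) (g : Finset (Pair n) → ℝ) (S : Finset (Pair n)) :
    ac k D g S = ∑ φ ∈ Phi S, Wc k D g S φ := by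
  rw [ac_eq]
  rfl

lemma Us_mono {S S' : Finset (Pair n)} (h : S ⊆ S') (φ : Pair n → St n) :
    Us S φ ⊆ Us S' φ :=
  union_subset_union (vset_mono h) (biUnion_subset_biUnion_of_subset_left _ h)

lemma mem_Us_iff {S : Finset (Pair n)} {φ : Pair n → St n} {v : Fin n} :
    v ∈ Us S φ ↔ ∃ e ∈ S, v ∈ Us {e} φ := by
  simp only [Us, mem_union, mem_vset, mem_biUnion, mem_singleton, exists_eq_left]
  constructor
  · rintro (⟨e, he, h⟩ | ⟨e, he, h⟩)
    · exact ⟨e, he, Or.inl h⟩
    · exact ⟨e, he, Or.inr h⟩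
  · rintro ⟨e, he, h | h⟩
    · exact Or.inl ⟨e, he, h⟩
    · exact Or.inr ⟨e, he, h⟩

lemma Wc_mul (D : ℕ) (g : Finset (Pair n) → ℝ) {S₁ S₂ : Finset (Pair n)}
    {φ : Pair n → St n} (hd : Disjoint (Us S₁ φ) (Us S₂ φ)) :
    Wc k D g (S₁ ∪ S₂) φ = Wc k D g S₁ φ * Wc k D g S₂ φ := by
  have hd' : Disjoint (vset (Es S₁ φ)) (vset (Es S₂ φ)) := by
    rw [vset_Es, vset_Es]; exact hd
  have hE : Disjoint (Es S₁ φ) (Es S₂ φ) := disjoint_of_vset hd'
  have hS : Disjoint S₁ S₂ := hE.mono (subset_Es _ _) (subset_Es _ _)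
  rw [Wc, Wc, Wc, Wt_mul D hd, prod_union hS]
  ring

lemma sum_Wc_prod (D : ℕ) (g : Finset (Pair n) → ℝ) (T : Finset (Pair n))
    (P : Finset (Finset (Pair n)))
    (hdis : ∀ c ∈ P, ∀ c' ∈ P, c ≠ c' → Disjoint c c') (hT : ∀ c ∈ P, Disjoint T c) :
    ∑ φ ∈ Phi (T ∪ P.biUnion id), Wc k D g T φ * ∏ c ∈ P, Wc k D g c φ =
      ac k D g T * ∏ c ∈ P, ac k D g c := by
  induction P using Finset.induction_on with
  | empty =>
    simp only [biUnion_empty, union_empty, prod_empty, mul_one]
    exact (ac_eq_Wc D g T).symm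
  | insert c P hc ih =>
    have ih' := ih (fun a ha b hb hab => hdis a (mem_insert_of_mem ha) b (mem_insert_of_mem hb) hab)
      (fun a ha => hT a (mem_insert_of_mem ha))
    have hU : T ∪ (insert c P).biUnion id = (T ∪ P.biUnion id) ∪ c := by
      rw [biUnion_insert, id, union_comm c, union_assoc]
    have hdj : Disjoint (T ∪ P.biUnion id) c := by
      rw [disjoint_union_left]
      refine ⟨hT c (mem_insert_self _ _), ?_⟩
      rw [disjoint_biUnion_left]
      intro a ha
      exact hdis a (mem_insert_of_mem ha) c (mem_insert_self _ _) (fun h => hc (h ▸ ha))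
    rw [hU, prod_insert hc]
    have h1 : ∀ φ : Pair n → St n, Wc k D g T φ * ∏ a ∈ insert c P, Wc k D g a φ =
        (Wc k D g T φ * ∏ a ∈ P, Wc k D g a φ) * Wc k D g c φ := fun φ => by
      rw [prod_insert hc]; ring
    simp only [h1]
    rw [sum_Phi_mul hdj (fun φ => Wc k D g T φ * ∏ c ∈ P, Wc k D g c φ)
      (fun φ => Wc k D g c φ), ih', ← ac_eq_Wc]
    · ring
    · intro φ φ' h
      show Wc k D g T φ * ∏ c ∈ P, Wc k D g c φ = Wc k D g T φ' * ∏ c ∈ P, Wc k D g c φ'
      rw [Wc_congr D g (fun e he => h e (mem_union_left _ he))]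
      congr 1
      apply prod_congr rfl
      intro a ha
      exact Wc_congr D g (fun e he => h e (mem_union_right _ (mem_biUnion.2 ⟨a, ha, he⟩)))
    · intro φ φ' h
      exact Wc_congr D g h

/-- Inclusion-exclusion identity. `C` is a family of pairwise disjoint nonempty graphs with union
`S` whose coefficients all vanish. Put
`Dφ = ∑ P ⊆ C, (-1)^|P| Wc (S \ ⋃ P) φ * ∏ c ∈ P, Wc c φ`. The sum over all `φ ∈ Phi S` of the term
`P` is `ac (S \ ⋃ P) * ∏ c ∈ P, ac c`, which is `0` for `P ≠ ∅` (`sum_Phi_mul`) and `ac S` for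
`P = ∅`. If `c` is not touched in `φ`, the terms `P` and `P ∪ {c}` cancel (`Wt_mul`). -/
theorem ac_touched (D : ℕ) (g : Finset (Pair n) → ℝ) (S : Finset (Pair n))
    (C : Finset (Finset (Pair n))) (hne : C.Nonempty)
    (hdis : ∀ c ∈ C, ∀ c' ∈ C, c ≠ c' → Disjoint c c') (hS : C.biUnion id = S)
    (h0 : ∀ c ∈ C, ac k D g c = 0) :
    ac k D g S = ∑ φ ∈ (Phi S).filter (fun φ => ∀ c ∈ C, Tch C φ c),
      ∑ P ∈ C.powerset, (-1 : ℝ) ^ P.card *
        (Wc k D g (S \ P.biUnion id) φ * ∏ c ∈ P, Wc k D g c φ) := by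
  have hsub : ∀ c ∈ C, c ⊆ S := by
    intro c hc
    rw [← hS]
    exact subset_biUnion_of_mem id hc
  -- the full sum
  have hfull : ∑ φ ∈ Phi S, ∑ P ∈ C.powerset, (-1 : ℝ) ^ P.card *
      (Wc k D g (S \ P.biUnion id) φ * ∏ c ∈ P, Wc k D g c φ) = ac k D g S := by
    rw [sum_comm]
    have hterm : ∀ P ∈ C.powerset, ∑ φ ∈ Phi S, (-1 : ℝ) ^ P.card *
        (Wc k D g (S \ P.biUnion id) φ * ∏ c ∈ P, Wc k D g c φ) =
        (-1 : ℝ) ^ P.card * (ac k D g (S \ P.biUnion id) * ∏ c ∈ P, ac k D g c) := by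
      intro P hP
      rw [mem_powerset] at hP
      rw [← mul_sum]
      congr 1
      have hU : (S \ P.biUnion id) ∪ P.biUnion id = S := by
        apply sdiff_union_of_subset
        rw [← hS]
        exact biUnion_subset_biUnion_of_subset_left _ hP
      have h1 := sum_Wc_prod (k := k) D g (S \ P.biUnion id) P
        (fun a ha b hb hab => hdis a (hP ha) b (hP hb) hab) (fun a ha => by
          apply Disjoint.mono_right _ sdiff_disjoint
          exact subset_biUnion_of_mem id ha)
      rw [hU] at h1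
      exact h1
    rw [sum_congr rfl hterm, sum_eq_single ∅]
    · simp
    · intro P hP hPne
      rw [mem_powerset] at hP
      obtain ⟨c, hc⟩ := nonempty_iff_ne_empty.2 hPne
      rw [prod_eq_zero hc (h0 c (hP hc)), mul_zero, mul_zero]
    · intro h
      exact absurd (empty_mem_powerset C) h
  rw [← hfull, ← sum_filter_add_sum_filter_not (Phi S) (fun φ => ∀ c ∈ C, Tch C φ c)]
  rw [add_eq_left]
  apply sum_eq_zero
  intro φ hφ
  have hφ2 := (mem_filter.1 hφ).2
  push Not at hφ2
  obtain ⟨c, hc, hcT⟩ := hφ2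
  have hunt : ∀ c' ∈ C, c' ≠ c → Disjoint (Us c φ) (Us c' φ) := by
    intro c' hc' hne'
    by_contra h
    exact hcT ⟨c', hc', hne', h⟩
  have hins : C = insert c (C.erase c) := (insert_erase hc).symm
  rw [hins, sum_powerset_insert (notMem_erase c C), ← sum_add_distrib]
  apply sum_eq_zero
  intro P hP
  rw [mem_powerset] at hP
  have hcP : c ∉ P := fun h => notMem_erase c C (hP h)
  have hPC : P ⊆ C := hP.trans (erase_subset _ _)
  have hPd : ∀ a ∈ P, Disjoint c a := fun a ha =>
    hdis c hc a (hPC ha) (fun h => hcP (h ▸ ha))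
  have hcS : c ⊆ S \ P.biUnion id := by
    intro e he
    rw [mem_sdiff]
    refine ⟨hsub c hc he, ?_⟩
    intro h
    obtain ⟨a, ha, hea⟩ := mem_biUnion.1 h
    exact disjoint_left.1 (hPd a ha) he hea
  have hset : S \ (insert c P).biUnion id = (S \ P.biUnion id) \ c := by
    rw [biUnion_insert, id, union_comm, sdiff_sdiff_left]
    rfl
  have hdisU : Disjoint (Us ((S \ P.biUnion id) \ c) φ) (Us c φ) := by
    rw [disjoint_left]
    intro v hv hv'
    obtain ⟨e, he, hve⟩ := mem_Us_iff.1 hv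
    rw [mem_sdiff, mem_sdiff] at he
    obtain ⟨⟨heS, -⟩, hec⟩ := he
    rw [← hS, mem_biUnion] at heS
    obtain ⟨c', hc', hec'⟩ := heS
    have hne' : c' ≠ c := by
      intro h
      exact hec (h ▸ hec')
    have h1 : v ∈ Us c' φ := mem_Us_iff.2 ⟨e, hec', hve⟩
    exact disjoint_left.1 (hunt c' hc' hne') hv' h1
  have hsplit : Wc k D g (S \ P.biUnion id) φ =
      Wc k D g ((S \ P.biUnion id) \ c) φ * Wc k D g c φ := by
    rw [← Wc_mul D g hdisU, sdiff_union_of_subset hcS]
  rw [hset, prod_insert hcP, card_insert_of_notMem hcP, hsplit]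
  ring

end Pool.Agent.ColorLog
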