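import Pool.Agent.ColorLog.Bnd
import Pool.Agent.ColorLog.Fact

namespace Pool.Agent.ColorLog

open Finset BigOperators
open scoped Classical
open Pool.Agent.ColorRef

set_option linter.unusedSectionVars false

variable {n : ℕ} {k : ℕ} [NeZero k]

/-- Response edges whose gadget is not a block. -/
noncomputable def Ab (S : Finset (Pair n)) (φ : Pair n → St n) : Finset (Pair n) :=
  (Tset S φ).filter (fun e => ¬ Blk (hs (φ e)))

lemma Ab_subset (S : Finset (Pair n)) (φ : Pair n → St n) : Ab S φ ⊆ Tset S φ :=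
  filter_subset _ _

/-- Number of steps of one group. -/
noncomputable def bG (S : Finset (Pair n)) (φ : Pair n → St n) : ℕ := bb S (Ab S φ) φ

lemma abs_Wc_le (D : ℕ) (g : Finset (Pair n) → ℝ) (S : Finset (Pair n))
    (φ : Pair n → St n) :
    |Wc k D g S φ| ≤ (∏ e ∈ Tset S φ, |g (hs (φ e))|) * pm k (Mset S φ) := by
  rw [Wc, abs_mul, abs_prod]
  have h1 : ∏ e ∈ S, |cf g (φ e)| = ∏ e ∈ Tset S φ, |g (hs (φ e))| := by
    unfold Tset
    rw [prod_filter]
    apply prod_congr rfl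
    intro e _
    rcases φ e with _ | _ | H
    · simp [cf]
    · simp [cf]
    · simp [cf, hs]
  rw [h1]
  exact mul_le_mul_of_nonneg_left (abs_Wt_le D S φ) (prod_nonneg (fun e _ => abs_nonneg _))

lemma group_bound {D : ℕ} (g : Finset (Pair n) → ℝ) (C : ℝ) (hC : 1 ≤ C)
    (hg1 : ∀ H ∈ gd n D, Blk H → |g H| * (k : ℝ) ^ (vset H).card ≤ 8 ^ H.card * k)
    (hg2 : ∀ H ∈ gd n D, ¬ Blk H → |g H| * (k : ℝ) ^ (vset H).card ≤ C)
    {S : Finset (Pair n)} {φ : Pair n → St n} (h : Ok k D S φ) :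
    |Wc k D g S φ| * (k : ℝ) ^ (n + nc S + bG S φ) ≤
      8 ^ (S.card + 2 * D * bG S φ) * C ^ bG S φ * (k : ℝ) ^ (2 * nc (Ue S φ)) := by
  have hk0 := kpos (k := k)
  have hblk : ∀ e ∈ Tset S φ \ Ab S φ, Blk (hs (φ e)) := by
    intro e he
    obtain ⟨h1, h2⟩ := mem_sdiff.1 he
    by_contra h3
    exact h2 (mem_filter.2 ⟨h1, h3⟩)
  refine le_trans (mul_le_mul_of_nonneg_right (abs_Wc_le D g S φ) (by positivity)) ?_
  apply GB h (Ab_subset S φ) hblk (fun e => |g (hs (φ e))|) C hC (fun e _ => abs_nonneg _)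
  · intro e he
    exact hg1 _ (h.gadm e (mem_sdiff.1 he).1).1 (hblk e he)
  · intro e he
    exact hg2 _ (h.gadm e (Ab_subset S φ he)).1 (mem_filter.1 he).2

lemma sum_nc_le (P : Finset (Finset (Pair n))) (f : Finset (Pair n) → Finset (Pair n)) :
    ∑ G ∈ P, nc (f G) + n ≤ P.card * n + nc (P.biUnion f) := by
  induction P using Finset.induction_on with
  | empty => simp [nc_empty]
  | insert a P ha ih =>
    rw [sum_insert ha, card_insert_of_notMem ha, biUnion_insert, add_mul, one_mul]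
    have := nc_union (f a) (P.biUnion f)
    omega

lemma mem_tset_of {S : Finset (Pair n)} {φ : Pair n → St n} {e f : Pair n} (he : e ∈ S)
    (hf : f ∈ hs (φ e)) : e ∈ Tset S φ := by
  rcases hφ : φ e with _ | _ | H
  · rw [hφ] at hf; simp [hs] at hf
  · rw [hφ] at hf; simp [hs] at hf
  · exact mem_filter.2 ⟨he, H, hφ⟩

/-- A partition of `S` into groups. -/
structure Fam (S : Finset (Pair n)) (Q : Finset (Finset (Pair n))) : Prop where
  dis : ∀ G ∈ Q, ∀ G' ∈ Q, G ≠ G' → Disjoint G G'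
  un : Q.biUnion id = S
  nce : ∑ G ∈ Q, nc G + n = Q.card * n + nc S

lemma Fam.sub {S : Finset (Pair n)} {Q : Finset (Finset (Pair n))} (h : Fam S Q)
    {G : Finset (Pair n)} (hG : G ∈ Q) : G ⊆ S := by
  rw [← h.un]
  exact subset_biUnion_of_mem id hG

lemma Fam.ex {S : Finset (Pair n)} {Q : Finset (Finset (Pair n))} (h : Fam S Q)
    {e : Pair n} (he : e ∈ S) : ∃ G ∈ Q, e ∈ G := by
  rw [← h.un] at he
  exact mem_biUnion.1 he

lemma Fam.tset {S : Finset (Pair n)} {Q : Finset (Finset (Pair n))} (h : Fam S Q)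
    (φ : Pair n → St n) : Tset S φ = Q.biUnion (fun G => Tset G φ) := by
  ext e
  rw [mem_biUnion]
  constructor
  · intro he
    obtain ⟨h1, h2⟩ := mem_filter.1 he
    obtain ⟨G, hG, heG⟩ := h.ex h1
    exact ⟨G, hG, mem_filter.2 ⟨heG, h2⟩⟩
  · rintro ⟨G, hG, he⟩
    obtain ⟨h1, h2⟩ := mem_filter.1 he
    exact mem_filter.2 ⟨h.sub hG h1, h2⟩

lemma Fam.mem {S : Finset (Pair n)} {Q : Finset (Finset (Pair n))} (h : Fam S Q)
    {φ : Pair n → St n} {e : Pair n} (he : e ∈ Tset S φ) : ∃ G ∈ Q, e ∈ Tset G φ := by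
  rw [h.tset φ] at he
  exact mem_biUnion.1 he

lemma Fam.card_eq {S : Finset (Pair n)} {Q : Finset (Finset (Pair n))} (h : Fam S Q) :
    ∑ G ∈ Q, G.card = S.card := by
  have h1 := card_biUnion (s := Q) (t := id) h.dis
  rw [h.un] at h1
  exact h1.symm

lemma Fam.sum_le {S : Finset (Pair n)} {Q : Finset (Finset (Pair n))} (h : Fam S Q)
    (φ : Pair n → St n) : ∑ G ∈ Q, bG G φ ≤ S.card := by
  rw [← h.card_eq]
  exact sum_le_sum (fun G _ => bb_le (Ab_subset G φ))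

lemma Fam.size {D : ℕ} {S : Finset (Pair n)} {Q : Finset (Finset (Pair n))} (h : Fam S Q)
    {φ : Pair n → St n} (hok : ∀ G ∈ Q, Ok k D G φ) :
    ∑ e ∈ Tset S φ, (hs (φ e)).card ≤ S.card + 2 * D * ∑ G ∈ Q, bG G φ := by
  rw [h.tset φ, sum_biUnion]
  · calc ∑ G ∈ Q, ∑ e ∈ Tset G φ, (hs (φ e)).card
        ≤ ∑ G ∈ Q, (G.card + 2 * D * bG G φ) :=
          sum_le_sum (fun G hG => sum_gadget_card (hok G hG) (Ab_subset G φ))
      _ = _ := by rw [sum_add_distrib, h.card_eq, mul_sum]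
  · intro G hG G' hG' hne
    exact (h.dis G hG G' hG' hne).mono (tset_subset G φ) (tset_subset G' φ)

lemma Fam.gad {D : ℕ} {S : Finset (Pair n)} {Q : Finset (Finset (Pair n))} (h : Fam S Q)
    {φ : Pair n → St n} (hok : ∀ G ∈ Q, Ok k D G φ) {e : Pair n} (he : e ∈ Tset S φ) :
    Cn (hs (φ e)) ∧ e ∈ hs (φ e) := by
  obtain ⟨G, hG, heG⟩ := h.mem he
  have h1 := (hok G hG).gadm e heG
  exact ⟨(mem_gd.1 h1.1).1, h1.2⟩

/-- Vertices used by a component are joined to it in `Ue`. -/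
lemma conn_of_mem_Us {S c : Finset (Pair n)} (hc : c ⊆ S) {φ : Pair n → St n}
    (hgd : ∀ e ∈ Tset S φ, Cn (hs (φ e)) ∧ e ∈ hs (φ e)) {w : Fin n} (hw : w ∈ Us c φ) :
    ∃ u ∈ vset c, Conn (Ue S φ) u w := by
  rw [Us, mem_union, mem_biUnion] at hw
  rcases hw with hw | ⟨e, he, hw⟩
  · exact ⟨w, hw, Conn.refl _ _⟩
  · obtain ⟨f, hf, -⟩ := mem_vset.1 hw
    have heT : e ∈ Tset S φ := mem_tset_of (hc he) hf
    obtain ⟨h1, h2⟩ := hgd e heT
    exact ⟨e.1.1, fst_mem_vset he, (h1.2 _ (fst_mem_vset h2) w hw).mono (hs_subset_Ue heT)⟩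

lemma two_ncl_Ue {S : Finset (Pair n)} {φ : Pair n → St n}
    (hgd : ∀ e ∈ Tset S φ, Cn (hs (φ e)) ∧ e ∈ hs (φ e))
    (hT : ∀ c ∈ comps S, Tch (comps S) φ c) :
    2 * ncl (Ue S φ) (vset (Ue S φ)) ≤ (comps S).card := by
  have h1 : ncl (Ue S φ) (vset (Ue S φ)) ≤ ncl (Ue S φ) (vset S) := by
    apply card_le_card
    intro K hK
    obtain ⟨v, hv, rfl⟩ := mem_image.1 hK
    rcases mem_vset_Ue.1 hv with hv | ⟨e, he, hv⟩
    · exact mem_image_of_mem _ hv
    · rw [mem_image]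
      refine ⟨e.1.1, fst_mem_vset (tset_subset S φ he), ?_⟩
      rw [cls_eq_iff]
      obtain ⟨h1, h2⟩ := hgd e he
      exact (h1.2 _ (fst_mem_vset h2) v hv).mono (hs_subset_Ue he)
  have h2 : 2 * ncl (Ue S φ) (vset S) ≤ (comps S).card := by
    apply two_ncl_le (subset_Ue S φ)
    intro c hc
    obtain ⟨c', hc', hne, hd⟩ := hT c hc
    rw [not_disjoint_iff] at hd
    obtain ⟨w, hw, hw'⟩ := hd
    obtain ⟨u, hu, huw⟩ := conn_of_mem_Us (comps_subset hc) hgd hw
    obtain ⟨v, hv, hvw⟩ := conn_of_mem_Us (comps_subset hc') hgd hw'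
    exact ⟨c', hc', hne, u, hu, v, hv, huw.trans hvw.symm⟩
  omega

/-- Weight bound for a family of groups. -/
lemma Fam.bound {D : ℕ} (g : Finset (Pair n) → ℝ) (C : ℝ) (hC : 1 ≤ C)
    (hg1 : ∀ H ∈ gd n D, Blk H → |g H| * (k : ℝ) ^ (vset H).card ≤ 8 ^ H.card * k)
    (hg2 : ∀ H ∈ gd n D, ¬ Blk H → |g H| * (k : ℝ) ^ (vset H).card ≤ C)
    {S : Finset (Pair n)} {Q : Finset (Finset (Pair n))} (h : Fam S Q)
    {φ : Pair n → St n} (hok : ∀ G ∈ Q, Ok k D G φ)
    (hT : ∀ c ∈ comps S, Tch (comps S) φ c) :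
    (∏ G ∈ Q, |Wc k D g G φ|) *
        (k : ℝ) ^ ((vset S).card + 2 * (Ie S φ).card + ∑ G ∈ Q, bG G φ) ≤
      8 ^ (S.card + 2 * D * ∑ G ∈ Q, bG G φ) * C ^ (∑ G ∈ Q, bG G φ) := by
  have hk0 := kpos (k := k)
  have hk1 : (1 : ℝ) ≤ k := by
    exact_mod_cast Nat.one_le_iff_ne_zero.2 (NeZero.ne k)
  have hC0 : (0 : ℝ) ≤ C := by linarith
  set b := ∑ G ∈ Q, bG G φ with hb
  have h1 : ∏ G ∈ Q, (|Wc k D g G φ| * (k : ℝ) ^ (n + nc G + bG G φ)) ≤
      ∏ G ∈ Q, (8 ^ (G.card + 2 * D * bG G φ) * C ^ bG G φ * (k : ℝ) ^ (2 * nc (Ue G φ))) := by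
    apply prod_le_prod
    · intro G _
      positivity
    · intro G hG
      exact group_bound g C hC hg1 hg2 (hok G hG)
  rw [prod_mul_distrib, prod_mul_distrib, prod_mul_distrib, prod_pow_eq_pow_sum,
    prod_pow_eq_pow_sum, prod_pow_eq_pow_sum, prod_pow_eq_pow_sum, ← hb] at h1
  have e1 : ∑ G ∈ Q, (n + nc G + bG G φ) = Q.card * n + ∑ G ∈ Q, nc G + b := by
    rw [sum_add_distrib, sum_add_distrib, sum_const, smul_eq_mul]
  have e2 : ∑ G ∈ Q, (G.card + 2 * D * bG G φ) = S.card + 2 * D * b := by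
    rw [sum_add_distrib, h.card_eq, ← mul_sum]
  have e3 : ∑ G ∈ Q, 2 * nc (Ue G φ) = 2 * ∑ G ∈ Q, nc (Ue G φ) := by
    rw [← mul_sum]
  rw [e1, e2, e3] at h1
  have h2 := h.nce
  have h3 := sum_nc_le Q (fun G => Ue G φ)
  have h4 : nc (Q.biUnion (fun G => Ue G φ)) ≤ nc (Ue S φ) := by
    apply nc_anti
    intro e he
    rw [Ue, mem_union, mem_biUnion] at he
    rw [mem_biUnion]
    rcases he with he | ⟨f, hf, he⟩
    · obtain ⟨G, hG, heG⟩ := h.ex he
      exact ⟨G, hG, subset_Ue G φ heG⟩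
    · obtain ⟨G, hG, hfG⟩ := h.mem hf
      exact ⟨G, hG, hs_subset_Ue hfG he⟩
  have h5 := nc_eq S
  have h6 : ncl S (vset S) = (comps S).card := by
    have := ncl_comps (S := S) (P := comps S) Subset.rfl
    rwa [comps_union] at this
  have h7 := nc_eq (Ue S φ)
  have h8 := card_vset_Ue S φ
  have h9 := two_ncl_Ue (φ := φ) (fun e he => h.gad hok he) hT
  set X := ∑ G ∈ Q, nc G with hX
  set Y := ∑ G ∈ Q, nc (Ue G φ) with hY
  set N := Q.card * n with hN
  set W := ∏ G ∈ Q, |Wc k D g G φ| with hW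
  set R := (8 : ℝ) ^ (S.card + 2 * D * b) * C ^ b with hR
  have hR0 : 0 ≤ R := by rw [hR]; positivity
  apply le_of_mul_le_mul_right _ (show (0 : ℝ) < (k : ℝ) ^ (2 * N + (comps S).card) by positivity)
  have f1 : (vset S).card + 2 * (Ie S φ).card + b + (2 * N + (comps S).card) =
      (N + X + b) + (2 * (vset S).card + 2 * (Ie S φ).card) := by omega
  have f2 : 2 * Y + (2 * (vset S).card + 2 * (Ie S φ).card) ≤ 2 * N + (comps S).card := by
    omega
  calc W * (k : ℝ) ^ ((vset S).card + 2 * (Ie S φ).card + b) *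
        (k : ℝ) ^ (2 * N + (comps S).card)
      = W * (k : ℝ) ^ (N + X + b) * (k : ℝ) ^ (2 * (vset S).card + 2 * (Ie S φ).card) := by
        rw [mul_assoc, ← pow_add, f1, pow_add (k : ℝ) (N + X + b), ← mul_assoc]
    _ ≤ R * (k : ℝ) ^ (2 * Y) * (k : ℝ) ^ (2 * (vset S).card + 2 * (Ie S φ).card) :=
        mul_le_mul_of_nonneg_right h1 (by positivity)
    _ = R * (k : ℝ) ^ (2 * Y + (2 * (vset S).card + 2 * (Ie S φ).card)) := by
        rw [mul_assoc, ← pow_add]
    _ ≤ R * (k : ℝ) ^ (2 * N + (comps S).card) :=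
        mul_le_mul_of_nonneg_left (pow_le_pow_right₀ hk1 f2) hR0

/-- At least one step is made when all components are touched. -/
lemma Fam.pos {D : ℕ} {S : Finset (Pair n)} {Q : Finset (Finset (Pair n))} (h : Fam S Q)
    (hne : S.Nonempty) {φ : Pair n → St n} (hok : ∀ G ∈ Q, Ok k D G φ)
    (hT : ∀ c ∈ comps S, Tch (comps S) φ c) : 1 ≤ ∑ G ∈ Q, bG G φ := by
  by_contra hcon
  have h0 : ∑ G ∈ Q, bG G φ = 0 := by omega
  rw [sum_eq_zero_iff] at h0
  have hin : ∀ e ∈ Tset S φ, hs (φ e) ⊆ S := by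
    intro e he
    obtain ⟨G, hG, heG⟩ := h.mem he
    have h1 := h0 G hG
    unfold bG bb at h1
    have h2 : (Ab G φ).card = 0 := by omega
    have h3 : act G (LT (Tset G φ \ Ab G φ) φ) = 0 := by omega
    have h4 : Ab G φ = ∅ := card_eq_zero.1 h2
    have h5 := act_zero_subset _ G h3 (e, hs (φ e))
      (mem_LT.2 ⟨e, by rw [h4, sdiff_empty]; exact heG, rfl⟩)
    exact h5.trans (h.sub hG)
  have hUs : ∀ c ∈ comps S, Us c φ ⊆ vset c := by
    intro c hc w hw
    rw [Us, mem_union, mem_biUnion] at hw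
    rcases hw with hw | ⟨e, he, hw⟩
    · exact hw
    · obtain ⟨f, hf, hwf⟩ := mem_vset.1 hw
      have heS : e ∈ S := comps_subset hc he
      have heT : e ∈ Tset S φ := mem_tset_of heS hf
      obtain ⟨h1, h2⟩ := h.gad hok heT
      have hfS : f ∈ S := hin e heT hf
      -- all of the gadget lies in the component of `e`
      have h3 : Conn S e.1.1 f.1.1 :=
        (h1.2 _ (fst_mem_vset h2) _ (fst_mem_vset hf)).mono (hin e heT)
      set c0 := S.filter (fun f => Conn S e.1.1 f.1.1) with hc0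
      have hc0m : c0 ∈ comps S := mem_image_of_mem _ heS
      have he0 : e ∈ c0 := mem_filter.2 ⟨heS, Conn.refl _ _⟩
      have hcc : c = c0 := comps_eq_of_mem hc hc0m (fst_mem_vset he) (fst_mem_vset he0)
      rw [hcc]
      exact mem_vset.2 ⟨f, mem_filter.2 ⟨hfS, h3⟩, hwf⟩
  obtain ⟨e, he⟩ := hne
  obtain ⟨c, hc, -⟩ := exists_comps he
  obtain ⟨c', hc', hne', hd⟩ := hT c hc
  exact hd ((comps_disjoint hc hc' hne'.symm).mono (hUs c hc) (hUs c' hc'))

/-- The sum over the configurations of one family. -/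
lemma Fam.total {D : ℕ} (hD1 : 1 ≤ D) (hn : n ≤ k ^ 2) (g : Finset (Pair n) → ℝ) (C : ℝ)
    (hC : 1 ≤ C) (hk : 2 * (Yc D * C) ≤ k)
    (hg1 : ∀ H ∈ gd n D, Blk H → |g H| * (k : ℝ) ^ (vset H).card ≤ 8 ^ H.card * k)
    (hg2 : ∀ H ∈ gd n D, ¬ Blk H → |g H| * (k : ℝ) ^ (vset H).card ≤ C)
    {S : Finset (Pair n)} (hSD : S.card ≤ D) (hne : S.Nonempty)
    {Q : Finset (Finset (Pair n))} (h : Fam S Q) :
    ∑ φ ∈ (Phi S).filter (fun φ => ∀ c ∈ comps S, Tch (comps S) φ c),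
      ∏ G ∈ Q, |Wc k D g G φ| ≤ 6 * Yc D * (Yc D * C / k) * (1 / (k : ℝ) ^ (vset S).card) := by
  have hk0 := kpos (k := k)
  have hC0 : (0 : ℝ) ≤ C := by linarith
  set T := (Phi S).filter (fun φ => ∀ c ∈ comps S, Tch (comps S) φ c) with hTd
  rw [← sum_filter_of_ne (s := T) (p := fun φ => ∀ G ∈ Q, Wt k D G φ ≠ 0)]
  · have hF : ∀ φ ∈ T.filter (fun φ => ∀ G ∈ Q, Wt k D G φ ≠ 0),
        φ ∈ Phi S ∧ (∀ c ∈ comps S, Tch (comps S) φ c) ∧ ∀ G ∈ Q, Ok k D G φ := by
      intro φ hφ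
      obtain ⟨h1, h2⟩ := mem_filter.1 hφ
      obtain ⟨h3, h4⟩ := mem_filter.1 h1
      exact ⟨h3, h4, fun G hG => ok_of_Wt_ne_zero (h2 G hG)⟩
    have h1 := sum_bound (k := k) hD1 hn hSD C hC hk
      (T.filter (fun φ => ∀ G ∈ Q, Wt k D G φ ≠ 0))
      (fun φ => ∑ G ∈ Q, bG G φ) 1 (fun φ => ∏ G ∈ Q, |Wc k D g G φ|)
      (1 / (k : ℝ) ^ (vset S).card) (by positivity) ?_ ?_ ?_ ?_ ?_
    · rw [pow_one] at h1
      exact h1
    · intro φ hφ
      obtain ⟨-, h4, h5⟩ := hF φ hφ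
      have h6 := h.bound g C hC hg1 hg2 h5 h4
      rw [add_assoc, pow_add] at h6
      have h7 : (8 : ℝ) ^ (S.card + 2 * D * ∑ G ∈ Q, bG G φ) ≤
          8 ^ (D * (2 * (∑ G ∈ Q, bG G φ) + 1)) := by
        apply pow_le_pow_right₀ (by norm_num)
        nlinarith
      show (∏ G ∈ Q, |Wc k D g G φ|) * (k : ℝ) ^ (2 * (Ie S φ).card + ∑ G ∈ Q, bG G φ) ≤ _
      rw [mul_one_div, le_div_iff₀ (by positivity)]
      calc (∏ G ∈ Q, |Wc k D g G φ|) * (k : ℝ) ^ (2 * (Ie S φ).card + ∑ G ∈ Q, bG G φ) *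
            (k : ℝ) ^ (vset S).card
          = (∏ G ∈ Q, |Wc k D g G φ|) * ((k : ℝ) ^ (vset S).card *
              (k : ℝ) ^ (2 * (Ie S φ).card + ∑ G ∈ Q, bG G φ)) := by ring
        _ ≤ 8 ^ (S.card + 2 * D * ∑ G ∈ Q, bG G φ) * C ^ (∑ G ∈ Q, bG G φ) := h6
        _ ≤ _ := mul_le_mul_of_nonneg_right h7 (by positivity)
    · intro φ hφ
      obtain ⟨-, h4, h5⟩ := hF φ hφ
      exact ⟨h.pos hne h5 h4, (h.sum_le φ).trans hSD⟩
    · intro φ hφ e he
      obtain ⟨-, -, h5⟩ := hF φ hφ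
      exact (h.gad h5 he).2
    · intro φ hφ
      obtain ⟨-, -, h5⟩ := hF φ hφ
      refine (h.size h5).trans ?_
      show S.card + 2 * D * ∑ G ∈ Q, bG G φ ≤ D * (2 * (∑ G ∈ Q, bG G φ) + 1)
      nlinarith
    · intro φ hφ φ' hφ' hr
      obtain ⟨h3, -, h5⟩ := hF φ hφ
      obtain ⟨h3', -, h5'⟩ := hF φ' hφ'
      funext e
      by_cases he : e ∈ S
      · obtain ⟨G, hG, heG⟩ := h.ex he
        exact eq_of_rsp (h5 G hG).fin_eq (h5' G hG).fin_eq
          (fun f hf => hr f (h.sub hG hf)) e heG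
      · rw [mem_Phi.1 h3 e he, mem_Phi.1 h3' e he]
  · intro φ _ hne0 G hG
    rw [prod_ne_zero_iff] at hne0
    have h1 := hne0 G hG
    rw [abs_ne_zero, Wc] at h1
    exact right_ne_zero_of_mul h1

lemma sdiff_comps {S : Finset (Pair n)} {P : Finset (Finset (Pair n))} (hP : P ⊆ comps S) :
    S \ P.biUnion id = (comps S \ P).biUnion id := by
  ext e
  rw [mem_sdiff, mem_biUnion, mem_biUnion]
  constructor
  · rintro ⟨h1, h2⟩
    obtain ⟨c, hc, hec⟩ := exists_comps h1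
    exact ⟨c, mem_sdiff.2 ⟨hc, fun h => h2 ⟨c, h, hec⟩⟩, hec⟩
  · rintro ⟨c, hc, hec⟩
    obtain ⟨h1, h2⟩ := mem_sdiff.1 hc
    refine ⟨comps_subset h1 hec, ?_⟩
    rintro ⟨c', hc', hec'⟩
    apply h2
    rw [comps_eq_of_mem h1 (hP hc') (fst_mem_vset hec) (fst_mem_vset hec')]
    exact hc'

lemma sdiff_notMem {S : Finset (Pair n)} {P : Finset (Finset (Pair n))} (hP : P ⊆ comps S) :
    S \ P.biUnion id ∉ P := by
  intro h
  obtain ⟨e, he⟩ := (comps_cn (hP h)).1
  exact (mem_sdiff.1 he).2 (mem_biUnion.2 ⟨_, h, he⟩)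

/-- The groups of a set of components. -/
lemma fam_of {S : Finset (Pair n)} {P : Finset (Finset (Pair n))} (hP : P ⊆ comps S) :
    Fam S (insert (S \ P.biUnion id) P) := by
  have hn0 := sdiff_notMem hP
  have hsd := sdiff_comps hP
  have hPP : P ⊆ comps S := hP
  have hd0 : ∀ c ∈ P, Disjoint (S \ P.biUnion id) c := by
    intro c hc
    apply Disjoint.mono_right _ sdiff_disjoint
    exact subset_biUnion_of_mem id hc
  refine ⟨?_, ?_, ?_⟩
  · intro G hG G' hG' hne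
    rcases mem_insert.1 hG with rfl | hG
    · rcases mem_insert.1 hG' with rfl | hG'
      · exact absurd rfl hne
      · exact hd0 G' hG'
    · rcases mem_insert.1 hG' with rfl | hG'
      · exact (hd0 G hG).symm
      · exact disjoint_of_vset (comps_disjoint (hP hG) (hP hG') hne)
  · rw [biUnion_insert, id]
    apply sdiff_union_of_subset
    rw [← comps_union S]
    exact biUnion_subset_biUnion_of_subset_left _ hP
  · rw [sum_insert hn0, card_insert_of_notMem hn0]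
    have h1 := nc_eq S
    have h2 : ncl S (vset S) = (comps S).card := by
      have := ncl_comps (S := S) (P := comps S) Subset.rfl
      rwa [comps_union] at this
    have h3 := nc_eq (S \ P.biUnion id)
    have h4 : ncl (S \ P.biUnion id) (vset (S \ P.biUnion id)) = (comps S \ P).card := by
      rw [hsd]
      exact ncl_comps sdiff_subset
    have h5 : (vset S).card = ∑ c ∈ comps S, (vset c).card := by
      have := card_vset_comps (S := S) (P := comps S) Subset.rfl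
      rwa [comps_union] at this
    have h6 : (vset (S \ P.biUnion id)).card = ∑ c ∈ comps S \ P, (vset c).card := by
      rw [hsd]
      exact card_vset_comps sdiff_subset
    have h7 : ∑ c ∈ comps S \ P, (vset c).card + ∑ c ∈ P, (vset c).card =
        ∑ c ∈ comps S, (vset c).card := sum_sdiff hP
    have h8 : ∑ c ∈ P, nc c + ∑ c ∈ P, (vset c).card = P.card * (n + 1) := by
      rw [← sum_add_distrib, ← smul_eq_mul, ← sum_const]
      exact sum_congr rfl (fun c hc => nc_cn (comps_cn (hP hc)))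
    have h9 : (comps S \ P).card + P.card = (comps S).card := card_sdiff_add_card_eq_card hP
    rw [mul_add, mul_one] at h8
    rw [add_mul, one_mul]
    omega

/-- Bound for the coefficients of disconnected graphs.
Proof. Put `𝒞 = comps S`; it has at least two elements. By `ac_touched`
`ac S = ∑ φ (all classes touched), ∑ P ⊆ 𝒞, (-1)^|P| Wc (S \ ⋃ P) φ * ∏ c ∈ P, Wc c φ`.
Exchange the sums; there are at most `2 ^ D` sets `P`; fix `P`. The groups are `S0 = S \ ⋃ P` and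
the
`c ∈ P`. Let `F` be the set of the `φ ∈ Phi S` with all classes touched and nonzero product, so each
group `S'` satisfies `Ok k D S' φ` (`ok_of_Wt_ne_zero`). Apply `sum_bound` (Bnd.lean) with `b0 = 1`,
`E = 1 / k ^ (vset S).card`, `f φ = |product|` and
`b φ = bb S0 (Ab S0 φ) φ + ∑ c ∈ P, bb c (Ab c φ) φ` (Expo.lean). Needed:
(1) each group: `|Wc k D g S' φ| ≤ (∏ e ∈ Tset S' φ, |g (hs (φ e))|) * pm k (Mset S' φ)`
    (`abs_Wt_le`), and `GB` with `x e = |g (hs (φ e))|`, `A = Ab S' φ`;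
(2) multiply over the groups. With `q = P.card`: `nc_union` gives
    `nc (Ue S0 φ) + ∑ c ∈ P, nc (Ue c φ) ≤ q * n + nc (Ue S φ)`
    (induction on `P`; `Ue S φ` is the union of the `Ue S' φ` since `Tset S φ` is the union of the
    `Tset S' φ`), and `nc S0 + ∑ c ∈ P, nc c = q * n + nc S` (`nc_eq`, `ncl_comps`,
    `card_vset_comps`, `nc_cn`; `S0 = (comps S \ P).biUnion id`, possibly empty). Therefore
    `∏ groups * k ^ (n + nc S + b φ) ≤ 8 ^ (S.card + 2 D b) * C ^ b * k ^ (2 nc (Ue S φ))`;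
(3) `nc_eq` for `S` and for `Ue S φ`, `ncl S (vset S) = (comps S).card` and `two_ncl_le`:
    `2 * ncl (Ue S φ) (vset (Ue S φ)) ≤ (comps S).card` (every class of `Ue S φ` meets `vset S`,
    and every component of `S` is joined to another one in `Ue S φ`, since it is touched) give,
    with `card_vset_Ue`,
    `∏ groups * k ^ ((vset S).card + 2 (Ie S φ).card + b) ≤ 8 ^ (S.card + 2 D b) * C ^ b`
    (compare the proof of `GB_conn`);
(4) `1 ≤ b φ`: otherwise all `Ab` are empty and all `act` vanish, so `act_zero_subset` gives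
    `hs (φ e) ⊆ S'` for `e` in the group `S'`; being connected and containing `e` it lies in the
    component of `e`, so no component is touched; contradiction. `b φ ≤ D`: `bb_le`, the groups are
    disjoint;
(5) `∑ e ∈ Tset S φ, (hs (φ e)).card ≤ S.card + 2 D b ≤ D (2 b + 1)`: `sum_gadget_card`;
(6) injectivity: `eq_of_rsp` (Cnt.lean) on every group and `mem_Phi`. -/
theorem disc_bound {D : ℕ} (hD1 : 1 ≤ D) (hn : n ≤ k ^ 2) (g : Finset (Pair n) → ℝ) (C : ℝ)
    (hC : 1 ≤ C) (hk : 2 * (Yc D * C) ≤ k)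
    (hg1 : ∀ H ∈ gd n D, Blk H → |g H| * (k : ℝ) ^ (vset H).card ≤ 8 ^ H.card * k)
    (hg2 : ∀ H ∈ gd n D, ¬ Blk H → |g H| * (k : ℝ) ^ (vset H).card ≤ C)
    (h0 : ∀ c ∈ gd n D, ac k D g c = 0)
    {S : Finset (Pair n)} (hS : S ∈ TD n D) (hnc : ¬ Cn S) :
    |ac k D g S| * (k : ℝ) ^ (vset S).card ≤ 2 ^ D * (6 * Yc D * (Yc D * C / k)) := by
  have hk0 := kpos (k := k)
  have _ := hnc
  have hC0 : (0 : ℝ) ≤ C := by linarith
  have hY1 := Yc_ge_one hD1
  obtain ⟨hS1, hSD⟩ := (mem_filter.1 hS).2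
  have hne : S.Nonempty := card_pos.1 (by omega)
  have hcne : (comps S).Nonempty := by
    obtain ⟨e, he⟩ := hne
    obtain ⟨c, hc, -⟩ := exists_comps he
    exact ⟨c, hc⟩
  have hcard : (comps S).card ≤ D := card_image_le.trans hSD
  have hac := ac_touched (k := k) D g S (comps S) hcne
    (fun c hc c' hc' hcc => disjoint_of_vset (comps_disjoint hc hc' hcc)) (comps_union S)
    (fun c hc => h0 c (mem_gd.2 ⟨comps_cn hc, (card_le_card (comps_subset hc)).trans hSD⟩))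
  set T := (Phi S).filter (fun φ => ∀ c ∈ comps S, Tch (comps S) φ c) with hTd
  set Bd := 6 * Yc D * (Yc D * C / k) * (1 / (k : ℝ) ^ (vset S).card) with hBd
  have hBd0 : 0 ≤ Bd := by
    rw [hBd]
    positivity
  have h1 : |ac k D g S| ≤ ∑ P ∈ (comps S).powerset, Bd := by
    rw [hac, sum_comm]
    refine (abs_sum_le_sum_abs _ _).trans ?_
    apply sum_le_sum
    intro P hP
    rw [mem_powerset] at hP
    refine (abs_sum_le_sum_abs _ _).trans ?_
    refine le_trans (le_of_eq ?_) (Fam.total hD1 hn g C hC hk hg1 hg2 hSD hne (fam_of hP))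
    apply sum_congr rfl
    intro φ _
    rw [prod_insert (sdiff_notMem hP), abs_mul, abs_mul, abs_prod, abs_pow, abs_neg, abs_one,
      one_pow, one_mul]
  rw [sum_const, card_powerset, nsmul_eq_mul] at h1
  have h2 : ((2 ^ (comps S).card : ℕ) : ℝ) ≤ 2 ^ D := by
    push_cast
    exact pow_le_pow_right₀ (by norm_num) hcard
  calc |ac k D g S| * (k : ℝ) ^ (vset S).card
      ≤ (2 ^ D * Bd) * (k : ℝ) ^ (vset S).card := by
        apply mul_le_mul_of_nonneg_right _ (by positivity)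
        exact h1.trans (mul_le_mul_of_nonneg_right h2 hBd0)
    _ = _ := by
        rw [hBd]
        field_simp

end Pool.Agent.ColorLog
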