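import Pool.Agent.ColorLog.Defs
import Pool.Agent.ColorRef.SumBound2

namespace Pool.Agent.ColorLog

open Finset BigOperators
open scoped Classical
open Pool.Agent.ColorRef

set_option linter.unusedSectionVars false

variable {n : ℕ} {k : ℕ} [NeZero k]

/-- Bound for the number of graphs with at most `D` edges inside `m` vertices. -/
def Ng (D m : ℕ) : ℕ := (m ^ 2 + 1) ^ D

lemma Ng_mono {D m m' : ℕ} (h : m ≤ m') : Ng D m ≤ Ng D m' := by
  unfold Ng
  gcongr

lemma one_le_Ng (D m : ℕ) : 1 ≤ Ng D m := Nat.one_le_pow _ _ (by positivity)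

lemma inside_mono {X Y : Finset (Fin n)} (h : X ⊆ Y) : inside X ⊆ inside Y := by
  intro e he
  rw [inside, mem_filter] at he ⊢
  exact ⟨he.1, h he.2.1, h he.2.2⟩

lemma card_small_sub_le {α : Type*} [DecidableEq α] (w : ℕ) (W : Finset α) :
    (W.powerset.filter (fun X => X.card ≤ w)).card ≤ (W.card + 1) ^ w := by
  have h1 : W.powerset.filter (fun X => X.card ≤ w) ⊆
      (univ : Finset (Fin w → Option {a // a ∈ W})).image
        (fun f => univ.biUnion (fun i => ((f i).map (fun a => a.1)).toFinset)) := by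
    intro X hX
    rw [mem_filter, mem_powerset] at hX
    obtain ⟨hXW, hXw⟩ := hX
    rw [mem_image]
    let eq := X.equivFin
    refine ⟨fun i => if hi : i.1 < X.card then
      some ⟨(eq.symm ⟨i.1, hi⟩).1, hXW (eq.symm ⟨i.1, hi⟩).2⟩ else none, mem_univ _, ?_⟩
    ext a
    rw [mem_biUnion]
    constructor
    · rintro ⟨i, -, hi⟩
      by_cases h : i.1 < X.card
      · simp only [h, dite_true, Option.map_some, Option.mem_toFinset, Option.mem_def,
          Option.some.injEq] at hi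
        rw [← hi]
        exact (eq.symm ⟨i.1, h⟩).2
      · simp only [h, dite_false, Option.map_none, Option.mem_toFinset, Option.mem_def] at hi
        exact absurd hi (by simp)
    · intro ha
      have hlt : (eq ⟨a, ha⟩).1 < X.card := (eq ⟨a, ha⟩).2
      refine ⟨⟨(eq ⟨a, ha⟩).1, lt_of_lt_of_le hlt hXw⟩, mem_univ _, ?_⟩
      simp only [hlt, dite_true, Option.map_some, Option.mem_toFinset, Option.mem_def,
        Option.some.injEq]
      have : (⟨(eq ⟨a, ha⟩).1, hlt⟩ : Fin X.card) = eq ⟨a, ha⟩ := Fin.ext rfl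
      rw [this, Equiv.symm_apply_apply]
  refine (card_le_card h1).trans (card_image_le.trans ?_)
  rw [card_univ, Fintype.card_fun, Fintype.card_option, Fintype.card_coe, Fintype.card_fin]

lemma card_gd_inside_le (D : ℕ) (W : Finset (Fin n)) :
    ((gd n D).filter (fun H => vset H ⊆ W)).card ≤ Ng D W.card := by
  have h1 : (gd n D).filter (fun H => vset H ⊆ W) ⊆
      (inside W).powerset.filter (fun X => X.card ≤ D) := by
    intro H hH
    rw [mem_filter, mem_gd] at hH
    rw [mem_filter, mem_powerset]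
    exact ⟨(subset_inside H).trans (inside_mono hH.2), hH.1.2⟩
  refine (card_le_card h1).trans ((card_small_sub_le D _).trans ?_)
  unfold Ng
  have := card_inside_le W
  gcongr

/-- Moment bound for the response field. -/
theorem moment_fld (D : ℕ) (g : Finset (Pair n) → ℝ) (C : ℝ) (hC : 1 ≤ C)
    (hg : ∀ H ∈ gd n D, |g H| * (k : ℝ) ^ (vset H).card ≤ C * k)
    (hn : n ≤ k ^ 2) (σ : Fin n → ZMod k)
    (R : Finset (Pair n)) (e : Pair n) (p : ℕ) :
    (𝔼 x : Pair n → Bool, (fld D g σ R x e) ^ p) * (k : ℝ) ^ p ≤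
      3 * (C * Ng D (p * (2 * D) + 2)) ^ p := by
  have hk0 := kpos (k := k)
  have hC0 : 0 ≤ C := by linarith
  let c : Finset (Pair n) → ℝ := fun H => if (e ∈ H ∧ H ∩ R = {e} ∧ Rain σ H) then g H else 0
  have hbf : ∀ x, fld D g σ R x e = ∑ H ∈ gd n D, c H * chi (H.erase e) x := by
    intro x
    rw [fld]
    apply sum_congr rfl
    intro H _
    simp only [c]
    split_ifs <;> simp
  have hexp : ∀ x, (fld D g σ R x e) ^ p =
      ∑ h ∈ Fintype.piFinset (fun _ : Fin p => gd n D),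
        (∏ i, c (h i)) * ∏ i, chi ((h i).erase e) x := by
    intro x
    rw [hbf]
    have h1 : (∑ H ∈ gd n D, c H * chi (H.erase e) x) ^ p =
        ∏ _i : Fin p, ∑ H ∈ gd n D, c H * chi (H.erase e) x := by
      rw [prod_const, card_univ, Fintype.card_fin]
    rw [h1, prod_univ_sum]
    apply sum_congr rfl
    intro h _
    rw [prod_mul_distrib]
  simp only [hexp]
  rw [expect_sum_comm, sum_mul]
  simp only [← mul_expect]
  have hbound : ∀ h ∈ Fintype.piFinset (fun _ : Fin p => gd n D),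
      ((∏ i, c (h i)) * 𝔼 x : Pair n → Bool, ∏ i, chi ((h i).erase e) x) * (k : ℝ) ^ p ≤
      C ^ p * (1 / (k : ℝ) ^ 2) ^ (Jset e h).card := by
    intro h hh
    rw [Fintype.mem_piFinset] at hh
    by_cases hz : (∏ i, c (h i)) * 𝔼 x : Pair n → Bool, ∏ i, chi ((h i).erase e) x = 0
    · rw [hz, zero_mul]; positivity
    · have hc : ∀ i, c (h i) ≠ 0 := by
        have := left_ne_zero_of_mul hz
        rw [prod_ne_zero_iff] at this
        exact fun i => this i (mem_univ _)
      have he : ∀ i, e ∈ h i := by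
        intro i
        by_contra hne
        apply hc i
        simp only [c]
        rw [if_neg]
        exact fun h => hne h.1
      have hcg : ∀ i, |c (h i)| * (k : ℝ) ^ (vset (h i)).card ≤ C * k := by
        intro i
        simp only [c]
        split_ifs
        · exact hg _ (hh i)
        · rw [abs_zero, zero_mul]; positivity
      have h2 := sum_vset_ge he (right_ne_zero_of_mul hz)
      have h3 : (∏ i, |c (h i)|) * (k : ℝ) ^ (∑ i, (vset (h i)).card) ≤ (C * k) ^ p := by
        rw [← prod_pow_eq_pow_sum, ← prod_mul_distrib]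
        calc ∏ i, |c (h i)| * (k : ℝ) ^ (vset (h i)).card ≤ ∏ _i : Fin p, (C * k) :=
              prod_le_prod (fun i _ => by positivity) (fun i _ => hcg i)
          _ = (C * k) ^ p := by rw [prod_const, card_univ, Fintype.card_fin]
      have hE : |𝔼 x : Pair n → Bool, ∏ i, chi ((h i).erase e) x| ≤ 1 := by
        refine (abs_expect_le _ _).trans ?_
        have : ∀ x ∈ (univ : Finset (Pair n → Bool)), |∏ i, chi ((h i).erase e) x| ≤ 1 := by
          intro x _
          rw [abs_prod]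
          exact le_of_eq (prod_eq_one (fun i _ => abs_chi _ _))
        calc 𝔼 x : Pair n → Bool, |∏ i, chi ((h i).erase e) x| ≤ 𝔼 x : Pair n → Bool, (1:ℝ) :=
              expect_le_expect this
          _ = 1 := by simp
      have hk1 : (1 : ℝ) ≤ k := by
        have := NeZero.pos k
        exact_mod_cast this
      have h4 : (∏ i, |c (h i)|) * (k : ℝ) ^ (2 * p + 2 * (Jset e h).card) ≤ (C * k) ^ p := by
        refine le_trans ?_ h3
        gcongr
      have h5 : (∏ i, |c (h i)|) * (k : ℝ) ^ p * (k : ℝ) ^ (2 * (Jset e h).card) ≤ C ^ p := by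
        have h6 : ((∏ i, |c (h i)|) * (k : ℝ) ^ p * (k : ℝ) ^ (2 * (Jset e h).card)) *
            (k : ℝ) ^ p ≤ C ^ p * (k : ℝ) ^ p := by
          calc ((∏ i, |c (h i)|) * (k : ℝ) ^ p * (k : ℝ) ^ (2 * (Jset e h).card)) * (k : ℝ) ^ p
              = (∏ i, |c (h i)|) * (k : ℝ) ^ (2 * p + 2 * (Jset e h).card) := by
                rw [pow_add, two_mul, pow_add]; ring
            _ ≤ (C * k) ^ p := h4
            _ = _ := by rw [mul_pow]
        exact le_of_mul_le_mul_right h6 (by positivity)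
      rw [one_div, inv_pow, ← pow_mul, ← div_eq_mul_inv, le_div_iff₀ (by positivity)]
      calc ((∏ i, c (h i)) * 𝔼 x : Pair n → Bool, ∏ i, chi ((h i).erase e) x) * (k : ℝ) ^ p *
            (k : ℝ) ^ (2 * (Jset e h).card)
          ≤ |(∏ i, c (h i)) * 𝔼 x : Pair n → Bool, ∏ i, chi ((h i).erase e) x| * (k : ℝ) ^ p *
            (k : ℝ) ^ (2 * (Jset e h).card) := by
            gcongr
            exact le_abs_self _
        _ = (∏ i, |c (h i)|) * |𝔼 x : Pair n → Bool, ∏ i, chi ((h i).erase e) x| * (k : ℝ) ^ p *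
            (k : ℝ) ^ (2 * (Jset e h).card) := by rw [abs_mul, abs_prod]
        _ ≤ (∏ i, |c (h i)|) * 1 * (k : ℝ) ^ p * (k : ℝ) ^ (2 * (Jset e h).card) := by
            have : 0 ≤ ∏ i, |c (h i)| := prod_nonneg (fun _ _ => abs_nonneg _)
            gcongr
        _ ≤ C ^ p := by rw [mul_one]; exact h5
  have hcount : ∀ J : Finset (Fin n),
      ((Fintype.piFinset (fun _ : Fin p => gd n D)).filter (fun h => Jset e h = J)).card ≤
      (Ng D (p * (2 * D) + 2)) ^ p := by
    intro J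
    by_cases hJ : J.card ≤ p * (2 * D)
    · have h1 : (Fintype.piFinset (fun _ : Fin p => gd n D)).filter (fun h => Jset e h = J) ⊆
          Fintype.piFinset (fun _ : Fin p =>
            (gd n D).filter (fun H => vset H ⊆ J ∪ {e.1.1, e.1.2})) := by
        intro h hh
        rw [mem_filter, Fintype.mem_piFinset] at hh
        rw [Fintype.mem_piFinset]
        intro i
        rw [mem_filter]
        refine ⟨hh.1 i, ?_⟩
        intro v hv
        rw [mem_union]
        by_cases hve : v ∈ ({e.1.1, e.1.2} : Finset (Fin n))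
        · exact Or.inr hve
        · left
          rw [← hh.2, Jset, mem_sdiff, mem_biUnion]
          exact ⟨⟨i, mem_univ _, hv⟩, hve⟩
      refine (card_le_card h1).trans ?_
      rw [Fintype.card_piFinset, prod_const, card_univ, Fintype.card_fin]
      apply Nat.pow_le_pow_left
      refine (card_gd_inside_le D _).trans (Ng_mono ?_)
      refine (card_union_le _ _).trans ?_
      have := card_le_two (a := e.1.1) (b := e.1.2)
      omega
    · have h1 : (Fintype.piFinset (fun _ : Fin p => gd n D)).filter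
          (fun h => Jset e h = J) = ∅ := by
        rw [filter_eq_empty_iff]
        intro h hh hJ'
        apply hJ
        rw [Fintype.mem_piFinset] at hh
        rw [← hJ', Jset]
        refine (card_le_card sdiff_subset).trans ?_
        refine (card_biUnion_le_card_mul _ _ (2 * D) ?_).trans ?_
        · intro i _
          exact (card_vset_le _).trans (Nat.mul_le_mul_left _ (mem_gd.1 (hh i)).2)
        · rw [card_univ, Fintype.card_fin]
      rw [h1]; simp
  calc ∑ h ∈ Fintype.piFinset (fun _ : Fin p => gd n D),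
        ((∏ i, c (h i)) * 𝔼 x : Pair n → Bool, ∏ i, chi ((h i).erase e) x) * (k : ℝ) ^ p
      ≤ ∑ h ∈ Fintype.piFinset (fun _ : Fin p => gd n D),
        C ^ p * (1 / (k : ℝ) ^ 2) ^ (Jset e h).card := sum_le_sum hbound
    _ = ∑ J : Finset (Fin n),
        ∑ h ∈ (Fintype.piFinset (fun _ : Fin p => gd n D)).filter (fun h => Jset e h = J),
        C ^ p * (1 / (k : ℝ) ^ 2) ^ J.card := by
        rw [← sum_fiberwise_of_maps_to (s := Fintype.piFinset (fun _ : Fin p => gd n D))
          (t := (univ : Finset (Finset (Fin n)))) (g := fun h => Jset e h) (fun _ _ => mem_univ _)]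
        apply sum_congr rfl
        intro J _
        apply sum_congr rfl
        intro h hh
        rw [(mem_filter.1 hh).2]
    _ ≤ ∑ J : Finset (Fin n), ((Ng D (p * (2 * D) + 2) : ℕ) : ℝ) ^ p *
        (C ^ p * (1 / (k : ℝ) ^ 2) ^ J.card) := by
        apply sum_le_sum
        intro J _
        rw [sum_const, nsmul_eq_mul]
        apply mul_le_mul_of_nonneg_right _ (by positivity)
        exact_mod_cast hcount J
    _ = (((Ng D (p * (2 * D) + 2) : ℕ) : ℝ) ^ p * C ^ p) *
        ∑ J : Finset (Fin n), (1 / (k : ℝ) ^ 2) ^ J.card := by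
        rw [mul_sum]
        apply sum_congr rfl
        intro J _; ring
    _ ≤ (((Ng D (p * (2 * D) + 2) : ℕ) : ℝ) ^ p * C ^ p) * 3 := by
        apply mul_le_mul_of_nonneg_left (sum_extra_le hn) (by positivity)
    _ = 3 * (C * Ng D (p * (2 * D) + 2)) ^ p := by rw [mul_pow]; ring

/-- The good event. -/
def GoodL (D : ℕ) (g : Finset (Pair n) → ℝ) (σ : Fin n → ZMod k) (R : Finset (Pair n))
    (x : Pair n → Bool) : Prop :=
  ∀ e, |fld D g σ R x e| ≤ 1

variable (k) in
/-- Probability of the bad event. -/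
noncomputable def pbL (D : ℕ) (g : Finset (Pair n) → ℝ) : ℝ :=
  EE (k := k) (n := n) (fun σ R x => if GoodL D g σ R x then (0 : ℝ) else 1)

lemma pbL_nonneg (D : ℕ) (g : Finset (Pair n) → ℝ) : 0 ≤ pbL k D g := by
  rw [pbL]
  have := EE_le (k := k) (n := n) (g := fun _ _ _ => 0)
    (g' := fun σ R x => if GoodL D g σ R x then (0 : ℝ) else 1)
    (fun σ R x => by split_ifs <;> norm_num)
  rwa [EE_const] at this

/-- Markov bound for the bad event. -/
lemma pbL_le (D : ℕ) (g : Finset (Pair n) → ℝ) (C : ℝ) (hC : 1 ≤ C)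
    (hg : ∀ H ∈ gd n D, |g H| * (k : ℝ) ^ (vset H).card ≤ C * k)
    (hn : n ≤ k ^ 2) (q : ℕ) :
    pbL k D g * (k : ℝ) ^ (2 * q) ≤
      (n : ℝ) ^ 2 * (3 * (C * Ng D (2 * q * (2 * D) + 2)) ^ (2 * q)) := by
  have hk0 := kpos (k := k)
  have hC0 : 0 ≤ C := by linarith
  have h1 : pbL k D g ≤ EE (k := k) (n := n)
      (fun σ R x => ∑ e : Pair n, (fld D g σ R x e) ^ (2 * q)) := by
    rw [pbL]
    apply EE_le
    intro σ R x
    split_ifs with hgd
    · exact sum_nonneg (fun e _ => by rw [pow_mul]; positivity)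
    · unfold GoodL at hgd
      push Not at hgd
      obtain ⟨e, he⟩ := hgd
      have h2 : (1 : ℝ) ≤ (fld D g σ R x e) ^ (2 * q) := by
        rw [pow_mul, ← sq_abs, ← pow_mul]
        exact one_le_pow₀ he.le
      refine h2.trans ?_
      exact single_le_sum (f := fun e => (fld D g σ R x e) ^ (2 * q))
        (fun e _ => by rw [pow_mul]; positivity) (mem_univ e)
  have h3 : EE (k := k) (n := n) (fun σ R x => ∑ e : Pair n, (fld D g σ R x e) ^ (2 * q)) *
      (k : ℝ) ^ (2 * q) ≤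
      ∑ e : Pair n, (3 * (C * Ng D (2 * q * (2 * D) + 2)) ^ (2 * q)) := by
    rw [EE_sum, sum_mul]
    apply sum_le_sum
    intro e _
    have h4 : EE (k := k) (n := n) (fun σ R x => (fld D g σ R x e) ^ (2 * q)) *
        (k : ℝ) ^ (2 * q) =
        𝔼 σ : Fin n → ZMod k, 𝔼 R : Finset (Pair n),
          ((𝔼 x : Pair n → Bool, (fld D g σ R x e) ^ (2 * q)) * (k : ℝ) ^ (2 * q)) := by
      simp only [EE, expect_mul]
    rw [h4]
    calc 𝔼 σ : Fin n → ZMod k, 𝔼 R : Finset (Pair n),
          ((𝔼 x : Pair n → Bool, (fld D g σ R x e) ^ (2 * q)) * (k : ℝ) ^ (2 * q))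
        ≤ 𝔼 σ : Fin n → ZMod k, 𝔼 R : Finset (Pair n),
          (3 * (C * Ng D (2 * q * (2 * D) + 2)) ^ (2 * q)) :=
          expect_le_expect (fun σ _ => expect_le_expect (fun R _ =>
            moment_fld D g C hC hg hn σ R e (2 * q)))
      _ = _ := by simp
  rw [sum_const, nsmul_eq_mul, card_univ] at h3
  have h5 : (Fintype.card (Pair n) : ℝ) ≤ (n : ℝ) ^ 2 := by
    have h6 : Fintype.card (Pair n) ≤ n ^ 2 := by
      calc Fintype.card (Pair n) ≤ Fintype.card (Fin n × Fin n) :=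
            Fintype.card_le_of_injective _ Subtype.val_injective
        _ = n ^ 2 := by rw [Fintype.card_prod, Fintype.card_fin]; ring
    exact_mod_cast h6
  calc pbL k D g * (k : ℝ) ^ (2 * q)
      ≤ EE (k := k) (n := n) (fun σ R x => ∑ e : Pair n, (fld D g σ R x e) ^ (2 * q)) *
        (k : ℝ) ^ (2 * q) := by
        gcongr
    _ ≤ _ := h3
    _ ≤ _ := by gcongr

/-- A crude bound for the response field. -/
noncomputable def BmL (D : ℕ) (C : ℝ) (n : ℕ) : ℝ := C * Ng D n

lemma BmL_ge_one (D : ℕ) (C : ℝ) (hC : 1 ≤ C) (n : ℕ) : 1 ≤ BmL D C n := by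
  unfold BmL
  have h2 : (1 : ℝ) ≤ Ng D n := by exact_mod_cast one_le_Ng D n
  calc (1 : ℝ) = 1 * 1 := (one_mul 1).symm
    _ ≤ _ := mul_le_mul hC h2 (by norm_num) (by linarith)

lemma abs_fld_le (D : ℕ) (g : Finset (Pair n) → ℝ) (C : ℝ) (hC : 1 ≤ C)
    (hg : ∀ H ∈ gd n D, |g H| * (k : ℝ) ^ (vset H).card ≤ C * k)
    (σ : Fin n → ZMod k) (R : Finset (Pair n))
    (x : Pair n → Bool) (e : Pair n) : |fld D g σ R x e| ≤ BmL D C n := by
  have hk0 := kpos (k := k)
  have hk1 : (1 : ℝ) ≤ k := by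
    have := NeZero.pos k
    exact_mod_cast this
  have h1 : ∀ H ∈ gd n D, |if (e ∈ H ∧ H ∩ R = {e} ∧ Rain σ H) then
      g H * chi (H.erase e) x else 0| ≤ C := by
    intro H hH
    split_ifs with h
    · rw [abs_mul, abs_chi, mul_one]
      have h2 := hg H hH
      have h3 : 1 ≤ (vset H).card := by
        apply card_pos.2
        exact ⟨_, fst_mem_vset h.1⟩
      have h4 : |g H| * (k : ℝ) ^ 1 ≤ C * k := by
        refine le_trans ?_ h2
        gcongr
      rw [pow_one] at h4
      exact le_of_mul_le_mul_right h4 hk0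
    · rw [abs_zero]; linarith
  have h5 : (gd n D).card ≤ Ng D n := by
    have := card_gd_inside_le D (univ : Finset (Fin n))
    rw [card_univ, Fintype.card_fin] at this
    have h6 : (gd n D).filter (fun H => vset H ⊆ univ) = gd n D := by
      rw [filter_true_of_mem]
      intro H _
      exact subset_univ _
    rwa [h6] at this
  calc |fld D g σ R x e| ≤ ∑ H ∈ gd n D, |if (e ∈ H ∧ H ∩ R = {e} ∧ Rain σ H) then
      g H * chi (H.erase e) x else 0| := abs_sum_le_sum_abs _ _
    _ ≤ ∑ H ∈ gd n D, C := sum_le_sum h1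
    _ = C * (gd n D).card := by rw [sum_const, nsmul_eq_mul, mul_comm]
    _ ≤ BmL D C n := by
        unfold BmL
        have : ((gd n D).card : ℝ) ≤ Ng D n := by exact_mod_cast h5
        gcongr

lemma abs_mn_le (D : ℕ) (g : Finset (Pair n) → ℝ) (C : ℝ) (hC : 1 ≤ C)
    (hg : ∀ H ∈ gd n D, |g H| * (k : ℝ) ^ (vset H).card ≤ C * k)
    (σ : Fin n → ZMod k) (R : Finset (Pair n))
    (x : Pair n → Bool) (e : Pair n) : |mn D g σ R x e| ≤ BmL D C n := by
  have h1 := BmL_ge_one D C hC n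
  unfold mn
  split_ifs
  · simpa using h1
  · exact abs_fld_le D g C hC hg σ R x e
  · rw [abs_sg]; exact h1

/-- Duality bound. -/
theorem dualityL (D : ℕ) (g : Finset (Pair n) → ℝ) (C : ℝ) (hC : 1 ≤ C)
    (hg : ∀ H ∈ gd n D, |g H| * (k : ℝ) ^ (vset H).card ≤ C * k)
    (F : (Pair n → Bool) → ℝ)
    (hF : ∀ (σ : Fin n → ZMod k) (y : Pair n → Bool), (∀ e, Mono σ e → y e = false) → 1 ≤ F y)
    (hmean : 𝔼 y, F y = 0)
    (hdeg : ∀ S : Finset (Pair n), D < S.card → fh F S = 0) (hp : pbL k D g ≤ 1) :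
    (1 - pbL k D g) ^ 2 ≤ (𝔼 y, F y ^ 2) *
      (2 * ∑ S ∈ TD n D, ac k D g S ^ 2 +
        2 * (pbL k D g ^ 2 * BmL D C n ^ (2 * D) * (TD n D).card)) := by
  -- truncated coefficients
  let a : Finset (Pair n) → ℝ := fun S =>
    EE (k := k) (fun σ R x => (if GoodL D g σ R x then (1 : ℝ) else 0) * ∏ e ∈ S, mn D g σ R x e)
  have hB1 := BmL_ge_one D C hC n
  have h1 : 1 - pbL k D g ≤ ∑ S ∈ TD n D, fh F S * a S := by
    have h2 : 1 - pbL k D g ≤ EE (k := k) (n := n) (fun σ R x =>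
        (if GoodL D g σ R x then (1 : ℝ) else 0) * mle F (mn D g σ R x)) := by
      have h3 : 1 - pbL k D g = EE (k := k) (n := n) (fun σ R x =>
          1 - (if GoodL D g σ R x then (0 : ℝ) else 1)) := by
        rw [EE_sub, EE_const, pbL]
      rw [h3]
      apply EE_le
      intro σ R x
      by_cases hgd : GoodL D g σ R x
      · rw [if_pos hgd, if_pos hgd]
        have h4 := one_le_mle F σ (hF σ) (mn D g σ R x) ?_ ?_
        · linarith
        · intro e
          unfold mn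
          split_ifs
          · simp
          · exact hgd e
          · rw [abs_sg]
        · intro e he
          unfold mn
          rw [if_pos he]
      · rw [if_neg hgd, if_neg hgd]; simp
    refine h2.trans (le_of_eq ?_)
    have h5 : ∀ (σ : Fin n → ZMod k) (R : Finset (Pair n)) (x : Pair n → Bool),
        (if GoodL D g σ R x then (1 : ℝ) else 0) * mle F (mn D g σ R x) =
        ∑ S ∈ TD n D, fh F S * ((if GoodL D g σ R x then (1 : ℝ) else 0) *
          ∏ e ∈ S, mn D g σ R x e) := by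
      intro σ R x
      rw [mle_eq, mul_sum]
      have h6 : ∑ S ∈ TD n D, (if GoodL D g σ R x then (1 : ℝ) else 0) *
          (fh F S * ∏ e ∈ S, mn D g σ R x e) =
          ∑ S : Finset (Pair n), (if GoodL D g σ R x then (1 : ℝ) else 0) *
          (fh F S * ∏ e ∈ S, mn D g σ R x e) := by
        apply sum_subset (subset_univ _)
        intro S _ hS
        have h7 : fh F S = 0 := by
          by_cases hc : D < S.card
          · exact hdeg S hc
          · have : S = ∅ := by
              by_contra hne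
              apply hS
              rw [TD, mem_filter]
              refine ⟨mem_univ _, ?_, not_lt.1 hc⟩
              exact card_pos.2 (nonempty_iff_ne_empty.2 hne)
            rw [this, fh]
            simp only [chi_empty, mul_one]
            exact hmean
        rw [h7]; ring
      rw [← h6]
      apply sum_congr rfl
      intro S _; ring
    simp only [h5]
    rw [EE_sum]
    apply sum_congr rfl
    intro S _
    rw [EE_mul]
  have h2 : ∑ S ∈ TD n D, fh F S * a S = 𝔼 y, F y * ∑ S ∈ TD n D, a S * chi S y := by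
    have h3 : ∀ y : Pair n → Bool, F y * ∑ S ∈ TD n D, a S * chi S y =
        ∑ S ∈ TD n D, a S * (F y * chi S y) := by
      intro y
      rw [mul_sum]
      apply sum_congr rfl
      intro S _; ring
    simp only [h3]
    rw [expect_sum_comm]
    apply sum_congr rfl
    intro S _
    rw [← mul_expect, fh]; ring
  have h3 : 𝔼 y : Pair n → Bool, (∑ S ∈ TD n D, a S * chi S y) ^ 2 = ∑ S ∈ TD n D, a S ^ 2 := by
    have h4 : ∀ y : Pair n → Bool, (∑ S ∈ TD n D, a S * chi S y) ^ 2 =
        ∑ S ∈ TD n D, ∑ S' ∈ TD n D, (a S * a S') * chi (symmDiff S S') y := by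
      intro y
      rw [sq, sum_mul_sum]
      apply sum_congr rfl
      intro S _
      apply sum_congr rfl
      intro S' _
      rw [chi_symmDiff]; ring
    simp only [h4]
    rw [expect_sum_comm]
    apply sum_congr rfl
    intro S hS
    rw [expect_sum_comm]
    have h5 : ∀ S', 𝔼 y : Pair n → Bool, (a S * a S') * chi (symmDiff S S') y =
        if S' = S then a S ^ 2 else 0 := by
      intro S'
      rw [← mul_expect, expect_chi]
      by_cases h6 : S' = S
      · subst h6; simp [sq]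
      · rw [if_neg h6, if_neg, mul_zero]
        intro h7
        exact h6 (symmDiff_eq_bot.1 h7).symm
    simp only [h5]
    rw [sum_ite_eq' (TD n D) S (fun _ => a S ^ 2), if_pos hS]
  have hCS : (𝔼 y, F y * ∑ S ∈ TD n D, a S * chi S y) ^ 2 ≤
      (𝔼 y, F y ^ 2) * ∑ S ∈ TD n D, a S ^ 2 := by
    rw [← h3]
    exact expect_mul_sq_le_sq_mul_sq _ _ _
  have h4 : ∀ S ∈ TD n D, a S ^ 2 ≤ 2 * ac k D g S ^ 2 +
      2 * (pbL k D g ^ 2 * BmL D C n ^ (2 * D)) := by
    intro S hS
    let b : ℝ := EE (k := k) (n := n) (fun σ R x => (if GoodL D g σ R x then (0 : ℝ) else 1) *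
      ∏ e ∈ S, mn D g σ R x e)
    have h5 : a S = ac k D g S - b := by
      have h6 : ac k D g S = EE (k := k) (n := n) (fun σ R x => ∏ e ∈ S, mn D g σ R x e) := rfl
      rw [h6]
      simp only [a, b]
      rw [← EE_sub]
      congr 1
      funext σ R x
      split_ifs <;> ring
    have h6 : |b| ≤ pbL k D g * BmL D C n ^ D := by
      refine (abs_EE_le _).trans ?_
      rw [pbL]
      have h7 : EE (k := k) (n := n) (fun σ R x => if GoodL D g σ R x then (0 : ℝ) else 1) *
          BmL D C n ^ D = EE (k := k) (n := n)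
          (fun σ R x => BmL D C n ^ D * (if GoodL D g σ R x then (0 : ℝ) else 1)) := by
        rw [EE_mul]; ring
      rw [h7]
      apply EE_le
      intro σ R x
      split_ifs
      · simp
      · rw [one_mul, mul_one, abs_prod]
        calc ∏ e ∈ S, |mn D g σ R x e| ≤ ∏ _e ∈ S, BmL D C n :=
              prod_le_prod (fun _ _ => abs_nonneg _) (fun e _ => abs_mn_le D g C hC hg σ R x e)
          _ = BmL D C n ^ S.card := by rw [prod_const]
          _ ≤ BmL D C n ^ D := by
              apply pow_le_pow_right₀ hB1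
              exact (mem_filter.1 hS).2.2
    have h7 : b ^ 2 ≤ pbL k D g ^ 2 * BmL D C n ^ (2 * D) := by
      calc b ^ 2 = |b| ^ 2 := (sq_abs b).symm
        _ ≤ (pbL k D g * BmL D C n ^ D) ^ 2 := pow_le_pow_left₀ (abs_nonneg b) h6 2
        _ = _ := by rw [mul_pow, ← pow_mul, mul_comm D 2]
    rw [h5]
    nlinarith [sq_nonneg (ac k D g S + b)]
  have h5 : ∑ S ∈ TD n D, a S ^ 2 ≤ 2 * ∑ S ∈ TD n D, ac k D g S ^ 2 +
        2 * (pbL k D g ^ 2 * BmL D C n ^ (2 * D) * (TD n D).card) := by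
    calc ∑ S ∈ TD n D, a S ^ 2 ≤ ∑ S ∈ TD n D, (2 * ac k D g S ^ 2 +
          2 * (pbL k D g ^ 2 * BmL D C n ^ (2 * D))) := sum_le_sum h4
      _ = _ := by
          rw [sum_add_distrib, ← mul_sum, sum_const, nsmul_eq_mul]; ring
  have hnn : 0 ≤ 𝔼 y, F y ^ 2 := expect_nonneg (fun y _ => sq_nonneg _)
  calc (1 - pbL k D g) ^ 2 ≤ (∑ S ∈ TD n D, fh F S * a S) ^ 2 := by
        apply pow_le_pow_left₀ _ h1
        linarith
    _ = (𝔼 y, F y * ∑ S ∈ TD n D, a S * chi S y) ^ 2 := by rw [h2]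
    _ ≤ (𝔼 y, F y ^ 2) * ∑ S ∈ TD n D, a S ^ 2 := hCS
    _ ≤ _ := mul_le_mul_of_nonneg_left h5 hnn

lemma BmL_le (D : ℕ) (C : ℝ) (hn : 2 ≤ n) (hCn : C ≤ n) :
    BmL D C n ≤ (n : ℝ) ^ (3 * D + 1) := by
  have hnR : (2 : ℝ) ≤ n := by exact_mod_cast hn
  have h4 : (Ng D n : ℝ) ≤ (n : ℝ) ^ (3 * D) := by
    unfold Ng
    push_cast
    rw [pow_mul]
    gcongr
    nlinarith [sq_nonneg ((n : ℝ) - 2), mul_self_nonneg ((n : ℝ))]
  calc BmL D C n = C * Ng D n := rfl
    _ ≤ n * (n : ℝ) ^ (3 * D) := by gcongr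
    _ = (n : ℝ) ^ (3 * D + 1) := by rw [pow_succ]; ring

/-- JOB A. Adapt ColorRef/Moment.lean (moment_bf), ColorRef/Fourier.lean (pbad_le, Bm, duality) and
ColorRef/Core.lean (core) to the field `fld D g` and the means `mn D g`: the gadgets are `gd n D`
(at most `D` edges, hence at most `2 D` vertices). Put `p = 3 (D+1)^2`, moment of order `4 p`. -/
theorem dual (D : ℕ) (hD1 : 1 ≤ D) (g : Finset (Pair n) → ℝ) (C : ℝ) (hC : 1 ≤ C)
    (hg : ∀ H ∈ gd n D, |g H| * (k : ℝ) ^ (vset H).card ≤ C * k)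
    (hn : 6 ≤ n) (hnk : n ≤ k ^ 2)
    (hZ : (C * (Ng D (8 * D * (3 * (D + 1) ^ 2) + 2) : ℝ)) ^ 4 ≤ n)
    (F : (Pair n → Bool) → ℝ)
    (hF : ∀ (σ : Fin n → ZMod k) (y : Pair n → Bool), (∀ e, Mono σ e → y e = false) → 1 ≤ F y)
    (hmean : 𝔼 y, F y = 0)
    (hdeg : ∀ S : Finset (Pair n), D < S.card → fh F S = 0) :
    1 / 4 ≤ (𝔼 y, F y ^ 2) * (2 * ∑ S ∈ TD n D, ac k D g S ^ 2 + 18 / n) := by
  have hnR : (6 : ℝ) ≤ n := by exact_mod_cast hn
  have hn0 : (0 : ℝ) < n := by linarith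
  have hn1 : (1 : ℝ) ≤ n := by linarith
  have hC0 : (0 : ℝ) ≤ C := by linarith
  have hp0 := pbL_nonneg (k := k) D g
  set P := pbL k D g with hP
  obtain ⟨p, hp⟩ : ∃ p, p = 3 * (D + 1) ^ 2 := ⟨_, rfl⟩
  rw [← hp] at hZ
  have hp3 : 3 ≤ p := by
    rw [hp]
    have : 1 ≤ (D + 1) ^ 2 := Nat.one_le_pow _ _ (by omega)
    omega
  set Z : ℝ := C * (Ng D (8 * D * p + 2) : ℝ) with hZd
  have hNg1 : (1 : ℝ) ≤ (Ng D (8 * D * p + 2) : ℝ) := by exact_mod_cast one_le_Ng D _
  have hZ0 : 0 ≤ Z := by rw [hZd]; positivity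
  have hCZ : C ≤ Z := by
    rw [hZd]
    nlinarith
  have hCn : C ≤ n := by
    refine hCZ.trans (le_trans ?_ hZ)
    exact le_self_pow₀ (by linarith) (by norm_num)
  -- Markov
  have hM := pbL_le (k := k) (n := n) D g C hC hg hnk (2 * p)
  have hidx : 2 * (2 * p) * (2 * D) + 2 = 8 * D * p + 2 := by ring
  rw [← hP, hidx, ← hZd] at hM
  have hk2 : (n : ℝ) ^ (2 * p) ≤ (k : ℝ) ^ (2 * (2 * p)) := by
    rw [pow_mul (k : ℝ) 2 (2 * p)]
    have : (n : ℝ) ≤ (k : ℝ) ^ 2 := by exact_mod_cast hnk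
    gcongr
  have hZ' : Z ^ (2 * (2 * p)) ≤ (n : ℝ) ^ p := by
    have h3 : 2 * (2 * p) = 4 * p := by ring
    rw [h3, pow_mul]
    gcongr
  have hM2 : P * (n : ℝ) ^ (2 * p) ≤ 3 * (n : ℝ) ^ 2 * (n : ℝ) ^ p := by
    calc P * (n : ℝ) ^ (2 * p) ≤ P * (k : ℝ) ^ (2 * (2 * p)) := by gcongr
      _ ≤ (n : ℝ) ^ 2 * (3 * Z ^ (2 * (2 * p))) := hM
      _ ≤ (n : ℝ) ^ 2 * (3 * (n : ℝ) ^ p) := by gcongr
      _ = 3 * (n : ℝ) ^ 2 * (n : ℝ) ^ p := by ring
  have hM3 : P * (n : ℝ) ^ p ≤ 3 * (n : ℝ) ^ 2 := by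
    have h3 : (P * (n : ℝ) ^ p) * (n : ℝ) ^ p ≤ (3 * (n : ℝ) ^ 2) * (n : ℝ) ^ p := by
      calc (P * (n : ℝ) ^ p) * (n : ℝ) ^ p = P * (n : ℝ) ^ (2 * p) := by
            rw [two_mul, pow_add]; ring
        _ ≤ _ := hM2
    exact le_of_mul_le_mul_right h3 (by positivity)
  have hPn : P ≤ 3 / n := by
    rw [le_div_iff₀ hn0]
    have h3 : (P * n) * (n : ℝ) ^ 2 ≤ 3 * (n : ℝ) ^ 2 := by
      calc (P * n) * (n : ℝ) ^ 2 = P * (n : ℝ) ^ 3 := by ring
        _ ≤ P * (n : ℝ) ^ p := by
            gcongr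
        _ ≤ _ := hM3
    exact le_of_mul_le_mul_right h3 (by positivity)
  have hPh : P ≤ 1 / 2 := by
    refine hPn.trans ?_
    rw [div_le_div_iff₀ hn0 (by norm_num)]
    linarith
  -- the error term
  have hE : P ^ 2 * BmL D C n ^ (2 * D) * (TD n D).card ≤ 9 / n := by
    have hBm := BmL_le D C (by omega : 2 ≤ n) hCn
    have hB0 : 0 ≤ BmL D C n := by linarith [BmL_ge_one D C hC n]
    have hT := card_TD_le2 (by omega : 2 ≤ n) D
    have h3 : BmL D C n ^ (2 * D) ≤ (n : ℝ) ^ ((3 * D + 1) * (2 * D)) := by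
      rw [pow_mul (n : ℝ)]
      gcongr
    rw [le_div_iff₀ hn0]
    have h4 : (P ^ 2 * BmL D C n ^ (2 * D) * (TD n D).card * n) * (n : ℝ) ^ 4 ≤
        9 * (n : ℝ) ^ 4 := by
      calc (P ^ 2 * BmL D C n ^ (2 * D) * (TD n D).card * n) * (n : ℝ) ^ 4
          ≤ (P ^ 2 * (n : ℝ) ^ ((3 * D + 1) * (2 * D)) * (n : ℝ) ^ (3 * D) * n) *
            (n : ℝ) ^ 4 := by
            gcongr
        _ = P ^ 2 * (n : ℝ) ^ ((3 * D + 1) * (2 * D) + 3 * D + 5) := by
            rw [pow_add, pow_add]; ring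
        _ ≤ P ^ 2 * (n : ℝ) ^ (p * 2) := by
            gcongr
            rw [hp]
            have h5 : 3 * (D + 1) ^ 2 * 2 =
              (3 * D + 1) * (2 * D) + 3 * D + 5 + (7 * D + 1) := by ring
            omega
        _ = (P * (n : ℝ) ^ p) ^ 2 := by rw [mul_pow, ← pow_mul]
        _ ≤ (3 * (n : ℝ) ^ 2) ^ 2 := by gcongr
        _ = 9 * (n : ℝ) ^ 4 := by ring
    exact le_of_mul_le_mul_right h4 (by positivity)
  have hdual := dualityL (k := k) D g C hC hg F hF hmean hdeg (by rw [← hP]; linarith)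
  rw [← hP] at hdual
  have hnn : 0 ≤ 𝔼 y, F y ^ 2 := expect_nonneg (fun y _ => sq_nonneg _)
  calc (1 : ℝ) / 4 = (1 / 2) ^ 2 := by norm_num
    _ ≤ (1 - P) ^ 2 := by
        apply pow_le_pow_left₀ (by norm_num)
        linarith
    _ ≤ _ := hdual
    _ ≤ (𝔼 y, F y ^ 2) * (2 * ∑ S ∈ TD n D, ac k D g S ^ 2 + 18 / n) := by
        apply mul_le_mul_of_nonneg_left _ hnn
        have h6 : (18 : ℝ) / n = 2 * (9 / n) := by ring
        rw [h6]
        linarith

end Pool.Agent.ColorLog
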