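import Pool.Agent.ColorLog.Bnd

namespace Pool.Agent.ColorLog

open Finset BigOperators
open scoped Classical
open Pool.Agent.ColorRef

set_option linter.unusedSectionVars false

variable {n : ℕ} {k : ℕ} [NeZero k]

/-- The number of graphs with at most `D` edges and vertex set `V`. -/
lemma card_TD_fib_le (D : ℕ) (V : Finset (Fin n)) (hV : V.card ≤ 2 * D) :
    ((TD n D).filter (fun S => vset S = V)).card ≤ (4 * D ^ 2 + 1) ^ D := by
  calc ((TD n D).filter (fun S => vset S = V)).card
      ≤ ((inside V).powerset.filter (fun Y => Y.card ≤ D)).card := by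
        apply card_le_card
        intro S hS
        rw [mem_filter, TD, mem_filter] at hS
        rw [mem_filter, mem_powerset]
        refine ⟨?_, hS.1.2.2⟩
        rw [← hS.2]
        exact subset_inside S
    _ ≤ ((inside V).card + 1) ^ D := card_subsets_le _ _
    _ ≤ (4 * D ^ 2 + 1) ^ D := by
        apply Nat.pow_le_pow_left
        have h1 := card_inside_le V
        have h2 : V.card ^ 2 ≤ (2 * D) ^ 2 := Nat.pow_le_pow_left hV 2
        have h3 : (2 * D) ^ 2 = 4 * D ^ 2 := by ring
        omega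

/-- Sum over all vertex sets of a given size. -/
lemma sum_size_le (hn : n ≤ k ^ 2) (m : ℕ) :
    ∑ V ∈ (univ : Finset (Finset (Fin n))).filter (fun V => V.card = m),
      (1 / (k : ℝ) ^ 2) ^ V.card ≤ 1 := by
  have hk0 := kpos (k := k)
  have h1 : ∑ V ∈ (univ : Finset (Finset (Fin n))).filter (fun V => V.card = m),
      (1 / (k : ℝ) ^ 2) ^ V.card =
      (((univ : Finset (Finset (Fin n))).filter (fun V => V.card = m)).card : ℝ) *
        (1 / (k : ℝ) ^ 2) ^ m := by
    rw [← nsmul_eq_mul, ← sum_const]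
    apply sum_congr rfl
    intro V hV
    rw [(mem_filter.1 hV).2]
  have h2 : ((univ : Finset (Finset (Fin n))).filter (fun V => V.card = m)).card ≤ n ^ m := by
    calc _ ≤ (powersetCard m (univ : Finset (Fin n))).card := by
          apply card_le_card
          intro V hV
          rw [mem_powersetCard]
          exact ⟨subset_univ _, (mem_filter.1 hV).2⟩
      _ = n.choose m := by rw [card_powersetCard, card_univ, Fintype.card_fin]
      _ ≤ n ^ m := Nat.choose_le_pow _ _
  have h3 : (((univ : Finset (Finset (Fin n))).filter (fun V => V.card = m)).card : ℝ) ≤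
      (n : ℝ) ^ m := by exact_mod_cast h2
  have h4 : (n : ℝ) * (1 / (k : ℝ) ^ 2) ≤ 1 := by
    have h5 : (n : ℝ) ≤ (k : ℝ) ^ 2 := by exact_mod_cast hn
    rw [mul_one_div, div_le_one (by positivity)]
    exact h5
  rw [h1]
  calc _ ≤ (n : ℝ) ^ m * (1 / (k : ℝ) ^ 2) ^ m :=
        mul_le_mul_of_nonneg_right h3 (by positivity)
    _ = ((n : ℝ) * (1 / (k : ℝ) ^ 2)) ^ m := by rw [mul_pow]
    _ ≤ 1 := pow_le_one₀ (by positivity) h4

/-- Sum over all graphs with at most `D` edges. Fibre by `V = vset S` (`V.card ≤ 2 D`,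
card_vset_le in ColorRef/Count.lean); at most `(V.card ^ 2 + 1) ^ D` graphs with at most `D`
edges have vertex set `V` (card_subsets_le in ColorLog/Cnt.lean with `inside V`, card_inside_le
and subset_inside in ColorRef/Coef.lean); and
`choose n v / k ^ (2 v) ≤ n ^ v / k ^ (2 v) ≤ 1`. -/
theorem sum_TD_le (hn : n ≤ k ^ 2) (D : ℕ) :
    ∑ S ∈ TD n D, (1 / (k : ℝ) ^ 2) ^ (vset S).card ≤
      (2 * D + 1) * (4 * (D : ℝ) ^ 2 + 1) ^ D := by
  have hk0 := kpos (k := k)
  have hmaps : ∀ S ∈ TD n D, vset S ∈
      univ.filter (fun V : Finset (Fin n) => V.card ≤ 2 * D) := by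
    intro S hS
    rw [TD, mem_filter] at hS
    rw [mem_filter]
    exact ⟨mem_univ _, (card_vset_le S).trans (Nat.mul_le_mul_left 2 hS.2.2)⟩
  have hmaps2 : ∀ V ∈ univ.filter (fun V : Finset (Fin n) => V.card ≤ 2 * D),
      V.card ∈ range (2 * D + 1) := by
    intro V hV
    rw [mem_range]
    have := (mem_filter.1 hV).2
    omega
  calc ∑ S ∈ TD n D, (1 / (k : ℝ) ^ 2) ^ (vset S).card
      = ∑ V ∈ univ.filter (fun V : Finset (Fin n) => V.card ≤ 2 * D),
          ∑ S ∈ (TD n D).filter (fun S => vset S = V), (1 / (k : ℝ) ^ 2) ^ (vset S).card :=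
        (sum_fiberwise_of_maps_to hmaps _).symm
    _ ≤ ∑ V ∈ univ.filter (fun V : Finset (Fin n) => V.card ≤ 2 * D),
          (4 * (D : ℝ) ^ 2 + 1) ^ D * (1 / (k : ℝ) ^ 2) ^ V.card := by
        apply sum_le_sum
        intro V hV
        have h1 : ∑ S ∈ (TD n D).filter (fun S => vset S = V),
            (1 / (k : ℝ) ^ 2) ^ (vset S).card =
            (((TD n D).filter (fun S => vset S = V)).card : ℝ) *
              (1 / (k : ℝ) ^ 2) ^ V.card := by
          rw [← nsmul_eq_mul, ← sum_const]
          apply sum_congr rfl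
          intro S hS
          rw [(mem_filter.1 hS).2]
        rw [h1]
        have h2 := card_TD_fib_le D V (mem_filter.1 hV).2
        have h3 : (((TD n D).filter (fun S => vset S = V)).card : ℝ) ≤
            (4 * (D : ℝ) ^ 2 + 1) ^ D := by exact_mod_cast h2
        exact mul_le_mul_of_nonneg_right h3 (by positivity)
    _ = (4 * (D : ℝ) ^ 2 + 1) ^ D *
          ∑ V ∈ univ.filter (fun V : Finset (Fin n) => V.card ≤ 2 * D),
            (1 / (k : ℝ) ^ 2) ^ V.card := by rw [mul_sum]
    _ = (4 * (D : ℝ) ^ 2 + 1) ^ D * ∑ m ∈ range (2 * D + 1),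
          ∑ V ∈ (univ.filter (fun V : Finset (Fin n) => V.card ≤ 2 * D)).filter
            (fun V => V.card = m), (1 / (k : ℝ) ^ 2) ^ V.card := by
        rw [sum_fiberwise_of_maps_to hmaps2]
    _ ≤ (4 * (D : ℝ) ^ 2 + 1) ^ D * ∑ m ∈ range (2 * D + 1), (1 : ℝ) := by
        apply mul_le_mul_of_nonneg_left _ (by positivity)
        apply sum_le_sum
        intro m _
        refine le_trans ?_ (sum_size_le (n := n) (k := k) hn m)
        apply sum_le_sum_of_subset_of_nonneg
        · intro V hV
          rw [mem_filter]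
          exact ⟨mem_univ _, (mem_filter.1 hV).2⟩
        · intro V _ _
          positivity
    _ = (2 * D + 1) * (4 * (D : ℝ) ^ 2 + 1) ^ D := by
        rw [sum_const, card_range, nsmul_eq_mul]
        push_cast
        ring

end Pool.Agent.ColorLog
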