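import Pool.Agent.ColorLog.RestB
import Pool.Agent.ColorLog.Disc
import Pool.Agent.ColorLog.Dual
import Pool.Agent.ColorLog.Sum

/-!
The second moment bound for one value of `n`.
-/

namespace Pool.Agent.ColorLog

open Finset BigOperators
open scoped Classical
open Pool.Agent.ColorRef

set_option linter.unusedSectionVars false

variable {n : ℕ} {k : ℕ} [NeZero k]

lemma abs_gam_le (C : ℝ) (hC : 0 ≤ C) (u : Finset (Pair n) → ℝ) (hu : ∀ H, |u H| ≤ 1)
    (H : Finset (Pair n)) :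
    |gam k C u H| * (k : ℝ) ^ (vset H).card ≤ |g0 k H| * (k : ℝ) ^ (vset H).card + C := by
  have hk0 := kpos (k := k)
  have hp : (0 : ℝ) < (k : ℝ) ^ (vset H).card := by positivity
  have h1 : |gam k C u H| ≤ |g0 k H| + C / (k : ℝ) ^ (vset H).card := by
    unfold gam
    refine (abs_add_le _ _).trans ?_
    gcongr
    rw [abs_mul, abs_of_nonneg (by positivity)]
    calc C / (k : ℝ) ^ (vset H).card * |u H| ≤ C / (k : ℝ) ^ (vset H).card * 1 :=
          mul_le_mul_of_nonneg_left (hu H) (by positivity)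
      _ = _ := mul_one _
  calc |gam k C u H| * (k : ℝ) ^ (vset H).card
      ≤ (|g0 k H| + C / (k : ℝ) ^ (vset H).card) * (k : ℝ) ^ (vset H).card :=
        mul_le_mul_of_nonneg_right h1 hp.le
    _ = _ := by rw [add_mul, div_mul_cancel₀ _ hp.ne']

theorem core {D : ℕ} (hD1 : 1 ≤ D) (hn : n ≤ k ^ 2)
    (hstar : (520 * (D : ℝ) ^ 5) ^ (46 * D) ≤ n)
    (F : (Pair n → Bool) → ℝ)
    (hF : ∀ (σ : Fin n → ZMod k) (y : Pair n → Bool), (∀ e, Mono σ e → y e = false) → 1 ≤ F y)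
    (hmean : 𝔼 y, F y = 0)
    (hdeg : ∀ S : Finset (Pair n), D < S.card → fh F S = 0) :
    Real.sqrt n ≤ 𝔼 y, F y ^ 2 := by
  obtain ⟨s1, s2, s3, s4, s5, s6⟩ := star_k hD1 hn hstar
  have hk0 := kpos (k := k)
  have hY := Yc_ge_one hD1
  have h2D : (1 : ℝ) ≤ 2 ^ D := one_le_pow₀ (by norm_num)
  have hC1 : 1 ≤ Cd D := by
    unfold Cd
    have : (1 : ℝ) ≤ Yc D ^ 2 := one_le_pow₀ hY
    nlinarith
  have hCk : Cd D ≤ k := by nlinarith
  obtain ⟨u, hu, hac⟩ := exists_gam hD1 hn s1 s2 s3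
  set g := gam k (Cd D) u with hg
  have hg1 : ∀ H ∈ gd n D, Blk H →
      |g H| * (k : ℝ) ^ (vset H).card ≤ 8 ^ H.card * k := by
    intro H hH hB
    have h1 := abs_gam_le (k := k) (Cd D) (by linarith) u hu H
    have h2 : |g0 k H| * (k : ℝ) ^ (vset H).card ≤ 4 ^ H.card * k := by
      rw [g0, if_pos hB]
      exact gco_blk_le hB (vset_gd_le s1 (mem_gd.1 hH).2)
    have h3 : (4 : ℝ) ^ H.card + 1 ≤ 8 ^ H.card := by
      have h4 : 1 ≤ H.card := card_pos.2 hB.1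
      have h5 : (8 : ℝ) ^ H.card = 2 ^ H.card * 4 ^ H.card := by
        rw [← mul_pow]; norm_num
      have h6 : (2 : ℝ) ≤ 2 ^ H.card := by
        calc (2 : ℝ) = 2 ^ 1 := by norm_num
          _ ≤ 2 ^ H.card := pow_le_pow_right₀ (by norm_num) h4
      have h7 : (1 : ℝ) ≤ 4 ^ H.card := one_le_pow₀ (by norm_num)
      rw [h5]
      nlinarith
    calc |g H| * (k : ℝ) ^ (vset H).card ≤ 4 ^ H.card * k + k := by linarith
      _ = (4 ^ H.card + 1) * k := by ring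
      _ ≤ _ := mul_le_mul_of_nonneg_right h3 hk0.le
  have hg2 : ∀ H ∈ gd n D, ¬ Blk H → |g H| * (k : ℝ) ^ (vset H).card ≤ Cd D := by
    intro H _ hB
    have h1 := abs_gam_le (k := k) (Cd D) (by linarith) u hu H
    rw [g0, if_neg hB, abs_zero, zero_mul, zero_add] at h1
    exact h1
  have hg3 : ∀ H ∈ gd n D, |g H| * (k : ℝ) ^ (vset H).card ≤ 8 ^ D * k := by
    intro H hH
    have h8 : (8 : ℝ) ^ H.card ≤ 8 ^ D := pow_le_pow_right₀ (by norm_num) (mem_gd.1 hH).2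
    by_cases hB : Blk H
    · exact (hg1 H hH hB).trans (mul_le_mul_of_nonneg_right h8 hk0.le)
    · have h9 : (1 : ℝ) ≤ 8 ^ D := one_le_pow₀ (by norm_num)
      have := hg2 H hH hB
      nlinarith
  have hdual := dual D hD1 g (8 ^ D) (one_le_pow₀ (by norm_num)) hg3 s4 hn
    (by unfold Ng; exact s5) F hF hmean hdeg
  set W : ℝ := (2 * D + 1) * (4 * (D : ℝ) ^ 2 + 1) ^ D with hW
  have hW0 : 0 ≤ W := by rw [hW]; positivity
  have hn0 : (0 : ℝ) < n := by
    have : (6 : ℝ) ≤ n := by exact_mod_cast s4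
    linarith
  have hnk : (n : ℝ) ≤ (k : ℝ) ^ 2 := by exact_mod_cast hn
  have hterm : ∀ S ∈ TD n D, ac k D g S ^ 2 ≤
      (Zc D / k) ^ 2 * (1 / (k : ℝ) ^ 2) ^ (vset S).card := by
    intro S hS
    by_cases hc : Cn S
    · have h1 : S ∈ gd n D := mem_gd.2 ⟨hc, by
        unfold TD at hS
        exact (mem_filter.1 hS).2.2⟩
      rw [hac S h1, zero_pow (by norm_num)]
      positivity
    · have h1 := disc_bound hD1 hn g (Cd D) hC1 s2 hg1 hg2 hac hS hc
      have h2 : 2 ^ D * (6 * Yc D * (Yc D * Cd D / k)) = Zc D / k := by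
        unfold Cd Zc
        have : (4 : ℝ) ^ D = 2 ^ D * 2 ^ D := by rw [← mul_pow]; norm_num
        rw [this]
        ring
      rw [h2] at h1
      have hp : (0 : ℝ) < (k : ℝ) ^ (vset S).card := by positivity
      have h3 : |ac k D g S| ≤ Zc D / k * (1 / (k : ℝ) ^ (vset S).card) := by
        rw [mul_one_div, le_div_iff₀ hp]
        exact h1
      calc ac k D g S ^ 2 = |ac k D g S| ^ 2 := (sq_abs _).symm
        _ ≤ (Zc D / k * (1 / (k : ℝ) ^ (vset S).card)) ^ 2 :=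
            pow_le_pow_left₀ (abs_nonneg _) h3 2
        _ = _ := by rw [mul_pow, one_div_pow, one_div_pow, ← pow_mul, ← pow_mul, mul_comm 2]
  have hsum : ∑ S ∈ TD n D, ac k D g S ^ 2 ≤ Zc D ^ 2 * W / n := by
    calc ∑ S ∈ TD n D, ac k D g S ^ 2
        ≤ ∑ S ∈ TD n D, (Zc D / k) ^ 2 * (1 / (k : ℝ) ^ 2) ^ (vset S).card := sum_le_sum hterm
      _ = (Zc D / k) ^ 2 * ∑ S ∈ TD n D, (1 / (k : ℝ) ^ 2) ^ (vset S).card := by rw [mul_sum]
      _ ≤ (Zc D / k) ^ 2 * W :=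
          mul_le_mul_of_nonneg_left (sum_TD_le hn D) (by positivity)
      _ = Zc D ^ 2 * W / (k : ℝ) ^ 2 := by rw [div_pow]; ring
      _ ≤ Zc D ^ 2 * W / n := by
          apply div_le_div_of_nonneg_left (by positivity) hn0 hnk
  set E := 𝔼 y, F y ^ 2 with hE
  have hE0 : 0 ≤ E := expect_nonneg (fun y _ => sq_nonneg _)
  have hsq : 0 < Real.sqrt n := Real.sqrt_pos.2 hn0
  have hsqsq : Real.sqrt n * Real.sqrt n = n := Real.mul_self_sqrt hn0.le
  have h1 : 1 / 4 ≤ E * ((2 * (Zc D ^ 2 * W) + 18) / n) := by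
    refine hdual.trans ?_
    apply mul_le_mul_of_nonneg_left _ hE0
    rw [add_div, mul_div_assoc]
    linarith
  rw [← mul_div_assoc, le_div_iff₀ hn0] at h1
  have h2 : Real.sqrt n * Real.sqrt n ≤ E * Real.sqrt n := by
    rw [hsqsq]
    calc (n : ℝ) = 4 * (1 / 4 * n) := by ring
      _ ≤ 4 * (E * (2 * (Zc D ^ 2 * W) + 18)) := by linarith
      _ = E * (4 * (2 * (Zc D ^ 2 * W) + 18)) := by ring
      _ ≤ E * Real.sqrt n := mul_le_mul_of_nonneg_left s6 hE0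
  exact le_of_mul_le_mul_right h2 hsq

end Pool.Agent.ColorLog
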