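import Pool.Agent.ColorRef.Fourier

/-!
The planted law with connected gadgets: definitions.
-/

namespace Pool.Agent.ColorLog

open Finset BigOperators
open scoped Classical
open Pool.Agent.ColorRef

set_option linter.unusedSectionVars false

variable {n : ℕ} {k : ℕ} [NeZero k]

/-- Connected graphs. -/
def Cn (H : Finset (Pair n)) : Prop :=
  H.Nonempty ∧ ∀ u ∈ vset H, ∀ v ∈ vset H, Conn H u v

/-- The gadgets: connected graphs with at most `D` edges. -/
noncomputable def gd (n D : ℕ) : Finset (Finset (Pair n)) :=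
  univ.filter (fun H => Cn H ∧ H.card ≤ D)

lemma mem_gd {D : ℕ} {H : Finset (Pair n)} : H ∈ gd n D ↔ Cn H ∧ H.card ≤ D := by
  simp [gd]

/-- Indicator of a state. -/
noncomputable def iD (D : ℕ) (σ : Fin n → ZMod k) (R : Finset (Pair n)) (e : Pair n) : St n → ℝ
  | none => if Mono σ e then 1 else 0
  | some none => if (¬ Mono σ e ∧ e ∉ R) then 1 else 0
  | some (some H) => if (H ∈ gd n D ∧ e ∈ H ∧ H ∩ R = {e} ∧ Rain σ H) then 1 else 0

/-- Coefficient of a state. -/
noncomputable def cf (g : Finset (Pair n) → ℝ) : St n → ℝ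
  | none => -1
  | some none => 1
  | some (some H) => g H

/-- The field acting on the response edge `e`. -/
noncomputable def fld (D : ℕ) (g : Finset (Pair n) → ℝ) (σ : Fin n → ZMod k)
    (R : Finset (Pair n)) (x : Pair n → Bool) (e : Pair n) : ℝ :=
  ∑ H ∈ gd n D, if (e ∈ H ∧ H ∩ R = {e} ∧ Rain σ H) then g H * chi (H.erase e) x else 0

/-- Conditional mean of the sign of the edge `e`. -/
noncomputable def mn (D : ℕ) (g : Finset (Pair n) → ℝ) (σ : Fin n → ZMod k)
    (R : Finset (Pair n)) (x : Pair n → Bool) (e : Pair n) : ℝ :=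
  if Mono σ e then -1 else if e ∉ R then sg (x e) else fld D g σ R x e

/-- Coefficient free weight of a state assignment. -/
noncomputable def Wt (k : ℕ) [NeZero k] (D : ℕ) (S : Finset (Pair n)) (φ : Pair n → St n) : ℝ :=
  (𝔼 σ : Fin n → ZMod k, 𝔼 R : Finset (Pair n), ∏ e ∈ S, iD D σ R e (φ e)) *
    𝔼 x : Pair n → Bool, ∏ e ∈ S, ch x e (φ e)

/-- Fourier coefficient of the planted law (before truncation). -/
noncomputable def ac (k : ℕ) [NeZero k] (D : ℕ) (g : Finset (Pair n) → ℝ)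
    (S : Finset (Pair n)) : ℝ :=
  𝔼 σ : Fin n → ZMod k, 𝔼 R : Finset (Pair n), 𝔼 x : Pair n → Bool, ∏ e ∈ S, mn D g σ R x e

lemma mn_eq (D : ℕ) (g : Finset (Pair n) → ℝ) (σ : Fin n → ZMod k) (R : Finset (Pair n))
    (x : Pair n → Bool) (e : Pair n) :
    mn D g σ R x e = ∑ st : St n, iD D σ R e st * cf g st * ch x e st := by
  rw [Fintype.sum_option, Fintype.sum_option]
  have hsum : ∑ H : Finset (Pair n), iD D σ R e (some (some H)) * cf g (some (some H)) *
      ch x e (some (some H)) = fld D g σ R x e := by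
    rw [fld, ← sum_filter_add_sum_filter_not univ (fun H => H ∈ gd n D)]
    rw [filter_mem_eq_inter, univ_inter]
    have h2 : ∑ H ∈ univ.filter (fun H => H ∉ gd n D), iD D σ R e (some (some H)) *
        cf g (some (some H)) * ch x e (some (some H)) = 0 := by
      apply sum_eq_zero
      intro H hH
      simp [iD, (mem_filter.1 hH).2]
    rw [h2, add_zero]
    apply sum_congr rfl
    intro H hH
    simp only [iD, cf, ch, hH, true_and]
    split_ifs <;> simp
  rw [hsum]
  simp only [iD, cf, ch, mn]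
  by_cases h1 : Mono σ e
  · have hb : fld D g σ R x e = 0 := by
      rw [fld]
      apply sum_eq_zero
      intro H _
      rw [if_neg]
      rintro ⟨h2, -, h3⟩
      exact h3.not_mono h2 h1
    simp [h1, hb]
  · by_cases h2 : e ∈ R
    · simp [h1, h2]
    · have hb : fld D g σ R x e = 0 := by
        rw [fld]
        apply sum_eq_zero
        intro H _
        rw [if_neg]
        rintro ⟨-, h3, -⟩
        have : e ∈ H ∩ R := by rw [h3]; simp
        exact h2 (mem_inter.1 this).2
      simp [h1, h2, hb]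

lemma ac_eq (D : ℕ) (g : Finset (Pair n) → ℝ) (S : Finset (Pair n)) :
    ac k D g S = ∑ φ ∈ Phi S, (∏ e ∈ S, cf g (φ e)) * Wt k D S φ := by
  rw [ac]
  have h1 : ∀ (σ : Fin n → ZMod k) (R : Finset (Pair n)) (x : Pair n → Bool),
      ∏ e ∈ S, mn D g σ R x e =
      ∑ φ ∈ Phi S, (∏ e ∈ S, cf g (φ e)) * (∏ e ∈ S, iD D σ R e (φ e)) *
        ∏ e ∈ S, ch x e (φ e) := by
    intro σ R x
    have : ∏ e ∈ S, mn D g σ R x e = ∏ e ∈ S, ∑ st : St n, iD D σ R e st * cf g st * ch x e st :=
      prod_congr rfl (fun e _ => mn_eq D g σ R x e)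
    rw [this, prod_sum_states]
    apply sum_congr rfl
    intro φ _
    rw [← prod_mul_distrib, ← prod_mul_distrib]
    apply prod_congr rfl
    intro e _
    ring
  simp only [h1]
  simp only [expect_sum_comm]
  apply sum_congr rfl
  intro φ _
  rw [Wt]
  simp only [← mul_expect, ← expect_mul]
  ring

/-- Combinatorial consistency of a state assignment. -/
structure Ok (k : ℕ) [NeZero k] (D : ℕ) (S : Finset (Pair n)) (φ : Pair n → St n) : Prop where
  gadm : ∀ e ∈ Tset S φ, hs (φ e) ∈ gd n D ∧ e ∈ hs (φ e)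
  sep : ∀ e ∈ Tset S φ, ∀ f ∈ Tset S φ, e ≠ f → e ∉ hs (φ f)
  fin_eq : fin S (Lst S φ) = Mset S φ
  wit : ∃ σ : Fin n → ZMod k, (∀ e ∈ Mset S φ, Mono σ e) ∧ ∀ e ∈ Tset S φ, Rain σ (hs (φ e))

lemma ok_of_Wt_ne_zero {D : ℕ} {S : Finset (Pair n)} {φ : Pair n → St n}
    (h : Wt k D S φ ≠ 0) : Ok k D S φ := by
  rw [Wt] at h
  have hx : (𝔼 x : Pair n → Bool, ∏ e ∈ S, ch x e (φ e)) ≠ 0 := right_ne_zero_of_mul h
  have hi : (𝔼 σ : Fin n → ZMod k, 𝔼 R : Finset (Pair n), ∏ e ∈ S, iD D σ R e (φ e)) ≠ 0 :=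
    left_ne_zero_of_mul h
  obtain ⟨σ, -, hσ⟩ := exists_ne_zero_of_expect_ne_zero hi
  obtain ⟨R, -, hR⟩ := exists_ne_zero_of_expect_ne_zero hσ
  rw [prod_ne_zero_iff] at hR
  have hall : ∀ e ∈ Tset S φ, hs (φ e) ∈ gd n D ∧ e ∈ hs (φ e) ∧ hs (φ e) ∩ R = {e} ∧
      Rain σ (hs (φ e)) := by
    intro e he
    rw [Tset, mem_filter] at he
    obtain ⟨heS, H, hH⟩ := he
    have h1 := hR e heS
    rw [hH, iD] at h1
    split_ifs at h1 with h2
    · rw [hH]; exact h2
    · exact absurd rfl h1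
  refine ⟨fun e he => ⟨(hall e he).1, (hall e he).2.1⟩, ?_, ?_, ⟨σ, ?_, fun e he => (hall e he).2.2.2⟩⟩
  · intro e he f hf hef hmem
    have h1 : e ∈ R := by
      have : e ∈ hs (φ e) ∩ R := by rw [(hall e he).2.2.1]; simp
      exact (mem_inter.1 this).2
    have h2 : e ∈ hs (φ f) ∩ R := mem_inter.2 ⟨hmem, h1⟩
    rw [(hall f hf).2.2.1, mem_singleton] at h2
    exact hef h2
  · have h1 : (𝔼 x : Pair n → Bool, ∏ e ∈ S, ch x e (φ e)) =
        𝔼 x : Pair n → Bool, chi (symmDiff (fin S (Lst S φ)) (Mset S φ)) x :=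
      expect_congr rfl (fun x _ => prod_ch S φ (fun e he => (hall e he).2.1) x)
    rw [h1, expect_chi] at hx
    split_ifs at hx with h2
    · exact symmDiff_eq_bot.1 h2
    · exact absurd rfl hx
  · intro e he
    obtain ⟨heS, hne⟩ := mem_filter.1 he
    have h1 := hR e heS
    rw [hne, iD] at h1
    split_ifs at h1 with h2
    · exact h2
    · exact absurd rfl h1

/-- The absolute weight is at most the probability that the monochromatic edges are
monochromatic. -/
lemma abs_Wt_le (D : ℕ) (S : Finset (Pair n)) (φ : Pair n → St n) :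
    |Wt k D S φ| ≤ pm k (Mset S φ) := by
  rw [Wt, abs_mul]
  have h2 : |𝔼 x : Pair n → Bool, ∏ e ∈ S, ch x e (φ e)| ≤ 1 := by
    refine (abs_expect_le _ _).trans ?_
    have : ∀ x ∈ (univ : Finset (Pair n → Bool)), |∏ e ∈ S, ch x e (φ e)| ≤ 1 := by
      intro x _
      rw [abs_prod]
      apply le_of_eq
      apply prod_eq_one
      intro e _
      rcases φ e with _ | _ | H
      · simp [ch]
      · simp [ch, abs_sg]
      · simp [ch, abs_chi]
    calc 𝔼 x : Pair n → Bool, |∏ e ∈ S, ch x e (φ e)| ≤ 𝔼 x : Pair n → Bool, (1:ℝ) :=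
          expect_le_expect this
      _ = 1 := by simp
  have hnn : ∀ (σ : Fin n → ZMod k) (R : Finset (Pair n)), 0 ≤ ∏ e ∈ S, iD D σ R e (φ e) := by
    intro σ R
    apply prod_nonneg
    intro e _
    rcases φ e with _ | _ | H <;> simp only [iD] <;> split_ifs <;> norm_num
  have hle : ∀ (σ : Fin n → ZMod k) (R : Finset (Pair n)),
      ∏ e ∈ S, iD D σ R e (φ e) ≤ if (∀ e ∈ Mset S φ, Mono σ e) then 1 else 0 := by
    intro σ R
    split_ifs with hM
    · apply prod_le_one
      · intro e _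
        rcases φ e with _ | _ | H <;> simp only [iD] <;> split_ifs <;> norm_num
      · intro e _
        rcases φ e with _ | _ | H <;> simp only [iD] <;> split_ifs <;> norm_num
    · push Not at hM
      obtain ⟨e, he, hne⟩ := hM
      rw [Mset, mem_filter] at he
      apply le_of_eq
      apply prod_eq_zero he.1
      rw [he.2]
      simp [iD, hne]
  have h3 : |𝔼 σ : Fin n → ZMod k, 𝔼 R : Finset (Pair n), ∏ e ∈ S, iD D σ R e (φ e)| ≤
      pm k (Mset S φ) := by
    rw [abs_of_nonneg (expect_nonneg (fun σ _ => expect_nonneg (fun R _ => hnn σ R))), pm]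
    apply expect_le_expect
    intro σ _
    calc 𝔼 R : Finset (Pair n), ∏ e ∈ S, iD D σ R e (φ e)
        ≤ 𝔼 R : Finset (Pair n), (if (∀ e ∈ Mset S φ, Mono σ e) then (1:ℝ) else 0) :=
          expect_le_expect (fun R _ => hle σ R)
      _ = _ := by rw [expect_const univ_nonempty]
  calc _ ≤ pm k (Mset S φ) * 1 := by
        apply mul_le_mul h3 h2 (abs_nonneg _) (pm_nonneg k _)
    _ = _ := mul_one _

end Pool.Agent.ColorLog
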