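import Pool.Agent.ColorLog.Struct
import Pool.Agent.ColorLog.Cnt

/-!
Weight bounds of configurations.
-/

namespace Pool.Agent.ColorLog

open Finset BigOperators
open scoped Classical
open Pool.Agent.ColorRef

set_option linter.unusedSectionVars false

variable {n : ℕ} {k : ℕ} [NeZero k]

/-- The union of `S` with its gadgets. -/
noncomputable def Ue (S : Finset (Pair n)) (φ : Pair n → St n) : Finset (Pair n) :=
  S ∪ (Tset S φ).biUnion (fun e => hs (φ e))

lemma fin_subset_uni (L : List (Pair n × Finset (Pair n))) :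
    ∀ S U : Finset (Pair n), S ⊆ U → fin S L ⊆ uni U L := by
  induction L with
  | nil => intro S U h; exact h
  | cons p L ih =>
    intro S U h
    apply ih
    intro e he
    rw [mem_symmDiff] at he
    rw [mem_union]
    rcases he with he | he
    · exact Or.inl (h he.1)
    · exact Or.inr he.1

lemma uni_uni_LT (S A : Finset (Pair n)) (φ : Pair n → St n) (hA : A ⊆ Tset S φ) :
    uni (uni S (LT (Tset S φ \ A) φ)) (LT A φ) = Ue S φ := by
  ext e
  rw [mem_uni, mem_uni, Ue, mem_union, mem_biUnion]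
  constructor
  · rintro ((h | ⟨p, hp, h⟩) | ⟨p, hp, h⟩)
    · exact Or.inl h
    · obtain ⟨f, hf, rfl⟩ := mem_LT.1 hp
      exact Or.inr ⟨f, (mem_sdiff.1 hf).1, h⟩
    · obtain ⟨f, hf, rfl⟩ := mem_LT.1 hp
      exact Or.inr ⟨f, hA hf, h⟩
  · rintro (h | ⟨f, hf, h⟩)
    · exact Or.inl (Or.inl h)
    · by_cases hfA : f ∈ A
      · exact Or.inr ⟨_, mem_LT.2 ⟨f, hfA, rfl⟩, h⟩
      · exact Or.inl (Or.inr ⟨_, mem_LT.2 ⟨f, mem_sdiff.2 ⟨hf, hfA⟩, rfl⟩, h⟩)

lemma act_le_length (L : List (Pair n × Finset (Pair n))) :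
    ∀ S : Finset (Pair n), act S L ≤ L.length := by
  induction L with
  | nil => intro S; simp [act]
  | cons p L ih =>
    intro S
    have := ih (symmDiff S p.2)
    rw [act, List.length_cons]
    split_ifs <;> omega

/-- The number of active steps together with the number of corrections. -/
noncomputable def bb (S A : Finset (Pair n)) (φ : Pair n → St n) : ℕ :=
  act S (LT (Tset S φ \ A) φ) + A.card

lemma bb_le {S A : Finset (Pair n)} {φ : Pair n → St n} (hA : A ⊆ Tset S φ) :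
    bb S A φ ≤ S.card := by
  have h1 := act_le_length (LT (Tset S φ \ A) φ) S
  rw [length_LT] at h1
  have h2 : (Tset S φ \ A).card + A.card = (Tset S φ).card := card_sdiff_add_card_eq_card hA
  have h3 : (Tset S φ).card ≤ S.card := card_le_card (tset_subset S φ)
  unfold bb
  omega

theorem group_ineq {D : ℕ} {S A : Finset (Pair n)} {φ : Pair n → St n} (h : Ok k D S φ)
    (hA : A ⊆ Tset S φ) (hblk : ∀ e ∈ Tset S φ \ A, Blk (hs (φ e))) :
    nc (Mset S φ) + nc S + (Tset S φ \ A).card + bb S A φ ≤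
      2 * nc (Ue S φ) + ∑ e ∈ Tset S φ, (vset (hs (φ e))).card := by
  set L0 := LT (Tset S φ \ A) φ with hL0
  have h0 := E0 L0 S S (Subset.refl _) (by
    intro p hp
    obtain ⟨e, he, rfl⟩ := mem_LT.1 hp
    have heT := (mem_sdiff.1 he).1
    exact ⟨hblk e he, (h.gadm e heT).2, tset_subset S φ heT⟩)
    (h.pairwise sdiff_subset)
  have h1 := E1 (LT A φ) (fin S L0) (uni S L0) (fin_subset_uni L0 S S (Subset.refl _)) (by
    intro p hp
    obtain ⟨e, he, rfl⟩ := mem_LT.1 hp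
    exact (mem_gd.1 (h.gadm e (hA he)).1).1)
  rw [h.fin_split hA, uni_uni_LT S A φ hA, length_LT,
    sum_LT A φ (fun H => (vset H).card)] at h1
  rw [hL0, length_LT, sum_LT _ φ (fun H => (vset H).card), ← hL0] at h0
  have h2 : ∑ e ∈ Tset S φ \ A, (vset (hs (φ e))).card + ∑ e ∈ A, (vset (hs (φ e))).card =
      ∑ e ∈ Tset S φ, (vset (hs (φ e))).card := sum_sdiff hA
  unfold bb
  rw [← hL0]
  omega

theorem sum_gadget_card {D : ℕ} {S A : Finset (Pair n)} {φ : Pair n → St n} (h : Ok k D S φ)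
    (hA : A ⊆ Tset S φ) :
    ∑ e ∈ Tset S φ, (hs (φ e)).card ≤ S.card + 2 * D * bb S A φ := by
  have h1 := sum_card_le D (LT (Tset S φ \ A) φ) S (by
    intro p hp
    obtain ⟨e, he, rfl⟩ := mem_LT.1 hp
    exact (mem_gd.1 (h.gadm e (mem_sdiff.1 he).1).1).2)
  rw [sum_LT _ φ (fun H => H.card)] at h1
  have h2 : ∑ e ∈ Tset S φ \ A, (hs (φ e)).card + ∑ e ∈ A, (hs (φ e)).card =
      ∑ e ∈ Tset S φ, (hs (φ e)).card := sum_sdiff hA
  have h3 : ∑ e ∈ A, (hs (φ e)).card ≤ A.card * D := by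
    rw [← smul_eq_mul, ← sum_const]
    exact sum_le_sum (fun e he => (mem_gd.1 (h.gadm e (hA he)).1).2)
  unfold bb
  nlinarith

/-- Weight bound for one group. -/
theorem GB {D : ℕ} {S A : Finset (Pair n)} {φ : Pair n → St n} (h : Ok k D S φ)
    (hA : A ⊆ Tset S φ) (hblk : ∀ e ∈ Tset S φ \ A, Blk (hs (φ e)))
    (x : Pair n → ℝ) (C : ℝ) (hC : 1 ≤ C) (hx0 : ∀ e ∈ Tset S φ, 0 ≤ x e)
    (hx1 : ∀ e ∈ Tset S φ \ A,
      x e * (k : ℝ) ^ (vset (hs (φ e))).card ≤ 8 ^ (hs (φ e)).card * k)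
    (hx2 : ∀ e ∈ A, x e * (k : ℝ) ^ (vset (hs (φ e))).card ≤ C) :
    (∏ e ∈ Tset S φ, x e) * pm k (Mset S φ) * (k : ℝ) ^ (n + nc S + bb S A φ) ≤
      8 ^ (S.card + 2 * D * bb S A φ) * C ^ bb S A φ * (k : ℝ) ^ (2 * nc (Ue S φ)) := by
  have hk0 := kpos (k := k)
  have hk1 : (1 : ℝ) ≤ k := by
    exact_mod_cast Nat.one_le_iff_ne_zero.2 (NeZero.ne k)
  set V := ∑ e ∈ Tset S φ, (vset (hs (φ e))).card with hV
  have hprod : (∏ e ∈ Tset S φ, x e) * (k : ℝ) ^ V ≤
      8 ^ (∑ e ∈ Tset S φ, (hs (φ e)).card) * (k : ℝ) ^ (Tset S φ \ A).card * C ^ A.card := by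
    rw [hV, ← prod_pow_eq_pow_sum, ← prod_mul_distrib]
    have h2 : ∏ e ∈ Tset S φ, x e * (k : ℝ) ^ (vset (hs (φ e))).card =
        (∏ e ∈ Tset S φ \ A, x e * (k : ℝ) ^ (vset (hs (φ e))).card) *
          ∏ e ∈ A, x e * (k : ℝ) ^ (vset (hs (φ e))).card := (prod_sdiff hA).symm
    rw [h2]
    have h3 : ∏ e ∈ Tset S φ \ A, x e * (k : ℝ) ^ (vset (hs (φ e))).card ≤
        8 ^ (∑ e ∈ Tset S φ, (hs (φ e)).card) * (k : ℝ) ^ (Tset S φ \ A).card := by
      calc ∏ e ∈ Tset S φ \ A, x e * (k : ℝ) ^ (vset (hs (φ e))).card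
          ≤ ∏ e ∈ Tset S φ \ A, ((8 : ℝ) ^ (hs (φ e)).card * k) := by
            apply prod_le_prod
            · intro e he
              exact mul_nonneg (hx0 e (mem_sdiff.1 he).1) (by positivity)
            · exact hx1
        _ = 8 ^ (∑ e ∈ Tset S φ \ A, (hs (φ e)).card) * (k : ℝ) ^ (Tset S φ \ A).card := by
            rw [prod_mul_distrib, prod_pow_eq_pow_sum, prod_const]
        _ ≤ _ := by
            have h5 : ∑ e ∈ Tset S φ \ A, (hs (φ e)).card ≤ ∑ e ∈ Tset S φ, (hs (φ e)).card :=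
              sum_le_sum_of_subset sdiff_subset
            gcongr
            norm_num
    have h4 : ∏ e ∈ A, x e * (k : ℝ) ^ (vset (hs (φ e))).card ≤ C ^ A.card := by
      calc ∏ e ∈ A, x e * (k : ℝ) ^ (vset (hs (φ e))).card ≤ ∏ e ∈ A, C := by
            apply prod_le_prod
            · intro e he
              exact mul_nonneg (hx0 e (hA he)) (by positivity)
            · exact hx2
        _ = _ := by rw [prod_const]
    apply mul_le_mul h3 h4
    · exact prod_nonneg (fun e he => mul_nonneg (hx0 e (hA he)) (by positivity))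
    · positivity
  have hpm : pm k (Mset S φ) * (k : ℝ) ^ n ≤ (k : ℝ) ^ nc (Mset S φ) := by
    have := pm_le (k := k) (Mset S φ)
    rw [le_div_iff₀ (by positivity)] at this
    exact this
  have hsum := sum_gadget_card h hA
  have hg := group_ineq h hA hblk
  rw [← hV] at hg
  have hP0 : 0 ≤ (∏ e ∈ Tset S φ, x e) * (k : ℝ) ^ V :=
    mul_nonneg (prod_nonneg hx0) (by positivity)
  have hb : A.card ≤ bb S A φ := by unfold bb; omega
  apply le_of_mul_le_mul_right _ (show (0 : ℝ) < (k : ℝ) ^ V by positivity)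
  calc (∏ e ∈ Tset S φ, x e) * pm k (Mset S φ) * (k : ℝ) ^ (n + nc S + bb S A φ) * (k : ℝ) ^ V
      = ((∏ e ∈ Tset S φ, x e) * (k : ℝ) ^ V) * (pm k (Mset S φ) * (k : ℝ) ^ n) *
          (k : ℝ) ^ (nc S + bb S A φ) := by
        rw [pow_add, pow_add, pow_add]; ring
    _ ≤ (8 ^ (∑ e ∈ Tset S φ, (hs (φ e)).card) * (k : ℝ) ^ (Tset S φ \ A).card * C ^ A.card) *
          (k : ℝ) ^ nc (Mset S φ) * (k : ℝ) ^ (nc S + bb S A φ) := by
        apply mul_le_mul_of_nonneg_right _ (by positivity)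
        apply mul_le_mul hprod hpm
        · exact mul_nonneg (pm_nonneg k _) (by positivity)
        · positivity
    _ = 8 ^ (∑ e ∈ Tset S φ, (hs (φ e)).card) * C ^ A.card *
          (k : ℝ) ^ (nc (Mset S φ) + nc S + (Tset S φ \ A).card + bb S A φ) := by
        rw [pow_add, pow_add, pow_add, pow_add]; ring
    _ ≤ 8 ^ (S.card + 2 * D * bb S A φ) * C ^ bb S A φ *
          (k : ℝ) ^ (2 * nc (Ue S φ) + V) := by
        have e1 : (8 : ℝ) ^ (∑ e ∈ Tset S φ, (hs (φ e)).card) ≤ 8 ^ (S.card + 2 * D * bb S A φ) :=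
          pow_le_pow_right₀ (by norm_num) hsum
        have e2 : C ^ A.card ≤ C ^ bb S A φ := pow_le_pow_right₀ hC hb
        have e3 : (k : ℝ) ^ (nc (Mset S φ) + nc S + (Tset S φ \ A).card + bb S A φ) ≤
            (k : ℝ) ^ (2 * nc (Ue S φ) + V) := pow_le_pow_right₀ hk1 hg
        have hC0 : (0 : ℝ) ≤ C := by linarith
        apply mul_le_mul _ e3 (by positivity) (by positivity)
        apply mul_le_mul e1 e2 (by positivity) (by positivity)
    _ = _ := by rw [pow_add (k : ℝ)]; ring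

/-- The extra vertices. -/
noncomputable def Ie (S : Finset (Pair n)) (φ : Pair n → St n) : Finset (Fin n) :=
  vset (Ue S φ) \ vset S

lemma subset_Ue (S : Finset (Pair n)) (φ : Pair n → St n) : S ⊆ Ue S φ := subset_union_left

lemma hs_subset_Ue {S : Finset (Pair n)} {φ : Pair n → St n} {e : Pair n} (he : e ∈ Tset S φ) :
    hs (φ e) ⊆ Ue S φ := by
  intro f hf
  exact mem_union_right _ (mem_biUnion.2 ⟨e, he, hf⟩)

lemma card_vset_Ue (S : Finset (Pair n)) (φ : Pair n → St n) :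
    (vset (Ue S φ)).card = (vset S).card + (Ie S φ).card := by
  unfold Ie
  rw [add_comm]
  exact (card_sdiff_add_card_eq_card (vset_mono (subset_Ue S φ))).symm

lemma mem_vset_Ue {S : Finset (Pair n)} {φ : Pair n → St n} {v : Fin n} :
    v ∈ vset (Ue S φ) ↔ v ∈ vset S ∨ ∃ e ∈ Tset S φ, v ∈ vset (hs (φ e)) := by
  unfold Ue
  rw [vset_union, mem_union]
  constructor
  · rintro (h | h)
    · exact Or.inl h
    · obtain ⟨f, hf, h2⟩ := mem_vset.1 h
      obtain ⟨e, he, h3⟩ := mem_biUnion.1 hf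
      exact Or.inr ⟨e, he, mem_vset.2 ⟨f, h3, h2⟩⟩
  · rintro (h | ⟨e, he, h⟩)
    · exact Or.inl h
    · obtain ⟨f, hf, h2⟩ := mem_vset.1 h
      exact Or.inr (mem_vset.2 ⟨f, mem_biUnion.2 ⟨e, he, hf⟩, h2⟩)

lemma cn_Ue {D : ℕ} {S : Finset (Pair n)} {φ : Pair n → St n} (hS : Cn S) (h : Ok k D S φ) :
    Cn (Ue S φ) := by
  refine ⟨hS.1.mono (subset_Ue S φ), ?_⟩
  obtain ⟨e0, he0⟩ := hS.1
  have key : ∀ v ∈ vset (Ue S φ), Conn (Ue S φ) e0.1.1 v := by
    intro v hv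
    rcases mem_vset_Ue.1 hv with hv | ⟨e, he, hv⟩
    · exact (hS.2 _ (fst_mem_vset he0) v hv).mono (subset_Ue S φ)
    · have h1 : Conn (Ue S φ) e0.1.1 e.1.1 :=
        (hS.2 _ (fst_mem_vset he0) _ (fst_mem_vset (tset_subset S φ he))).mono (subset_Ue S φ)
      have h2 := h.gadm e he
      have h3 : Conn (Ue S φ) e.1.1 v :=
        ((mem_gd.1 h2.1).1.2 _ (fst_mem_vset h2.2) v hv).mono (hs_subset_Ue he)
      exact h1.trans h3
  intro u hu v hv
  exact (key u hu).symm.trans (key v hv)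

/-- Weight bound for a connected graph. -/
theorem GB_conn {D : ℕ} {S A : Finset (Pair n)} {φ : Pair n → St n} (hS : Cn S)
    (h : Ok k D S φ)
    (hA : A ⊆ Tset S φ) (hblk : ∀ e ∈ Tset S φ \ A, Blk (hs (φ e)))
    (x : Pair n → ℝ) (C : ℝ) (hC : 1 ≤ C) (hx0 : ∀ e ∈ Tset S φ, 0 ≤ x e)
    (hx1 : ∀ e ∈ Tset S φ \ A,
      x e * (k : ℝ) ^ (vset (hs (φ e))).card ≤ 8 ^ (hs (φ e)).card * k)
    (hx2 : ∀ e ∈ A, x e * (k : ℝ) ^ (vset (hs (φ e))).card ≤ C) :
    (∏ e ∈ Tset S φ, x e) * pm k (Mset S φ) *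
        (k : ℝ) ^ ((vset S).card + 2 * (Ie S φ).card + bb S A φ) ≤
      8 ^ (S.card + 2 * D * bb S A φ) * C ^ bb S A φ * (k : ℝ) := by
  have hk0 := kpos (k := k)
  have h1 := GB h hA hblk x C hC hx0 hx1 hx2
  have h2 := nc_cn hS
  have h3 := nc_cn (cn_Ue hS h)
  have h4 := card_vset_Ue S φ
  set P := (∏ e ∈ Tset S φ, x e) * pm k (Mset S φ) with hP
  set Q := (8 : ℝ) ^ (S.card + 2 * D * bb S A φ) * C ^ bb S A φ with hQ
  apply le_of_mul_le_mul_right _ (show (0 : ℝ) < (k : ℝ) ^ (2 * n + 1) by positivity)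
  have h5 : n + nc S + bb S A φ + 2 * (vset (Ue S φ)).card =
      ((vset S).card + 2 * (Ie S φ).card + bb S A φ) + (2 * n + 1) := by omega
  have h6 : 2 * nc (Ue S φ) + 2 * (vset (Ue S φ)).card = 1 + (2 * n + 1) := by omega
  calc P * (k : ℝ) ^ ((vset S).card + 2 * (Ie S φ).card + bb S A φ) * (k : ℝ) ^ (2 * n + 1)
      = P * (k : ℝ) ^ (n + nc S + bb S A φ) * (k : ℝ) ^ (2 * (vset (Ue S φ)).card) := by
        rw [mul_assoc, ← pow_add, ← h5, pow_add]; ring
    _ ≤ Q * (k : ℝ) ^ (2 * nc (Ue S φ)) * (k : ℝ) ^ (2 * (vset (Ue S φ)).card) := by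
        apply mul_le_mul_of_nonneg_right h1 (by positivity)
    _ = Q * ((k : ℝ) ^ (1 + (2 * n + 1))) := by rw [mul_assoc, ← pow_add, h6]
    _ = _ := by rw [pow_add]; ring

end Pool.Agent.ColorLog
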