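import Pool.Agent.ColorLog.Bnd

namespace Pool.Agent.ColorLog

open Finset BigOperators
open scoped Classical
open Pool.Agent.ColorRef

set_option linter.unusedSectionVars false

/-- Size of the corrections. -/
noncomputable def Cd (D : ℕ) : ℝ := 48 * 2 ^ D * Yc D ^ 2

/-- Constant for the disconnected graphs. -/
noncomputable def Zc (D : ℕ) : ℝ := 288 * 4 ^ D * Yc D ^ 4

/-- Put `X = 520 D^5`, so `Yc D = X ^ (2 D)`, `n ≥ X ^ (46 D)` and `k ≥ X ^ (23 D)`. All bounds are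
crude: `2 ^ D, 4 ^ D, 8 ^ D, 16 ^ D, (4 D^2 + 1) ^ D ≤ X ^ D`, `2 D + 1 ≤ X`,
`8 D (3 (D+1)^2) + 2 ≤ 98 D^3`, hence the base of the fifth item is at most `X ^ 2`, and so on. -/
theorem star_k {D n k : ℕ} (hD : 1 ≤ D) (hnk : n ≤ k ^ 2)
    (h : (520 * (D : ℝ) ^ 5) ^ (46 * D) ≤ n) :
    8 * D ^ 2 ≤ k ∧ 2 * (Yc D * Cd D) ≤ k ∧
      4 * D * (6 * 2 ^ D * Yc D ^ 3 * Cd D * 2 ^ (D + 1)) ≤ k ∧ 6 ≤ n ∧
      ((8 : ℝ) ^ D * (((8 * D * (3 * (D + 1) ^ 2) + 2) ^ 2 + 1) ^ D : ℕ)) ^ 4 ≤ n ∧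
      4 * (2 * (Zc D ^ 2 * ((2 * D + 1) * (4 * (D : ℝ) ^ 2 + 1) ^ D)) + 18) ≤ Real.sqrt n := by
  have hY : Yc D = (520 * (D : ℝ) ^ 5) ^ (2 * D) := rfl
  have hDr : (1 : ℝ) ≤ D := by exact_mod_cast hD
  have hD2 : (1 : ℝ) ≤ (D : ℝ) ^ 2 := one_le_pow₀ hDr
  have hD3 : (1 : ℝ) ≤ (D : ℝ) ^ 3 := one_le_pow₀ hDr
  have hD4 : (1 : ℝ) ≤ (D : ℝ) ^ 4 := one_le_pow₀ hDr
  have hD5 : (D : ℝ) ^ 2 ≤ (D : ℝ) ^ 5 := pow_le_pow_right₀ hDr (by norm_num)
  have hD51 : (D : ℝ) ≤ (D : ℝ) ^ 5 := le_self_pow₀ hDr (by norm_num)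
  set X : ℝ := 520 * (D : ℝ) ^ 5 with hX
  have hX520 : 520 ≤ X := by nlinarith
  have hX1 : 1 ≤ X := by linarith
  have hX0 : 0 ≤ X := by linarith
  have hXpos : 0 < X := by linarith
  -- monotone powers
  have hmono : ∀ {a b : ℕ}, a ≤ b → X ^ a ≤ X ^ b := fun hab => pow_le_pow_right₀ hX1 hab
  have hk : X ^ (23 * D) ≤ (k : ℝ) := by
    have h1 : (X ^ (23 * D)) ^ 2 ≤ (k : ℝ) ^ 2 := by
      rw [← pow_mul]
      have h2 : (n : ℝ) ≤ (k : ℝ) ^ 2 := by exact_mod_cast hnk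
      have h3 : 23 * D * 2 = 46 * D := by ring
      rw [h3]
      exact h.trans h2
    exact le_of_sq_le_sq h1 (Nat.cast_nonneg _)
  have hsq : X ^ (23 * D) ≤ Real.sqrt n := by
    apply Real.le_sqrt_of_sq_le
    rw [← pow_mul]
    have h3 : 23 * D * 2 = 46 * D := by ring
    rw [h3]
    exact h
  have e2 : (2 : ℝ) ^ D ≤ X ^ D := pow_le_pow_left₀ (by norm_num) (by linarith) D
  have e4 : (4 : ℝ) ^ D ≤ X ^ D := pow_le_pow_left₀ (by norm_num) (by linarith) D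
  have e8 : (8 : ℝ) ^ D ≤ X ^ D := pow_le_pow_left₀ (by norm_num) (by linarith) D
  have e16 : (16 : ℝ) ^ D ≤ X ^ D := pow_le_pow_left₀ (by norm_num) (by linarith) D
  have eq4 : (4 * (D : ℝ) ^ 2 + 1) ^ D ≤ X ^ D := by
    apply pow_le_pow_left₀ (by positivity)
    nlinarith
  have e1 : (2 * (D : ℝ) + 1) ≤ X := by nlinarith
  have hXD : X ≤ X ^ D := le_self_pow₀ hX1 (by omega)
  refine ⟨?_, ?_, ?_, ?_, ?_, ?_⟩
  · have h1 : (8 * (D : ℝ) ^ 2) ≤ X := by nlinarith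
    have h2 : X ≤ X ^ (23 * D) := le_self_pow₀ hX1 (by omega)
    have h3 : (8 * (D : ℝ) ^ 2) ≤ k := h1.trans (h2.trans hk)
    exact_mod_cast h3
  · refine le_trans ?_ hk
    rw [Cd, hY]
    calc 2 * (X ^ (2 * D) * (48 * 2 ^ D * (X ^ (2 * D)) ^ 2))
        = 96 * 2 ^ D * X ^ (6 * D) := by
          rw [show 6 * D = 2 * D * 3 by ring, pow_mul X (2 * D) 3]; ring
      _ ≤ X * X ^ D * X ^ (6 * D) := by
          apply mul_le_mul_of_nonneg_right _ (by positivity)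
          exact mul_le_mul (by linarith) e2 (by positivity) hX0
      _ = X ^ (1 + D + 6 * D) := by rw [pow_add, pow_add, pow_one]
      _ ≤ X ^ (23 * D) := hmono (by omega)
  · refine le_trans ?_ hk
    rw [Cd, hY]
    calc 4 * (D : ℝ) * (6 * 2 ^ D * (X ^ (2 * D)) ^ 3 * (48 * 2 ^ D * (X ^ (2 * D)) ^ 2) *
          2 ^ (D + 1))
        = (2304 * D) * (2 ^ D * 2 ^ D * 2 ^ D) * X ^ (10 * D) := by
          rw [show 10 * D = 2 * D * 5 by ring, pow_mul X (2 * D) 5]; ring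
      _ ≤ (X ^ 2) * (X ^ D * X ^ D * X ^ D) * X ^ (10 * D) := by
          apply mul_le_mul_of_nonneg_right _ (by positivity)
          apply mul_le_mul _ _ (by positivity) (by positivity)
          · have h1 : (2304 * (D : ℝ)) ≤ 520 * X := by nlinarith
            nlinarith
          · exact mul_le_mul (mul_le_mul e2 e2 (by positivity) (by positivity)) e2
              (by positivity) (by positivity)
      _ = X ^ (2 + (D + D + D) + 10 * D) := by simp only [pow_add]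
      _ ≤ X ^ (23 * D) := hmono (by omega)
  · have h1 : X ≤ X ^ (46 * D) := le_self_pow₀ hX1 (by omega)
    have h2 : (6 : ℝ) ≤ n := by linarith
    exact_mod_cast h2
  · refine le_trans ?_ h
    have hb : (((8 * D * (3 * (D + 1) ^ 2) + 2) ^ 2 + 1 : ℕ) : ℝ) ≤ X ^ 2 := by
      push_cast
      have h1 : 8 * (D : ℝ) * (3 * ((D : ℝ) + 1) ^ 2) + 2 ≤ 98 * (D : ℝ) ^ 3 := by
        have h2 : ((D : ℝ) + 1) ≤ 2 * D := by linarith
        have h3 : ((D : ℝ) + 1) ^ 2 ≤ (2 * (D : ℝ)) ^ 2 := pow_le_pow_left₀ (by positivity) h2 2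
        have h4 : 8 * (D : ℝ) * (3 * ((D : ℝ) + 1) ^ 2) ≤
            8 * (D : ℝ) * (3 * (2 * (D : ℝ)) ^ 2) := by
          apply mul_le_mul_of_nonneg_left _ (by positivity)
          linarith
        nlinarith
      have h5 : (8 * (D : ℝ) * (3 * ((D : ℝ) + 1) ^ 2) + 2) ^ 2 ≤ (98 * (D : ℝ) ^ 3) ^ 2 :=
        pow_le_pow_left₀ (by positivity) h1 2
      have h6 : (98 * (D : ℝ) ^ 3) ^ 2 + 1 ≤ X ^ 2 := by
        have h7 : X ^ 2 = 270400 * ((D : ℝ) ^ 3) ^ 2 * (D : ℝ) ^ 4 := by rw [hX]; ring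
        rw [h7]
        have h8 : 1 ≤ ((D : ℝ) ^ 3) ^ 2 := one_le_pow₀ hD3
        nlinarith
      linarith
    have h1 : ((((8 * D * (3 * (D + 1) ^ 2) + 2) ^ 2 + 1) ^ D : ℕ) : ℝ) ≤ X ^ (2 * D) := by
      rw [Nat.cast_pow, pow_mul]
      exact pow_le_pow_left₀ (Nat.cast_nonneg _) hb D
    calc ((8 : ℝ) ^ D * (((8 * D * (3 * (D + 1) ^ 2) + 2) ^ 2 + 1) ^ D : ℕ)) ^ 4
        ≤ (X ^ D * X ^ (2 * D)) ^ 4 := by
          apply pow_le_pow_left₀ (by positivity)
          exact mul_le_mul e8 h1 (Nat.cast_nonneg _) (by positivity)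
      _ = X ^ ((D + 2 * D) * 4) := by rw [← pow_add, ← pow_mul]
      _ ≤ X ^ (46 * D) := hmono (by omega)
  · refine le_trans ?_ hsq
    have h1 : Zc D ^ 2 = 82944 * 16 ^ D * X ^ (16 * D) := by
      have h16 : (16 : ℝ) ^ D = 4 ^ D * 4 ^ D := by
        rw [← mul_pow]; norm_num
      rw [Zc, hY, h16, show 16 * D = 2 * D * 8 by ring, pow_mul X (2 * D) 8]
      ring
    have h2 : 8 * (Zc D ^ 2 * ((2 * D + 1) * (4 * (D : ℝ) ^ 2 + 1) ^ D)) ≤
        X ^ (4 + 18 * D) := by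
      rw [h1]
      calc 8 * (82944 * 16 ^ D * X ^ (16 * D) * ((2 * (D : ℝ) + 1) *
            (4 * (D : ℝ) ^ 2 + 1) ^ D))
          = 663552 * (16 ^ D * ((2 * (D : ℝ) + 1) * (4 * (D : ℝ) ^ 2 + 1) ^ D)) *
            X ^ (16 * D) := by ring
        _ ≤ X ^ 3 * (X ^ D * (X * X ^ D)) * X ^ (16 * D) := by
            apply mul_le_mul_of_nonneg_right _ (by positivity)
            apply mul_le_mul _ _ (by positivity) (by positivity)
            · have h3 : (520 : ℝ) ^ 3 ≤ X ^ 3 := pow_le_pow_left₀ (by norm_num) hX520 3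
              nlinarith
            · apply mul_le_mul e16 _ (by positivity) (by positivity)
              exact mul_le_mul e1 eq4 (by positivity) (by positivity)
        _ = X ^ (3 + (D + (1 + D)) + 16 * D) := by simp only [pow_add, pow_one]
        _ = X ^ (4 + 18 * D) := by congr 1; omega
    have h4 : 1 ≤ X ^ (4 + 18 * D) := one_le_pow₀ hX1
    have h5 : X ^ (4 + 18 * D) + 72 ≤ X ^ (5 + 18 * D) := by
      rw [show 5 + 18 * D = (4 + 18 * D) + 1 by ring, pow_succ]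
      nlinarith
    calc 4 * (2 * (Zc D ^ 2 * ((2 * D + 1) * (4 * (D : ℝ) ^ 2 + 1) ^ D)) + 18)
        = 8 * (Zc D ^ 2 * ((2 * D + 1) * (4 * (D : ℝ) ^ 2 + 1) ^ D)) + 72 := by ring
      _ ≤ X ^ (4 + 18 * D) + 72 := by linarith
      _ ≤ X ^ (5 + 18 * D) := h5
      _ ≤ X ^ (23 * D) := hmono (by omega)

/-- For `D ≤ L / (300 log L)`, `L = log n` large: `46 D log (520 D^5) ≤ 46 D (log 520 + 5 log L)`
`≤ 276 D log L ≤ L` (first replace `D` by `max D 1`, which also satisfies the bound for large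
`n`). -/
theorem exists_threshold : ∃ n0 : ℕ, ∀ n ≥ n0, ∀ D : ℕ,
    (D : ℝ) ≤ 1 / 300 * (Real.log n / Real.log (Real.log n)) →
    (520 * ((max D 1 : ℕ) : ℝ) ^ 5) ^ (46 * max D 1) ≤ n := by
  have hlim : Filter.Tendsto (fun n : ℕ => Real.log (n : ℝ)) Filter.atTop Filter.atTop :=
    Real.tendsto_log_atTop.comp tendsto_natCast_atTop_atTop
  have hev1 : ∀ᶠ L : ℝ in Filter.atTop, 300 * Real.log L ≤ L := by
    have := (Real.isLittleO_log_id_atTop).def (c := 1 / 300) (by norm_num)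
    filter_upwards [this, Filter.eventually_ge_atTop (1 : ℝ)] with L hL hL1
    rw [Real.norm_eq_abs, Real.norm_eq_abs, id, abs_of_nonneg (Real.log_nonneg hL1),
      abs_of_nonneg (by linarith)] at hL
    linarith
  have hev2 : ∀ᶠ L : ℝ in Filter.atTop, Real.log 520 ≤ Real.log L := by
    filter_upwards [Filter.eventually_ge_atTop (520 : ℝ)] with L hL
    exact Real.log_le_log (by norm_num) hL
  have hev3 : ∀ᶠ L : ℝ in Filter.atTop, 1 ≤ Real.log L :=
    Real.tendsto_log_atTop.eventually_ge_atTop 1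
  have hev4 : ∀ᶠ L : ℝ in Filter.atTop, (1 : ℝ) ≤ L := Filter.eventually_ge_atTop 1
  obtain ⟨n0, hn0⟩ := Filter.eventually_atTop.1
    (hlim.eventually (hev1.and (hev2.and (hev3.and hev4))))
  refine ⟨max n0 1, fun n hn D hD => ?_⟩
  obtain ⟨h1, h2, h3, h4⟩ := hn0 n (le_trans (le_max_left _ _) hn)
  have hn1 : 1 ≤ n := le_trans (le_max_right _ _) hn
  have hnpos : (0 : ℝ) < n := by exact_mod_cast hn1
  set L : ℝ := Real.log n with hL
  set m : ℕ := max D 1 with hm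
  have hm1 : 1 ≤ m := le_max_right _ _
  have hmr : (1 : ℝ) ≤ m := by exact_mod_cast hm1
  have hll : 0 < Real.log L := by linarith
  have hm300 : (m : ℝ) * (300 * Real.log L) ≤ L := by
    rcases le_total D 1 with hle | hle
    · have : m = 1 := by rw [hm]; exact max_eq_right hle
      rw [this]; push_cast; linarith
    · have : m = D := by rw [hm]; exact max_eq_left hle
      rw [this]
      have h5 : (D : ℝ) ≤ 1 / 300 * (L / Real.log L) := hD
      have h6 : (D : ℝ) * (300 * Real.log L) ≤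
          1 / 300 * (L / Real.log L) * (300 * Real.log L) :=
        mul_le_mul_of_nonneg_right h5 (by positivity)
      have h7 : 1 / 300 * (L / Real.log L) * (300 * Real.log L) = L := by
        field_simp
      linarith
  have hmL : (m : ℝ) ≤ L := by nlinarith
  have hlogm : Real.log m ≤ Real.log L := Real.log_le_log (by linarith) hmL
  have hpos : (0 : ℝ) < (520 * (m : ℝ) ^ 5) ^ (46 * m) := by positivity
  rw [← Real.log_le_log_iff hpos hnpos, Real.log_pow, Real.log_mul (by norm_num) (by positivity),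
    Real.log_pow]
  push_cast
  have h8 : Real.log 520 + 5 * Real.log m ≤ 6 * Real.log L := by linarith
  have h9 : 46 * (m : ℝ) * (Real.log 520 + 5 * Real.log m) ≤ 46 * (m : ℝ) * (6 * Real.log L) :=
    mul_le_mul_of_nonneg_left h8 (by positivity)
  have h10 : 0 ≤ (m : ℝ) * Real.log L := by positivity
  calc 46 * (m : ℝ) * (Real.log 520 + 5 * Real.log m) ≤ 46 * (m : ℝ) * (6 * Real.log L) := h9
    _ = 276 * ((m : ℝ) * Real.log L) := by ring
    _ ≤ 300 * ((m : ℝ) * Real.log L) := by linarith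
    _ = (m : ℝ) * (300 * Real.log L) := by ring
    _ ≤ L := hm300

end Pool.Agent.ColorLog
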