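import Pool.Agent.ColorLog.Defs

namespace Pool.Agent.ColorLog

open Finset BigOperators
open scoped Classical
open Pool.Agent.ColorRef

set_option linter.unusedSectionVars false

variable {n : ℕ}

/-- Number of connectivity classes of the graph `G` on all `n` vertices. -/
noncomputable def nc (G : Finset (Pair n)) : ℕ := ncl G univ

lemma conn_insert {G : Finset (Pair n)} {e : Pair n} {u v : Fin n}
    (h : Conn (insert e G) u v) :
    Conn G u v ∨ (Conn G u e.1.1 ∧ Conn G e.1.2 v) ∨ (Conn G u e.1.2 ∧ Conn G e.1.1 v) := by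
  refine Conn.ind (G := insert e G) (fun x y => Conn G x y ∨ (Conn G x e.1.1 ∧ Conn G e.1.2 y) ∨
    (Conn G x e.1.2 ∧ Conn G e.1.1 y)) ⟨fun x => Or.inl (Conn.refl _ _), ?_, ?_⟩ ?_ h
  · rintro x y (h1 | ⟨h1, h2⟩ | ⟨h1, h2⟩)
    · exact Or.inl h1.symm
    · exact Or.inr (Or.inr ⟨h2.symm, h1.symm⟩)
    · exact Or.inr (Or.inl ⟨h2.symm, h1.symm⟩)
  · rintro x y z (h1 | ⟨h1, h2⟩ | ⟨h1, h2⟩) (h3 | ⟨h3, h4⟩ | ⟨h3, h4⟩)
    · exact Or.inl (h1.trans h3)
    · exact Or.inr (Or.inl ⟨h1.trans h3, h4⟩)
    · exact Or.inr (Or.inr ⟨h1.trans h3, h4⟩)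
    · exact Or.inr (Or.inl ⟨h1, h2.trans h3⟩)
    · exact Or.inl ((h1.trans (h2.trans h3).symm).trans h4)
    · exact Or.inl (h1.trans h4)
    · exact Or.inr (Or.inr ⟨h1, h2.trans h3⟩)
    · exact Or.inl (h1.trans h4)
    · exact Or.inl ((h1.trans (h2.trans h3).symm).trans h4)
  · intro f hf
    rcases mem_insert.1 hf with rfl | hf
    · exact Or.inr (Or.inl ⟨Conn.refl _ _, Conn.refl _ _⟩)
    · exact Or.inl (Conn.of_mem hf)

lemma nc_insert_conn {G : Finset (Pair n)} {e : Pair n} (h : Conn G e.1.1 e.1.2) :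
    nc (insert e G) = nc G := by
  have : cls (insert e G) = cls G := by
    funext v
    ext u
    rw [mem_cls, mem_cls]
    constructor
    · intro h1
      refine Conn.ind (G := insert e G) (fun x y => Conn G x y)
        ⟨fun x => Conn.refl _ _, fun h => h.symm, fun h h' => h.trans h'⟩ ?_ h1
      intro f hf
      rcases mem_insert.1 hf with rfl | hf
      · exact h
      · exact Conn.of_mem hf
    · exact Conn.mono (subset_insert _ _)
  rw [nc, nc, ncl, ncl, this]

lemma nc_insert_not {G : Finset (Pair n)} {e : Pair n} (h : ¬ Conn G e.1.1 e.1.2) :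
    nc (insert e G) + 1 = nc G := by
  have heG : e ∉ G := fun he => h (Conn.of_mem he)
  have hs : symmDiff G {e} = insert e G := by
    ext f
    rw [mem_symmDiff, mem_singleton, mem_insert]
    constructor
    · rintro (h1 | h1)
      · exact Or.inr h1.1
      · exact Or.inl h1.1
    · rintro (h1 | h1)
      · exact Or.inr ⟨h1, h1 ▸ heG⟩
      · exact Or.inl ⟨h1, fun h2 => heG (h2 ▸ h1)⟩
  have hv : vset ({e} : Finset (Pair n)) = {e.1.1, e.1.2} := by
    ext v
    rw [mem_vset]
    simp
  have h1 := ncl_split (S := G) (H := {e}) (X := {e.1.1, e.1.2}) (by rw [hv])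
  rw [hs] at h1
  have h2 : ncl G {e.1.1, e.1.2} = 2 := by
    rw [ncl, image_insert, image_singleton, card_pair]
    intro h3
    exact h (cls_eq_iff.1 h3)
  have h3 : ncl (insert e G) {e.1.1, e.1.2} = 1 := by
    have h4 : cls (insert e G) e.1.1 = cls (insert e G) e.1.2 :=
      cls_eq_iff.2 (Conn.of_mem (mem_insert_self _ _))
    rw [ncl, image_insert, image_singleton, h4]
    simp
  rw [nc, nc]
  omega

/-- Supermodularity: `r(A ∪ F) - r(A) ≥ r(B ∪ F) - r(B)` for `A ⊆ B`, `r = n - nc`. -/
lemma nc_marg {A B : Finset (Pair n)} (h : A ⊆ B) (F : Finset (Pair n)) :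
    nc B + nc (A ∪ F) ≤ nc A + nc (B ∪ F) := by
  induction F using Finset.induction_on with
  | empty => rw [union_empty, union_empty]; omega
  | insert e F _ ih =>
    rw [union_insert, union_insert]
    by_cases h1 : Conn (A ∪ F) e.1.1 e.1.2
    · have h2 : Conn (B ∪ F) e.1.1 e.1.2 := h1.mono (union_subset_union h Subset.rfl)
      rw [nc_insert_conn h1, nc_insert_conn h2]
      exact ih
    · have h2 := nc_insert_not h1
      by_cases h3 : Conn (B ∪ F) e.1.1 e.1.2
      · rw [nc_insert_conn h3]; omega
      · have h4 := nc_insert_not h3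
        omega

lemma nc_anti {A B : Finset (Pair n)} (h : A ⊆ B) : nc B ≤ nc A := by
  have key : ∀ F : Finset (Pair n), nc (A ∪ F) ≤ nc A := by
    intro F
    induction F using Finset.induction_on with
    | empty => rw [union_empty]
    | insert e F _ ih =>
      rw [union_insert]
      by_cases h1 : Conn (A ∪ F) e.1.1 e.1.2
      · rw [nc_insert_conn h1]; exact ih
      · have h2 := nc_insert_not h1
        omega
  have := key B
  rwa [union_eq_right.2 h] at this

lemma vset_empty' : vset (∅ : Finset (Pair n)) = ∅ := by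
  simp [vset]

lemma nc_empty : nc (∅ : Finset (Pair n)) = n := by
  rw [nc, ncl, card_image_of_injective]
  · simp
  · intro u v huv
    rw [cls_eq_singleton (by rw [vset_empty']; simp), cls_eq_singleton (by rw [vset_empty']; simp)]
      at huv
    exact singleton_injective huv

/-- General value: isolated vertices and classes. -/
lemma nc_eq (G : Finset (Pair n)) : nc G + (vset G).card = ncl G (vset G) + n := by
  have h1 := ncl_split (S := (∅ : Finset (Pair n))) (H := G) (X := vset G) Subset.rfl
  have h2 : symmDiff (∅ : Finset (Pair n)) G = G := by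
    ext e
    rw [mem_symmDiff]
    simp
  rw [h2] at h1
  have h3 : ncl (∅ : Finset (Pair n)) univ = n := nc_empty
  have h4 : ncl (∅ : Finset (Pair n)) (vset G) = (vset G).card := by
    rw [ncl]
    apply card_image_of_injOn
    intro u _ v _ huv
    rw [cls_eq_singleton (by rw [vset_empty']; simp), cls_eq_singleton (by rw [vset_empty']; simp)]
      at huv
    exact singleton_injective huv
  rw [nc]
  omega

lemma nc_cn {H : Finset (Pair n)} (h : Cn H) : nc H + (vset H).card = n + 1 := by
  rw [nc_eq]
  have : ncl H (vset H) = 1 := by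
    obtain ⟨e, he⟩ := h.1
    rw [ncl, card_eq_one]
    refine ⟨cls H e.1.1, ?_⟩
    ext C
    rw [mem_image, mem_singleton]
    constructor
    · rintro ⟨v, hv, rfl⟩
      exact cls_eq_iff.2 (h.2 v hv _ (fst_mem_vset he))
    · rintro rfl
      exact ⟨_, fst_mem_vset he, rfl⟩
  omega

lemma Blk.cn {H : Finset (Pair n)} (h : Blk H) : Cn H := ⟨h.1, fun _ hu _ hv => h.conn hu hv⟩

/-- Subadditivity of the rank. -/
lemma nc_union (A B : Finset (Pair n)) : nc A + nc B ≤ n + nc (A ∪ B) := by
  have h := nc_marg (empty_subset A) B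
  rw [empty_union, nc_empty] at h
  exact h

lemma sdiff_union_inter' (S H : Finset (Pair n)) : S \ H ∪ S ∩ H = S := by
  ext e
  simp only [mem_union, mem_sdiff, mem_inter]
  tauto

lemma marg_one (S H : Finset (Pair n)) :
    nc S + nc (symmDiff S H) ≤ nc (S \ H) + nc (S ∪ H) := by
  have h := nc_marg (sdiff_subset : S \ H ⊆ S) (H \ S)
  have h1 : S \ H ∪ H \ S = symmDiff S H := rfl
  have h2 : S ∪ H \ S = S ∪ H := by
    ext e
    simp only [mem_union, mem_sdiff]
    tauto
  rw [h1, h2] at h
  exact h

lemma marg_two (S H : Finset (Pair n)) : nc H + nc (S \ H) ≤ n + nc (S ∪ H) := by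
  have h := nc_union H (S \ H)
  have h2 : H ∪ S \ H = S ∪ H := by
    ext e
    simp only [mem_union, mem_sdiff]
    tauto
  rw [h2] at h
  exact h

/-- Step inequality for a connected graph. -/
lemma step_conn {S H : Finset (Pair n)} (h : Cn H) :
    nc (symmDiff S H) + nc S + 1 ≤ 2 * nc (S ∪ H) + (vset H).card := by
  have h1 := marg_one S H
  have h2 := marg_two S H
  have h3 := nc_cn h
  omega

lemma not_skew_aux {H : Finset (Pair n)} {u v : Fin n} (huv : u ≠ v) (hH : Conn H u v)
    (A : Finset (Pair n)) (hc : Conn A u v) : nc H + nc A + 1 ≤ n + nc (A ∪ H) := by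
  induction A using Finset.induction_on with
  | empty => exact absurd (Conn.eq_of_notMem (by rw [vset_empty']; simp) hc) huv
  | insert e A _ ih =>
    by_cases h1 : Conn A u v
    · have h2 := ih h1
      have h3 := nc_marg (subset_union_left : A ⊆ A ∪ H) {e}
      have h4 : A ∪ {e} = insert e A := by
        ext f
        simp only [mem_union, mem_singleton, mem_insert]
        tauto
      have h5 : A ∪ H ∪ {e} = insert e A ∪ H := by
        ext f
        simp only [mem_union, mem_singleton, mem_insert]
        tauto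
      rw [h4, h5] at h3
      omega
    · have h2 : ¬ Conn A e.1.1 e.1.2 := by
        intro h3
        apply h1
        rcases conn_insert hc with h4 | ⟨h4, h5⟩ | ⟨h4, h5⟩
        · exact h4
        · exact (h4.trans h3).trans h5
        · exact (h4.trans h3.symm).trans h5
      have h3 := nc_insert_not h2
      have hl : A ⊆ A ∪ H := subset_union_left
      have hr : H ⊆ A ∪ H := subset_union_right
      have h4 : Conn (A ∪ H) e.1.1 e.1.2 := by
        rcases conn_insert hc with h4 | ⟨h4, h5⟩ | ⟨h4, h5⟩
        · exact absurd h4 h1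
        · exact ((h4.mono hl).symm.trans (hH.mono hr)).trans (h5.mono hl).symm
        · exact ((h5.mono hl).trans (hH.mono hr).symm).trans (h4.mono hl)
      have h5 := nc_insert_conn h4
      have h6 := nc_union H A
      rw [union_comm H A] at h6
      rw [insert_union, h5]
      omega

/-- If two distinct vertices of the connected graph `H` are connected in `A`, then `A` and `H`
are not skew. -/
lemma not_skew {A H : Finset (Pair n)} (h : Cn H) {u v : Fin n} (hu : u ∈ vset H)
    (hv : v ∈ vset H) (huv : u ≠ v) (hc : Conn A u v) :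
    nc H + nc A + 1 ≤ n + nc (A ∪ H) :=
  not_skew_aux huv (h.2 u hu v hv) A hc

lemma ncl_anti {A B : Finset (Pair n)} (h : A ⊆ B) (X : Finset (Fin n)) :
    ncl B X ≤ ncl A X := by
  have h1 : X.image (cls B) =
      (X.image (cls A)).image (fun K => univ.filter (fun w => ∃ u ∈ K, Conn B u w)) := by
    rw [image_image]
    apply image_congr
    intro x _
    ext w
    simp only [Function.comp_apply, mem_filter, mem_univ, true_and, mem_cls]
    exact ⟨fun h1 => ⟨x, Conn.refl _ _, h1⟩, fun ⟨u, h1, h2⟩ => (h1.mono h).trans h2⟩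
  rw [ncl, ncl, h1]
  exact card_image_le

lemma vset_union (A B : Finset (Pair n)) : vset (A ∪ B) = vset A ∪ vset B := by
  ext v
  simp only [mem_vset, mem_union]
  constructor
  · rintro ⟨e, he | he, h⟩
    · exact Or.inl ⟨e, he, h⟩
    · exact Or.inr ⟨e, he, h⟩
  · rintro (⟨e, he, h⟩ | ⟨e, he, h⟩)
    · exact ⟨e, Or.inl he, h⟩
    · exact ⟨e, Or.inr he, h⟩

lemma nc_disj {A B : Finset (Pair n)} (h : Disjoint (vset A) (vset B)) :
    nc (A ∪ B) + n ≤ nc A + nc B := by
  have h1 := nc_eq A
  have h2 := nc_eq B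
  have h3 := nc_eq (A ∪ B)
  rw [vset_union, card_union_of_disjoint h] at h3
  have h4 : ncl (A ∪ B) (vset A ∪ vset B) ≤ ncl A (vset A) + ncl B (vset B) := by
    have h5 : ncl (A ∪ B) (vset A ∪ vset B) ≤
        ncl (A ∪ B) (vset A) + ncl (A ∪ B) (vset B) := by
      rw [ncl, image_union]
      exact card_union_le _ _
    have h6 := ncl_anti (subset_union_left : A ⊆ A ∪ B) (vset A)
    have h7 := ncl_anti (subset_union_right : B ⊆ A ∪ B) (vset B)
    omega
  omega

/-- Rank form of inseparability (pick a component of `Z` and use `not_skew`). -/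
lemma blk_rank {H Z : Finset (Pair n)} (h : Blk H) (hZ : Z ⊆ H) (hne : Z.Nonempty) (hZH : Z ≠ H) :
    nc Z + nc (H \ Z) + 1 ≤ n + nc H := by
  obtain ⟨e, he⟩ := hne
  set Z0 := Z.filter (fun f => Conn Z e.1.1 f.1.1) with hZ0
  have heZ0 : e ∈ Z0 := mem_filter.2 ⟨he, Conn.refl _ _⟩
  have hsub : Z0 ⊆ Z := filter_subset _ _
  have hZ0H : Z0 ≠ H := by
    intro h1
    apply hZH
    apply Subset.antisymm hZ
    rw [← h1]
    exact hsub
  have hmem : ∀ f ∈ Z, Conn Z e.1.1 f.1.1 → f ∈ Z0 := fun f hf h1 => mem_filter.2 ⟨hf, h1⟩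
  have hvert : ∀ v ∈ vset Z0, Conn Z e.1.1 v := by
    intro v hv
    obtain ⟨f, hf, h1 | h1⟩ := mem_vset.1 hv
    · rw [h1]; exact (mem_filter.1 hf).2
    · rw [h1]; exact ((mem_filter.1 hf).2).trans (Conn.of_mem (mem_filter.1 hf).1)
  have hconn : ∀ v, Conn Z e.1.1 v → Conn Z0 e.1.1 v := by
    intro v hv
    refine Conn.local_mono (G := Z) (fun x => Conn Z e.1.1 x) ?_ ?_ (Conn.refl _ _) hv
    · intro f hf
      exact ⟨fun h1 => h1.trans (Conn.of_mem hf), fun h1 => h1.trans (Conn.of_mem hf).symm⟩
    · intro f hf h1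
      exact hmem f hf h1
  have hcn : Cn Z0 := by
    refine ⟨⟨e, heZ0⟩, ?_⟩
    intro u hu v hv
    exact (hconn u (hvert u hu)).symm.trans (hconn v (hvert v hv))
  obtain ⟨u, hu, v, hv, huv, hc⟩ := h.2 Z0 (hsub.trans hZ) ⟨e, heZ0⟩ hZ0H
  have h1 := not_skew hcn hu hv huv hc
  have h2 : H \ Z0 ∪ Z0 = H := by
    ext f
    simp only [mem_union, mem_sdiff]
    constructor
    · rintro (h3 | h3)
      · exact h3.1
      · exact hZ (hsub h3)
    · intro h3
      by_cases h4 : f ∈ Z0
      · exact Or.inr h4
      · exact Or.inl ⟨h3, h4⟩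
  rw [h2] at h1
  have hdisj : Disjoint (vset Z0) (vset (Z \ Z0)) := by
    rw [disjoint_left]
    intro x hx hx'
    obtain ⟨f, hf, h3⟩ := mem_vset.1 hx'
    obtain ⟨hfZ, hfZ0⟩ := mem_sdiff.1 hf
    apply hfZ0
    apply hmem f hfZ
    rcases h3 with h3 | h3
    · rw [← h3]; exact hvert x hx
    · have := hvert x hx
      rw [h3] at this
      exact this.trans (Conn.of_mem hfZ).symm
  have h3 := nc_disj hdisj
  have h4 : Z0 ∪ Z \ Z0 = Z := union_sdiff_of_subset hsub
  rw [h4] at h3
  have h5 := nc_union (H \ Z) (Z \ Z0)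
  have h6 : H \ Z ∪ Z \ Z0 = H \ Z0 := by
    ext f
    simp only [mem_union, mem_sdiff]
    constructor
    · rintro (h7 | h7)
      · exact ⟨h7.1, fun h8 => h7.2 (hsub h8)⟩
      · exact ⟨hZ h7.1, h7.2⟩
    · rintro ⟨h7, h8⟩
      by_cases h9 : f ∈ Z
      · exact Or.inr ⟨h9, h8⟩
      · exact Or.inl ⟨h7, h9⟩
  rw [h6] at h5
  omega

/-- Step inequality for a block whose step is not the removal of a block.
With `A = S \ H`, `Z = S ∩ H`, `F = H \ S`: always `nc S + nc (S ∆ H) ≤ nc A + nc (S ∪ H)` (nc_marg
with `A ⊆ A ∪ Z` and `F`) and `nc H + nc A ≤ n + nc (S ∪ H)` (nc_marg with `∅ ⊆ H` and `A`). If the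
second is strict we are done. Otherwise, if `F ≠ ∅`, the first is strict (blk_rank, nc_marg for
`Z ⊆ A ∪ Z`, `F` and for `F ⊆ A ∪ F`, `Z`); if `F = ∅` then not_skew gives CaseA. -/
lemma step_block {S H : Finset (Pair n)} (h : Blk H) (hSH : (H ∩ S).Nonempty)
    (hA : ¬ CaseA S H) :
    nc (symmDiff S H) + nc S + 2 ≤ 2 * nc (S ∪ H) + (vset H).card := by
  have hcn := Blk.cn h
  have h0 := nc_cn hcn
  by_cases hHS : H ⊆ S
  · unfold CaseA at hA
    push Not at hA
    obtain ⟨u, hu, v, hv, huv, hc⟩ := hA hHS
    have h1 := not_skew hcn hu hv huv hc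
    have h2 : S \ H ∪ H = S ∪ H := by
      ext f
      simp only [mem_union, mem_sdiff]
      tauto
    rw [h2] at h1
    have h3 := marg_one S H
    omega
  · have hZ : H ∩ S ≠ H := fun h1 => hHS (inter_eq_left.1 h1)
    have h1 := blk_rank h inter_subset_left hSH hZ
    have h2 : H \ (H ∩ S) = H \ S := by
      ext f
      simp only [mem_inter, mem_sdiff]
      tauto
    rw [h2] at h1
    have h3 := nc_marg (inter_subset_right : H ∩ S ⊆ S) (H \ S)
    have h4 : H ∩ S ∪ H \ S = H := by
      ext f
      simp only [mem_union, mem_inter, mem_sdiff]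
      tauto
    have h5 : S ∪ H \ S = S ∪ H := by
      ext f
      simp only [mem_union, mem_sdiff]
      tauto
    rw [h4, h5] at h3
    have h6 : H \ S ⊆ symmDiff S H := by
      intro f hf
      rw [mem_symmDiff]
      exact Or.inr (mem_sdiff.1 hf)
    have h7 := nc_marg h6 (H ∩ S)
    have h8 : H \ S ∪ H ∩ S = H := by
      ext f
      simp only [mem_union, mem_inter, mem_sdiff]
      tauto
    have h9 : symmDiff S H ∪ H ∩ S = S ∪ H := by
      ext f
      simp only [mem_union, mem_inter, mem_symmDiff]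
      tauto
    rw [h8, h9] at h7
    omega

/-- Number of steps that do not remove a block. -/
noncomputable def act : Finset (Pair n) → List (Pair n × Finset (Pair n)) → ℕ
  | _, [] => 0
  | S, p :: L => (if CaseA S p.2 then 0 else 1) + act (symmDiff S p.2) L

/-- Union with all graphs of a list. -/
def uni (U : Finset (Pair n)) : List (Pair n × Finset (Pair n)) → Finset (Pair n)
  | [] => U
  | p :: L => uni (U ∪ p.2) L

lemma symmDiff_subset_union' (S H : Finset (Pair n)) : symmDiff S H ⊆ S ∪ H := by
  intro f hf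
  rw [mem_union]
  rcases mem_symmDiff.1 hf with h | h
  · exact Or.inl h.1
  · exact Or.inr h.1

/-- Exponent inequality for a list of blocks (compare ColorRef.peel_ineq). Step: if CaseA, use
step_caseA and `U ∪ p.2 = U`; otherwise step_block and nc_marg (S ⊆ U, adding p.2). -/
theorem E0 (L : List (Pair n × Finset (Pair n))) :
    ∀ (S U : Finset (Pair n)), S ⊆ U →
    (∀ p ∈ L, Blk p.2 ∧ p.1 ∈ p.2 ∧ p.1 ∈ S) →
    L.Pairwise (fun p q => q.1 ∉ p.2) →
    nc (fin S L) + 2 * nc U + L.length + act S L ≤
      nc S + 2 * nc (uni U L) + (L.map (fun p => (vset p.2).card)).sum := by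
  induction L with
  | nil =>
    intro S U _ _ _
    simp [fin, uni, act]
  | cons p L ih =>
    intro S U hSU hL hpair
    have hp := hL p (by simp)
    have hpair' := List.pairwise_cons.1 hpair
    have hL' : ∀ q ∈ L, Blk q.2 ∧ q.1 ∈ q.2 ∧ q.1 ∈ symmDiff S p.2 := by
      intro q hq
      have h1 := hL q (by simp [hq])
      refine ⟨h1.1, h1.2.1, ?_⟩
      rw [mem_symmDiff]
      exact Or.inl ⟨h1.2.2, hpair'.1 q hq⟩
    have hih := ih (symmDiff S p.2) (U ∪ p.2)
      ((symmDiff_subset_union' S p.2).trans (union_subset_union hSU Subset.rfl)) hL' hpair'.2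
    simp only [fin, uni, act, List.length_cons, List.map_cons, List.sum_cons]
    by_cases hA : CaseA S p.2
    · have hU : U ∪ p.2 = U := union_eq_left.2 (hA.1.trans hSU)
      have hstep : nc (symmDiff S p.2) + 1 ≤ nc S + (vset p.2).card :=
        step_caseA (S := S) (H := p.2) hp.1.1
      rw [hU] at hih
      rw [if_pos hA, hU]
      omega
    · have hSH : (p.2 ∩ S).Nonempty := ⟨p.1, mem_inter.2 ⟨hp.2.1, hp.2.2⟩⟩
      have hstep := step_block hp.1 hSH hA
      have hm := nc_marg hSU p.2
      rw [if_neg hA]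
      omega

/-- Exponent inequality for a list of connected graphs. -/
theorem E1 (L : List (Pair n × Finset (Pair n))) :
    ∀ (S U : Finset (Pair n)), S ⊆ U → (∀ p ∈ L, Cn p.2) →
    nc (fin S L) + 2 * nc U + L.length ≤
      nc S + 2 * nc (uni U L) + (L.map (fun p => (vset p.2).card)).sum := by
  induction L with
  | nil =>
    intro S U _ _
    simp [fin, uni]
  | cons p L ih =>
    intro S U hSU hL
    have hih := ih (symmDiff S p.2) (U ∪ p.2)
      ((symmDiff_subset_union' S p.2).trans (union_subset_union hSU Subset.rfl))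
      (fun q hq => hL q (by simp [hq]))
    have hstep := step_conn (S := S) (hL p (by simp))
    have hm := nc_marg hSU p.2
    simp only [fin, uni, List.length_cons, List.map_cons, List.sum_cons]
    omega

lemma card_symmDiff_le' (S H : Finset (Pair n)) : (symmDiff S H).card ≤ S.card + H.card :=
  (card_le_card (symmDiff_subset_union' S H)).trans (card_union_le _ _)

/-- Total number of edges of the graphs of the list. -/
theorem sum_card_le (D : ℕ) (L : List (Pair n × Finset (Pair n))) :
    ∀ S : Finset (Pair n), (∀ p ∈ L, p.2.card ≤ D) →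
    (L.map (fun p => p.2.card)).sum + (fin S L).card ≤ S.card + 2 * D * act S L := by
  induction L with
  | nil =>
    intro S _
    simp [fin, act]
  | cons p L ih =>
    intro S hL
    have hih := ih (symmDiff S p.2) (fun q hq => hL q (by simp [hq]))
    have hp := hL p (by simp)
    simp only [fin, act, List.map_cons, List.sum_cons]
    by_cases hA : CaseA S p.2
    · rw [if_pos hA, zero_add]
      have h1 : (symmDiff S p.2).card + p.2.card = S.card := by
        rw [symmDiff_of_subset hA.1]
        exact card_sdiff_add_card_eq_card hA.1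
      omega
    · rw [if_neg hA, mul_add, mul_one]
      have h1 := card_symmDiff_le' S p.2
      omega

/-- The same without the distinction. -/
theorem sum_card_le' (D : ℕ) (L : List (Pair n × Finset (Pair n))) :
    ∀ S : Finset (Pair n), (∀ p ∈ L, p.2.card ≤ D) →
    (L.map (fun p => p.2.card)).sum + (fin S L).card ≤ S.card + 2 * D * L.length := by
  induction L with
  | nil =>
    intro S _
    simp [fin]
  | cons p L ih =>
    intro S hL
    have hih := ih (symmDiff S p.2) (fun q hq => hL q (by simp [hq]))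
    have hp := hL p (by simp)
    have h1 := card_symmDiff_le' S p.2
    simp only [fin, List.length_cons, List.map_cons, List.sum_cons]
    rw [mul_add, mul_one]
    omega

theorem act_zero_subset (L : List (Pair n × Finset (Pair n))) :
    ∀ S : Finset (Pair n), act S L = 0 → ∀ p ∈ L, p.2 ⊆ S := by
  induction L with
  | nil =>
    intro S _ p hp
    simp at hp
  | cons q L ih =>
    intro S h p hp
    rw [act] at h
    by_cases hA : CaseA S q.2
    · rw [if_pos hA, zero_add] at h
      rcases List.mem_cons.1 hp with rfl | hp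
      · exact hA.1
      · refine (ih _ h p hp).trans ?_
        rw [symmDiff_of_subset hA.1]
        exact sdiff_subset
    · rw [if_neg hA] at h
      omega

theorem act_zero_pure (K : Finset (Fin n)) (L : List (Pair n × Finset (Pair n))) :
    ∀ S : Finset (Pair n), act S L = 0 → Pure K S L := by
  induction L with
  | nil =>
    intro S _
    trivial
  | cons q L ih =>
    intro S h
    rw [act] at h
    by_cases hA : CaseA S q.2
    · rw [if_pos hA, zero_add] at h
      exact ⟨fun _ => hA, ih _ h⟩
    · rw [if_neg hA] at h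
      omega

lemma mem_uni {L : List (Pair n × Finset (Pair n))} {U : Finset (Pair n)} {e : Pair n} :
    e ∈ uni U L ↔ e ∈ U ∨ ∃ p ∈ L, e ∈ p.2 := by
  induction L generalizing U with
  | nil => simp [uni]
  | cons q L ih =>
    rw [uni, ih, mem_union]
    simp only [List.mem_cons, exists_eq_or_imp]
    tauto

end Pool.Agent.ColorLog
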