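import Pool.Agent.ColorLog.Bnd

/-!
The coefficients of connected graphs.
-/

namespace Pool.Agent.ColorLog

open Finset BigOperators
open scoped Classical
open Pool.Agent.ColorRef

set_option linter.unusedSectionVars false

variable {n : ℕ} {k : ℕ} [NeZero k]

/-- Base coefficient of a gadget. -/
noncomputable def g0 (k : ℕ) [NeZero k] (H : Finset (Pair n)) : ℝ := if Blk H then gco k H else 0

/-- Corrected coefficient of a gadget. -/
noncomputable def gam (k : ℕ) [NeZero k] (C : ℝ) (u : Finset (Pair n) → ℝ)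
    (H : Finset (Pair n)) : ℝ := g0 k H + C / (k : ℝ) ^ (vset H).card * u H

/-- Correction of a state. -/
noncomputable def dl (k : ℕ) [NeZero k] (C : ℝ) (u : Finset (Pair n) → ℝ) : St n → ℝ
  | none => 0
  | some none => 0
  | some (some H) => C / (k : ℝ) ^ (vset H).card * u H

lemma cf_gam (C : ℝ) (u : Finset (Pair n) → ℝ) (st : St n) :
    cf (gam k C u) st = dl k C u st + cf (g0 k) st := by
  rcases st with _ | _ | H
  · simp [cf, dl]
  · simp [cf, dl]
  · simp only [cf, dl, gam]; ring

/-- The coefficient of a state, with the correction on `A` and the base coefficient elsewhere. -/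
noncomputable def cA (k : ℕ) [NeZero k] (C : ℝ) (u : Finset (Pair n) → ℝ) (A : Finset (Pair n))
    (e : Pair n) (st : St n) : ℝ := if e ∈ A then dl k C u st else cf (g0 k) st

/-- Weight of a configuration with the corrections in `A`. -/
noncomputable def KA (k : ℕ) [NeZero k] (D : ℕ) (C : ℝ) (S A : Finset (Pair n))
    (φ : Pair n → St n) : ℝ := (∏ e ∈ S, cA k C (fun _ => 1) A e (φ e)) * Wt k D S φ

/-- Product of the unknowns. -/
noncomputable def uA (u : Finset (Pair n) → ℝ) (A : Finset (Pair n)) (φ : Pair n → St n) : ℝ :=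
  ∏ e ∈ A, u (hs (φ e))

lemma cA_u (C : ℝ) (u : Finset (Pair n) → ℝ) {S A : Finset (Pair n)} (hA : A ⊆ S)
    (φ : Pair n → St n) :
    ∏ e ∈ S, cA k C u A e (φ e) = (∏ e ∈ S, cA k C (fun _ => 1) A e (φ e)) * uA u A φ := by
  have h1 : ∀ w : Finset (Pair n) → ℝ, ∏ e ∈ S, cA k C w A e (φ e) =
      (∏ e ∈ S \ A, cf (g0 k) (φ e)) * ∏ e ∈ A, dl k C w (φ e) := by
    intro w
    rw [← prod_sdiff hA]
    congr 1
    · apply prod_congr rfl
      intro e he
      rw [cA, if_neg (mem_sdiff.1 he).2]
    · apply prod_congr rfl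
      intro e he
      rw [cA, if_pos he]
  rw [h1, h1, uA, mul_assoc, ← prod_mul_distrib]
  congr 1
  apply prod_congr rfl
  intro e _
  rcases φ e with _ | _ | H
  · simp [dl]
  · simp [dl]
  · simp [dl, hs]

/-- Not clean at the blocks which avoid `A`. -/
def NC (S A : Finset (Pair n)) (φ : Pair n → St n) : Prop :=
  ∀ B, IsBl S B → Disjoint B A → ¬ Clean S φ B

/-- Main configurations. -/
def IsMain (S A : Finset (Pair n)) (φ : Pair n → St n) : Prop :=
  ∃ e ∈ S, A = {e} ∧ φ = mainφ S e

/-- The remaining configurations. -/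
noncomputable def Rs (S A : Finset (Pair n)) : Finset (Pair n → St n) :=
  (Phi S).filter (fun φ => NC S A φ ∧ ¬ IsMain S A φ)

/-- The remaining sum. -/
noncomputable def Tn (k : ℕ) [NeZero k] (D : ℕ) (C : ℝ) (u : Finset (Pair n) → ℝ)
    (S : Finset (Pair n)) : ℝ :=
  ∑ A ∈ S.powerset, ∑ φ ∈ Rs S A, KA k D C S A φ * uA u A φ

lemma mainφ_mem (S : Finset (Pair n)) (e : Pair n) : mainφ S e ∈ Phi S := by
  rw [mem_Phi]
  intro f hf
  simp [mainφ, hf]

lemma nc_main {S : Finset (Pair n)} {e : Pair n} : NC S {e} (mainφ S e) := by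
  intro B hB hd hc
  obtain ⟨f, hf⟩ := hB.1.1
  have hval : ∀ f ∈ B, mainφ S e f = some none := by
    intro f hf
    have hfe : f ≠ e := by
      rintro rfl
      exact (disjoint_left.1 hd) hf (mem_singleton_self _)
    simp [mainφ, hB.2.1 hf, hfe]
  rcases hc.1 with h1 | ⟨e', he', h1, -⟩
  · have := h1 f hf
    rw [hval f hf] at this
    simp at this
  · rw [hval e' he'] at h1
    simp at h1

lemma Wt_main {D : ℕ} {S : Finset (Pair n)} (hS : S ∈ gd n D) {e : Pair n} (he : e ∈ S) :
    Wt k D S (mainφ S e) =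
      𝔼 σ : Fin n → ZMod k, 𝔼 R : Finset (Pair n),
        if (Rain σ S ∧ S ∩ R = {e}) then (1 : ℝ) else 0 := by
  have hv1 : mainφ S e e = some (some S) := by simp [mainφ, he]
  have hv2 : ∀ f ∈ S.erase e, mainφ S e f = some none := by
    intro f hf
    have h1 := mem_of_mem_erase hf
    have h2 := ne_of_mem_erase hf
    simp [mainφ, h1, h2]
  rw [Wt]
  have hch : (𝔼 x : Pair n → Bool, ∏ f ∈ S, ch x f (mainφ S e f)) = 1 := by
    have h1 : ∀ x : Pair n → Bool, ∏ f ∈ S, ch x f (mainφ S e f) = 1 := by
      intro x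
      rw [← mul_prod_erase S _ he, hv1]
      have h2 : ∏ f ∈ S.erase e, ch x f (mainφ S e f) = chi (S.erase e) x := by
        rw [chi]
        apply prod_congr rfl
        intro f hf
        rw [hv2 f hf]
        simp [ch]
      rw [h2]
      simp only [ch]
      exact chi_mul_self _ _
    rw [expect_congr rfl (fun x _ => h1 x), expect_const univ_nonempty]
  rw [hch, mul_one]
  apply expect_congr rfl
  intro σ _
  apply expect_congr rfl
  intro R _
  rw [← mul_prod_erase S _ he, hv1]
  have hself : iD D σ R e (some (some S)) =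
      if (S ∈ gd n D ∧ e ∈ S ∧ S ∩ R = {e} ∧ Rain σ S) then 1 else 0 := rfl
  rw [hself]
  by_cases h : Rain σ S ∧ S ∩ R = {e}
  · have h1 : ∏ f ∈ S.erase e, iD D σ R f (mainφ S e f) = 1 := by
      apply prod_eq_one
      intro f hf
      rw [hv2 f hf]
      simp only [iD]
      rw [if_pos]
      refine ⟨h.1.not_mono (mem_of_mem_erase hf), fun hfR => ?_⟩
      have : f ∈ S ∩ R := mem_inter.2 ⟨mem_of_mem_erase hf, hfR⟩
      rw [h.2, mem_singleton] at this
      exact ne_of_mem_erase hf this
    rw [h1, if_pos h, if_pos ⟨hS, he, h.2, h.1⟩, mul_one]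
  · rw [if_neg h, if_neg (fun h' => h ⟨h'.2.2.2, h'.2.2.1⟩), zero_mul]

/-- Expansion of the coefficient of a connected graph. -/
theorem ac_gam {D : ℕ} (hk : 8 * D ^ 2 ≤ k) (C : ℝ) (u : Finset (Pair n) → ℝ)
    {S : Finset (Pair n)} (hS : S ∈ gd n D) :
    ac k D (gam k C u) S = C / (k : ℝ) ^ (vset S).card * u S * pr k S + Tn k D C u S := by
  have hSD : S.card ≤ D := (mem_gd.1 hS).2
  have hexp : ac k D (gam k C u) S = ∑ A ∈ S.powerset, ∑ φ ∈ Phi S,
      (∏ e ∈ S, cA k C u A e (φ e)) * Wt k D S φ := by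
    rw [ac_eq, sum_comm]
    apply sum_congr rfl
    intro φ _
    rw [← sum_mul]
    congr 1
    have h1 : ∏ e ∈ S, cf (gam k C u) (φ e) =
        ∏ e ∈ S, (dl k C u (φ e) + cf (g0 k) (φ e)) := prod_congr rfl (fun e _ => cf_gam C u _)
    rw [h1, prod_add]
    apply sum_congr rfl
    intro A hA
    rw [mem_powerset] at hA
    rw [← prod_sdiff hA, mul_comm]
    congr 1
    · apply prod_congr rfl
      intro e he
      rw [cA, if_neg (mem_sdiff.1 he).2]
    · apply prod_congr rfl
      intro e he
      rw [cA, if_pos he]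
  have hnc : ∀ A ∈ S.powerset, ∑ φ ∈ Phi S, (∏ e ∈ S, cA k C u A e (φ e)) * Wt k D S φ =
      ∑ φ ∈ (Phi S).filter (fun φ => NC S A φ),
        (∏ e ∈ S, cA k C u A e (φ e)) * Wt k D S φ := by
    intro A _
    rw [sum_eq_nonclean (D := D) (cA k C u A)
      (S.powerset.filter (fun B => IsBl S B ∧ Disjoint B A))]
    · congr 1
      apply filter_congr
      intro φ _
      unfold NC
      constructor
      · intro h B hB hd
        exact h B (mem_filter.2 ⟨mem_powerset.2 hB.2.1, hB, hd⟩)
      · intro h B hB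
        obtain ⟨-, h2, h3⟩ := mem_filter.1 hB
        exact h B h2 h3
    · intro B hB
      obtain ⟨h1, h2, h3⟩ := mem_filter.1 hB
      have hBS := mem_powerset.1 h1
      have hBD : B.card ≤ D := (card_le_card hBS).trans hSD
      refine ⟨hBS, mem_gd.2 ⟨Blk.cn h2.1, hBD⟩, ?_, ?_⟩
      · have h4 : (vset B).card ≤ 2 * D := (card_vset_le B).trans (Nat.mul_le_mul_left _ hBD)
        nlinarith
      · intro e he
        have heA : e ∉ A := (disjoint_left.1 h3) he
        simp only [cA, if_neg heA, cf, g0, if_pos h2.1, and_self]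
    · intro B hB B' hB' hne
      exact block_disjoint (mem_filter.1 hB).2.1 (mem_filter.1 hB').2.1 hne
  rw [hexp, sum_congr rfl hnc]
  have hsplit : ∀ A ∈ S.powerset, ∑ φ ∈ (Phi S).filter (fun φ => NC S A φ),
        (∏ e ∈ S, cA k C u A e (φ e)) * Wt k D S φ =
      (∑ e ∈ S, if A = {e} then
        C / (k : ℝ) ^ (vset S).card * u S * Wt k D S (mainφ S e) else 0) +
      ∑ φ ∈ Rs S A, KA k D C S A φ * uA u A φ := by
    intro A hA
    rw [mem_powerset] at hA
    rw [← sum_filter_add_sum_filter_not ((Phi S).filter (fun φ => NC S A φ))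
      (fun φ => IsMain S A φ), filter_filter, filter_filter]
    congr 1
    · by_cases hAe : ∃ e ∈ S, A = {e}
      · obtain ⟨e, he, rfl⟩ := hAe
        have h1 : (Phi S).filter (fun φ => NC S {e} φ ∧ IsMain S {e} φ) = {mainφ S e} := by
          ext φ
          rw [mem_filter, mem_singleton]
          constructor
          · rintro ⟨-, -, e', -, h2, h3⟩
            rw [h3, singleton_inj.1 h2]
          · rintro rfl
            exact ⟨mainφ_mem S e, nc_main, e, he, rfl, rfl⟩
        rw [h1, sum_singleton]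
        have h2 : ∑ e' ∈ S, (if ({e} : Finset (Pair n)) = {e'} then
            C / (k : ℝ) ^ (vset S).card * u S * Wt k D S (mainφ S e') else 0) =
            C / (k : ℝ) ^ (vset S).card * u S * Wt k D S (mainφ S e) := by
          rw [sum_eq_single_of_mem e he]
          · rw [if_pos rfl]
          · intro e' _ hne
            rw [if_neg]
            intro h3
            exact hne (singleton_inj.1 h3).symm
        rw [h2]
        congr 1
        rw [← mul_prod_erase S _ he]
        have h4 : ∏ f ∈ S.erase e, cA k C u {e} f (mainφ S e f) = 1 := by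
          apply prod_eq_one
          intro f hf
          have h5 := mem_of_mem_erase hf
          have h6 := ne_of_mem_erase hf
          rw [cA, if_neg (by rw [mem_singleton]; exact h6)]
          simp [mainφ, h5, h6, cf]
        rw [h4, mul_one, cA, if_pos (mem_singleton_self _)]
        simp [mainφ, he, dl]
      · have h1 : (Phi S).filter (fun φ => NC S A φ ∧ IsMain S A φ) = ∅ := by
          apply filter_eq_empty_iff.2
          rintro φ - ⟨-, e, he, h2, -⟩
          exact hAe ⟨e, he, h2⟩
        rw [h1, sum_empty]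
        symm
        apply sum_eq_zero
        intro e he
        rw [if_neg]
        intro h2
        exact hAe ⟨e, he, h2⟩
    · apply sum_congr rfl
      intro φ _
      rw [cA_u C u hA, KA]
      ring
  rw [sum_congr rfl hsplit, sum_add_distrib]
  congr 1
  rw [sum_comm]
  have h3 : ∀ e ∈ S, ∑ A ∈ S.powerset, (if A = {e} then
      C / (k : ℝ) ^ (vset S).card * u S * Wt k D S (mainφ S e) else 0) =
      C / (k : ℝ) ^ (vset S).card * u S * Wt k D S (mainφ S e) := by
    intro e he
    rw [sum_ite_eq' S.powerset {e}, if_pos]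
    rw [mem_powerset, singleton_subset_iff]
    exact he
  rw [sum_congr rfl h3, ← mul_sum]
  congr 1
  rw [pr]
  simp only [expect_sum_comm]
  apply sum_congr rfl
  intro e he
  rw [Wt_main hS he]

end Pool.Agent.ColorLog
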