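import Pool.Agent.ColorLog.Rest
import Pool.Agent.ColorLog.Num

/-!
Bounds for the connected graphs and the choice of the corrections.
-/

namespace Pool.Agent.ColorLog

open Finset BigOperators
open scoped Classical
open Pool.Agent.ColorRef

set_option linter.unusedSectionVars false

variable {n : ℕ} {k : ℕ} [NeZero k]

lemma gco_blk_le {B : Finset (Pair n)} (hB : Blk B) (hk : 2 * (vset B).card ^ 2 ≤ k) :
    |gco k B| * (k : ℝ) ^ (vset B).card ≤ 4 ^ B.card * k := by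
  have hk0 := kpos (k := k)
  have h2 := pr_ge (k := k) hB.1 hk
  have h3 := pm_blk_le (k := k) hB
  have h4 := pm_nonneg k B
  have hpos : (0 : ℝ) < (1 / 2) ^ (B.card + 1) := by positivity
  have hprpos : 0 < pr k B := lt_of_lt_of_le hpos h2
  have h5 : |gco k B| = pm k B / pr k B := by
    rw [gco, abs_neg, abs_div, abs_mul, abs_pow, abs_neg, abs_one, one_pow, one_mul,
      abs_of_nonneg h4, abs_of_pos hprpos]
  have h6 : pm k B / pr k B ≤ pm k B * 2 ^ (B.card + 1) := by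
    rw [div_le_iff₀ hprpos]
    calc pm k B = pm k B * 2 ^ (B.card + 1) * (1 / 2) ^ (B.card + 1) := by
          rw [mul_assoc, ← mul_pow]; norm_num
      _ ≤ pm k B * 2 ^ (B.card + 1) * pr k B :=
          mul_le_mul_of_nonneg_left h2 (mul_nonneg h4 (by positivity))
  have h7 : 1 ≤ B.card := card_pos.2 hB.1
  have h8 : (2 : ℝ) ^ (B.card + 1) ≤ 4 ^ B.card := by
    have : (4 : ℝ) ^ B.card = 2 ^ (2 * B.card) := by rw [pow_mul]; norm_num
    rw [this]
    exact pow_le_pow_right₀ (by norm_num) (by omega)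
  calc |gco k B| * (k : ℝ) ^ (vset B).card
      ≤ (pm k B * 2 ^ (B.card + 1)) * (k : ℝ) ^ (vset B).card := by
        rw [h5]
        exact mul_le_mul_of_nonneg_right h6 (by positivity)
    _ = 2 ^ (B.card + 1) * (pm k B * (k : ℝ) ^ (vset B).card) := by ring
    _ ≤ 4 ^ B.card * k := mul_le_mul h8 h3 (mul_nonneg h4 (by positivity)) (by positivity)

lemma vset_gd_le {D : ℕ} (hk : 8 * D ^ 2 ≤ k) {H : Finset (Pair n)} (hH : H.card ≤ D) :
    2 * (vset H).card ^ 2 ≤ k := by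
  have h4 : (vset H).card ≤ 2 * D := (card_vset_le H).trans (Nat.mul_le_mul_left _ hH)
  nlinarith

lemma KA_supp {D : ℕ} {C : ℝ} {S A : Finset (Pair n)} (hA : A ⊆ S) {φ : Pair n → St n}
    (h : KA k D C S A φ ≠ 0) :
    Ok k D S φ ∧ A ⊆ Tset S φ ∧ ∀ e ∈ Tset S φ \ A, Blk (hs (φ e)) := by
  unfold KA at h
  have h1 := right_ne_zero_of_mul h
  have h2 := left_ne_zero_of_mul h
  rw [prod_ne_zero_iff] at h2
  refine ⟨ok_of_Wt_ne_zero h1, ?_, ?_⟩
  · intro e he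
    have h3 := h2 e (hA he)
    rw [cA, if_pos he] at h3
    rcases hφ : φ e with _ | _ | H
    · rw [hφ] at h3; simp [dl] at h3
    · rw [hφ] at h3; simp [dl] at h3
    · exact mem_filter.2 ⟨hA he, H, hφ⟩
  · intro e he
    obtain ⟨heT, heA⟩ := mem_sdiff.1 he
    obtain ⟨heS, H, hH⟩ := mem_filter.1 heT
    have h3 := h2 e heS
    rw [cA, if_neg heA, hH] at h3
    simp only [cf, g0] at h3
    rw [hH]
    show Blk H
    by_contra hb
    rw [if_neg hb] at h3
    exact h3 rfl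

lemma abs_KA_le {D : ℕ} {C : ℝ} {S A : Finset (Pair n)} {φ : Pair n → St n}
    (hA : A ⊆ Tset S φ) :
    |KA k D C S A φ| ≤ (∏ e ∈ Tset S φ, |cA k C (fun _ => 1) A e (φ e)|) *
      pm k (Mset S φ) := by
  rw [KA, abs_mul, abs_prod]
  have h1 : ∏ e ∈ S, |cA k C (fun _ => 1) A e (φ e)| =
      ∏ e ∈ Tset S φ, |cA k C (fun _ => 1) A e (φ e)| := by
    rw [← prod_sdiff (tset_subset S φ)]
    have h2 : ∏ e ∈ S \ Tset S φ, |cA k C (fun _ => 1) A e (φ e)| = 1 := by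
      apply prod_eq_one
      intro e he
      obtain ⟨heS, heT⟩ := mem_sdiff.1 he
      rw [cA, if_neg (fun h => heT (hA h))]
      rcases hφ : φ e with _ | _ | H
      · simp [cf]
      · simp [cf]
      · exact absurd (mem_filter.2 ⟨heS, H, hφ⟩) heT
    rw [h2, one_mul]
  rw [h1]
  exact mul_le_mul_of_nonneg_left (abs_Wt_le D S φ) (prod_nonneg (fun e _ => abs_nonneg _))

theorem KA_exp {D : ℕ} {C C' : ℝ} {S A : Finset (Pair n)} (hS : S ∈ gd n D)
    (hk : 8 * D ^ 2 ≤ k) (hC0 : 0 ≤ C) (hC' : 1 ≤ C') (hCC : A.Nonempty → C ≤ C')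
    (hA : A ⊆ S) {φ : Pair n → St n} (h : KA k D C S A φ ≠ 0) :
    |KA k D C S A φ| * (k : ℝ) ^ ((vset S).card + 2 * (Ie S φ).card + bb S A φ) ≤
      8 ^ (S.card + 2 * D * bb S A φ) * C' ^ bb S A φ * k := by
  have hk0 := kpos (k := k)
  obtain ⟨hok, hAT, hblk⟩ := KA_supp hA h
  have h1 := GB_conn (mem_gd.1 hS).1 hok hAT hblk
    (fun e => |cA k C (fun _ => 1) A e (φ e)|) C' hC' (fun e _ => abs_nonneg _) (by
      intro e he
      obtain ⟨heT, heA⟩ := mem_sdiff.1 he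
      obtain ⟨heS, H, hH⟩ := mem_filter.1 heT
      have h2 := hblk e he
      have h3 := (mem_gd.1 (hok.gadm e heT).1).2
      show |cA k C (fun _ => 1) A e (φ e)| * (k : ℝ) ^ (vset (hs (φ e))).card ≤ _
      rw [cA, if_neg heA]
      rw [hH] at h2 h3 ⊢
      have h2' : Blk H := h2
      have h3' : H.card ≤ D := h3
      show |g0 k H| * (k : ℝ) ^ (vset H).card ≤ 8 ^ H.card * k
      rw [g0, if_pos h2']
      refine (gco_blk_le h2' (vset_gd_le hk h3')).trans ?_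
      apply mul_le_mul_of_nonneg_right _ hk0.le
      exact pow_le_pow_left₀ (by norm_num) (by norm_num) _) (by
      intro e he
      obtain ⟨heS, H, hH⟩ := mem_filter.1 (hAT he)
      show |cA k C (fun _ => 1) A e (φ e)| * (k : ℝ) ^ (vset (hs (φ e))).card ≤ _
      rw [cA, if_pos he, hH]
      show |C / (k : ℝ) ^ (vset H).card * 1| * (k : ℝ) ^ (vset H).card ≤ C'
      rw [mul_one, abs_of_nonneg (by positivity), div_mul_cancel₀ _ (by positivity)]
      exact hCC ⟨e, he⟩)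
  refine le_trans ?_ h1
  apply mul_le_mul_of_nonneg_right (abs_KA_le hAT) (by positivity)

theorem sum_KA {D : ℕ} (hD1 : 1 ≤ D) (hn : n ≤ k ^ 2) {C C' : ℝ} {S A : Finset (Pair n)}
    (hS : S ∈ gd n D) (hk : 8 * D ^ 2 ≤ k) (hC0 : 0 ≤ C) (hC' : 1 ≤ C')
    (hk2 : 2 * (Yc D * C') ≤ k) (hCC : A.Nonempty → C ≤ C') (hA : A ⊆ S) (b0 : ℕ)
    (hb0 : ∀ φ ∈ Rs S A, KA k D C S A φ ≠ 0 → b0 ≤ bb S A φ) :
    (∑ φ ∈ Rs S A, |KA k D C S A φ|) * (k : ℝ) ^ (vset S).card ≤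
      6 * Yc D * (Yc D * C' / k) ^ b0 * k := by
  have hk0 := kpos (k := k)
  have hSD := (mem_gd.1 hS).2
  have hfil : ∑ φ ∈ (Rs S A).filter (fun φ => KA k D C S A φ ≠ 0), |KA k D C S A φ| =
      ∑ φ ∈ Rs S A, |KA k D C S A φ| := by
    apply sum_subset (filter_subset _ _)
    intro φ h1 h2
    rw [mem_filter, not_and, not_not] at h2
    rw [h2 h1, abs_zero]
  rw [← hfil, sum_mul]
  have hE := sum_bound hD1 hn hSD C' hC' hk2
    ((Rs S A).filter (fun φ => KA k D C S A φ ≠ 0)) (bb S A) b0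
    (fun φ => |KA k D C S A φ| * (k : ℝ) ^ (vset S).card) k hk0.le
    (by
      intro φ hφ
      have h1 := KA_exp hS hk hC0 hC' hCC hA (mem_filter.1 hφ).2
      have h2 : (vset S).card + 2 * (Ie S φ).card + bb S A φ =
          (vset S).card + (2 * (Ie S φ).card + bb S A φ) := by ring
      rw [h2, pow_add, ← mul_assoc] at h1
      refine h1.trans ?_
      apply mul_le_mul_of_nonneg_right _ hk0.le
      apply mul_le_mul_of_nonneg_right _ (by positivity)
      apply pow_le_pow_right₀ (by norm_num)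
      have h3 : D * (2 * bb S A φ + 1) = 2 * D * bb S A φ + D := by ring
      omega)
    (by
      intro φ hφ
      obtain ⟨h1, h2⟩ := mem_filter.1 hφ
      obtain ⟨hok, hAT, hblk⟩ := KA_supp hA h2
      exact ⟨hb0 φ h1 h2, (bb_le hAT).trans hSD⟩)
    (by
      intro φ hφ e he
      obtain ⟨h1, h2⟩ := mem_filter.1 hφ
      exact ((KA_supp hA h2).1.gadm e he).2)
    (by
      intro φ hφ
      obtain ⟨h1, h2⟩ := mem_filter.1 hφ
      obtain ⟨hok, hAT, hblk⟩ := KA_supp hA h2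
      have h3 := sum_gadget_card hok hAT
      have h4 : D * (2 * bb S A φ + 1) = 2 * D * bb S A φ + D := by ring
      omega)
    (by
      intro φ hφ φ' hφ' h
      obtain ⟨h1, h2⟩ := mem_filter.1 hφ
      obtain ⟨h1', h2'⟩ := mem_filter.1 hφ'
      have h3 := eq_of_rsp (KA_supp hA h2).1.fin_eq (KA_supp hA h2').1.fin_eq h
      have h4 := mem_Phi.1 (mem_filter.1 h1).1
      have h5 := mem_Phi.1 (mem_filter.1 h1').1
      funext e
      by_cases he : e ∈ S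
      · exact h3 e he
      · rw [h4 e he, h5 e he])
  exact hE

theorem sum_KA0 {D : ℕ} (hD1 : 1 ≤ D) (hn : n ≤ k ^ 2) {C : ℝ} {S : Finset (Pair n)}
    (hS : S ∈ gd n D) (hk : 8 * D ^ 2 ≤ k) (hC0 : 0 ≤ C)
    (hk2 : 2 * Yc D ≤ k) :
    (∑ φ ∈ Rs S ∅, |KA k D C S ∅ φ|) * (k : ℝ) ^ (vset S).card ≤ 6 * Yc D ^ 2 := by
  have hk0 := kpos (k := k)
  have h1 := sum_KA hD1 hn hS hk hC0 (le_refl (1 : ℝ)) (by rw [mul_one]; exact hk2)
    (fun h => absurd h (by simp)) (empty_subset S) 1 (by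
      intro φ hφ hne
      obtain ⟨hok, hAT, hblk⟩ := KA_supp (empty_subset S) hne
      obtain ⟨h2, h3, h4⟩ := mem_filter.1 hφ
      have h5 := struct0 (mem_gd.1 hS).1.1 hok (fun e he => hblk e (by simpa using he))
        (fun B hB => h3 B hB (disjoint_empty_right _))
      unfold bb
      simpa using h5)
  refine h1.trans (le_of_eq ?_)
  field_simp

theorem sum_KA1 {D : ℕ} (hD1 : 1 ≤ D) (hn : n ≤ k ^ 2) {C : ℝ} {S A : Finset (Pair n)}
    (hS : S ∈ gd n D) (hk : 8 * D ^ 2 ≤ k) (hC : 1 ≤ C)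
    (hk2 : 2 * (Yc D * C) ≤ k) (hA : A ⊆ S) (hAne : A.Nonempty) :
    (∑ φ ∈ Rs S A, |KA k D C S A φ|) * (k : ℝ) ^ (vset S).card ≤
      6 * Yc D ^ 3 * C ^ 2 / k := by
  have hk0 := kpos (k := k)
  have h1 := sum_KA hD1 hn hS hk (by linarith : (0 : ℝ) ≤ C) hC hk2
    (fun _ => le_rfl) hA 2 (by
      intro φ hφ hne
      obtain ⟨hok, hAT, hblk⟩ := KA_supp hA hne
      obtain ⟨h2, h3, h4⟩ := mem_filter.1 hφ
      exact struct1 h2 hok hAT hAne hblk h3 (by
        intro e he hm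
        apply h4
        refine ⟨e, ?_, he, hm⟩
        apply hA
        rw [he]
        exact mem_singleton_self e))
  refine h1.trans (le_of_eq ?_)
  field_simp

lemma prod_sub_le {ι : Type*} (A : Finset ι) (a b : ι → ℝ) (ε : ℝ) (ha : ∀ i, |a i| ≤ 1)
    (hb : ∀ i, |b i| ≤ 1) (hε : ∀ i, |a i - b i| ≤ ε) :
    |∏ i ∈ A, a i - ∏ i ∈ A, b i| ≤ A.card * ε := by
  induction A using Finset.induction_on with
  | empty => simp
  | insert i A hi ih =>
    rw [prod_insert hi, prod_insert hi, card_insert_of_notMem hi]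
    have h1 : a i * ∏ j ∈ A, a j - b i * ∏ j ∈ A, b j =
        a i * (∏ j ∈ A, a j - ∏ j ∈ A, b j) + (a i - b i) * ∏ j ∈ A, b j := by ring
    have h2 : |∏ j ∈ A, b j| ≤ 1 := by
      rw [abs_prod]
      exact prod_le_one (fun j _ => abs_nonneg _) (fun j _ => hb j)
    rw [h1]
    refine (abs_add_le _ _).trans ?_
    rw [abs_mul, abs_mul]
    have h3 : |a i| * |∏ j ∈ A, a j - ∏ j ∈ A, b j| ≤ 1 * (A.card * ε) :=
      mul_le_mul (ha i) ih (abs_nonneg _) (by norm_num)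
    have h4 : |a i - b i| * |∏ j ∈ A, b j| ≤ ε * 1 :=
      mul_le_mul (hε i) h2 (abs_nonneg _) (le_trans (abs_nonneg _) (hε i))
    push_cast
    linarith

lemma abs_uA_le {u : Finset (Pair n) → ℝ} (hu : ∀ H, |u H| ≤ 1) (A : Finset (Pair n))
    (φ : Pair n → St n) : |uA u A φ| ≤ 1 := by
  rw [uA, abs_prod]
  exact prod_le_one (fun e _ => abs_nonneg _) (fun e _ => hu _)

theorem abs_Tn_le {D : ℕ} (hD1 : 1 ≤ D) (hn : n ≤ k ^ 2) {C : ℝ} {S : Finset (Pair n)}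
    (hS : S ∈ gd n D) (hk : 8 * D ^ 2 ≤ k) (hC : 1 ≤ C)
    (hk2 : 2 * (Yc D * C) ≤ k) (u : Finset (Pair n) → ℝ) (hu : ∀ H, |u H| ≤ 1) :
    |Tn k D C u S| * (k : ℝ) ^ (vset S).card ≤
      6 * Yc D ^ 2 + 2 ^ D * (6 * Yc D ^ 3 * C ^ 2 / k) := by
  have hk0 := kpos (k := k)
  have hY := Yc_ge_one hD1
  have hSD := (mem_gd.1 hS).2
  have h1 : ∀ A ∈ S.powerset, |∑ φ ∈ Rs S A, KA k D C S A φ * uA u A φ| ≤
      ∑ φ ∈ Rs S A, |KA k D C S A φ| := by
    intro A _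
    refine (abs_sum_le_sum_abs _ _).trans ?_
    apply sum_le_sum
    intro φ _
    rw [abs_mul]
    calc |KA k D C S A φ| * |uA u A φ| ≤ |KA k D C S A φ| * 1 :=
          mul_le_mul_of_nonneg_left (abs_uA_le hu A φ) (abs_nonneg _)
      _ = _ := mul_one _
  have h2 : |Tn k D C u S| ≤ ∑ A ∈ S.powerset, ∑ φ ∈ Rs S A, |KA k D C S A φ| :=
    (abs_sum_le_sum_abs _ _).trans (sum_le_sum h1)
  have hemp : (∅ : Finset (Pair n)) ∈ S.powerset := empty_mem_powerset S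
  have h3 : ∑ A ∈ S.powerset, ∑ φ ∈ Rs S A, |KA k D C S A φ| =
      (∑ φ ∈ Rs S ∅, |KA k D C S ∅ φ|) +
        ∑ A ∈ S.powerset.erase ∅, ∑ φ ∈ Rs S A, |KA k D C S A φ| :=
    (add_sum_erase _ _ hemp).symm
  have h4 := sum_KA0 hD1 hn hS hk (by linarith : (0 : ℝ) ≤ C) (by nlinarith : 2 * Yc D ≤ k)
  have h5 : (∑ A ∈ S.powerset.erase ∅, ∑ φ ∈ Rs S A, |KA k D C S A φ|) *
      (k : ℝ) ^ (vset S).card ≤ 2 ^ D * (6 * Yc D ^ 3 * C ^ 2 / k) := by
    rw [sum_mul]
    calc ∑ A ∈ S.powerset.erase ∅, (∑ φ ∈ Rs S A, |KA k D C S A φ|) *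
          (k : ℝ) ^ (vset S).card
        ≤ ∑ A ∈ S.powerset.erase ∅, 6 * Yc D ^ 3 * C ^ 2 / k := by
          apply sum_le_sum
          intro A hA
          obtain ⟨hA1, hA2⟩ := mem_erase.1 hA
          exact sum_KA1 hD1 hn hS hk hC hk2 (mem_powerset.1 hA2)
            (nonempty_iff_ne_empty.2 hA1)
      _ = ((S.powerset.erase ∅).card : ℝ) * (6 * Yc D ^ 3 * C ^ 2 / k) := by
          rw [sum_const, nsmul_eq_mul]
      _ ≤ 2 ^ D * (6 * Yc D ^ 3 * C ^ 2 / k) := by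
          apply mul_le_mul_of_nonneg_right _ (by positivity)
          have h6 : (S.powerset.erase ∅).card ≤ 2 ^ D := by
            refine (card_erase_le).trans ?_
            rw [card_powerset]
            exact Nat.pow_le_pow_right (by norm_num) hSD
          exact_mod_cast h6
  calc |Tn k D C u S| * (k : ℝ) ^ (vset S).card
      ≤ (∑ A ∈ S.powerset, ∑ φ ∈ Rs S A, |KA k D C S A φ|) * (k : ℝ) ^ (vset S).card :=
        mul_le_mul_of_nonneg_right h2 (by positivity)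
    _ = (∑ φ ∈ Rs S ∅, |KA k D C S ∅ φ|) * (k : ℝ) ^ (vset S).card +
        (∑ A ∈ S.powerset.erase ∅, ∑ φ ∈ Rs S A, |KA k D C S A φ|) *
          (k : ℝ) ^ (vset S).card := by rw [h3, add_mul]
    _ ≤ _ := add_le_add h4 h5

theorem Tn_lip {D : ℕ} (hD1 : 1 ≤ D) (hn : n ≤ k ^ 2) {C : ℝ} {S : Finset (Pair n)}
    (hS : S ∈ gd n D) (hk : 8 * D ^ 2 ≤ k) (hC : 1 ≤ C)
    (hk2 : 2 * (Yc D * C) ≤ k) (u v : Finset (Pair n) → ℝ) (hu : ∀ H, |u H| ≤ 1)
    (hv : ∀ H, |v H| ≤ 1) (ε : ℝ) (hε : ∀ H, |u H - v H| ≤ ε) :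
    |Tn k D C u S - Tn k D C v S| * (k : ℝ) ^ (vset S).card ≤
      D * ε * (2 ^ D * (6 * Yc D ^ 3 * C ^ 2 / k)) := by
  have hk0 := kpos (k := k)
  have hY := Yc_ge_one hD1
  have hSD := (mem_gd.1 hS).2
  have hε0 : 0 ≤ ε := le_trans (abs_nonneg _) (hε ∅)
  have hemp : (∅ : Finset (Pair n)) ∈ S.powerset := empty_mem_powerset S
  have h1 : Tn k D C u S - Tn k D C v S = ∑ A ∈ S.powerset.erase ∅,
      ∑ φ ∈ Rs S A, KA k D C S A φ * (uA u A φ - uA v A φ) := by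
    unfold Tn
    rw [← sum_sub_distrib, ← add_sum_erase _ _ hemp]
    have h2 : ∑ φ ∈ Rs S ∅, KA k D C S ∅ φ * uA u ∅ φ - ∑ φ ∈ Rs S ∅,
        KA k D C S ∅ φ * uA v ∅ φ = 0 := by simp [uA]
    rw [h2, zero_add]
    apply sum_congr rfl
    intro A _
    rw [← sum_sub_distrib]
    apply sum_congr rfl
    intro φ _
    ring
  have h3 : ∀ A ∈ S.powerset.erase ∅,
      |∑ φ ∈ Rs S A, KA k D C S A φ * (uA u A φ - uA v A φ)| * (k : ℝ) ^ (vset S).card ≤
      D * ε * (6 * Yc D ^ 3 * C ^ 2 / k) := by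
    intro A hA
    obtain ⟨hA1, hA2⟩ := mem_erase.1 hA
    rw [mem_powerset] at hA2
    have hAD : (A.card : ℝ) ≤ D := by exact_mod_cast (card_le_card hA2).trans hSD
    have h4 := sum_KA1 hD1 hn hS hk hC hk2 hA2 (nonempty_iff_ne_empty.2 hA1)
    have h5 : |∑ φ ∈ Rs S A, KA k D C S A φ * (uA u A φ - uA v A φ)| ≤
        D * ε * ∑ φ ∈ Rs S A, |KA k D C S A φ| := by
      refine (abs_sum_le_sum_abs _ _).trans ?_
      rw [mul_sum]
      apply sum_le_sum
      intro φ _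
      rw [abs_mul, mul_comm]
      apply mul_le_mul_of_nonneg_right _ (abs_nonneg _)
      refine (prod_sub_le A (fun e => u (hs (φ e))) (fun e => v (hs (φ e))) ε
        (fun e => hu _) (fun e => hv _) (fun e => hε _)).trans ?_
      exact mul_le_mul_of_nonneg_right hAD hε0
    calc |∑ φ ∈ Rs S A, KA k D C S A φ * (uA u A φ - uA v A φ)| * (k : ℝ) ^ (vset S).card
        ≤ (D * ε * ∑ φ ∈ Rs S A, |KA k D C S A φ|) * (k : ℝ) ^ (vset S).card :=
          mul_le_mul_of_nonneg_right h5 (by positivity)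
      _ = D * ε * ((∑ φ ∈ Rs S A, |KA k D C S A φ|) * (k : ℝ) ^ (vset S).card) := by ring
      _ ≤ _ := by
          apply mul_le_mul_of_nonneg_left h4 (by positivity)
  rw [h1]
  calc |∑ A ∈ S.powerset.erase ∅, ∑ φ ∈ Rs S A, KA k D C S A φ * (uA u A φ - uA v A φ)| *
        (k : ℝ) ^ (vset S).card
      ≤ (∑ A ∈ S.powerset.erase ∅, |∑ φ ∈ Rs S A, KA k D C S A φ *
          (uA u A φ - uA v A φ)|) * (k : ℝ) ^ (vset S).card :=
        mul_le_mul_of_nonneg_right (abs_sum_le_sum_abs _ _) (by positivity)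
    _ = ∑ A ∈ S.powerset.erase ∅, |∑ φ ∈ Rs S A, KA k D C S A φ *
          (uA u A φ - uA v A φ)| * (k : ℝ) ^ (vset S).card := by rw [sum_mul]
    _ ≤ ∑ A ∈ S.powerset.erase ∅, D * ε * (6 * Yc D ^ 3 * C ^ 2 / k) := sum_le_sum h3
    _ = ((S.powerset.erase ∅).card : ℝ) * (D * ε * (6 * Yc D ^ 3 * C ^ 2 / k)) := by
        rw [sum_const, nsmul_eq_mul]
    _ ≤ 2 ^ D * (D * ε * (6 * Yc D ^ 3 * C ^ 2 / k)) := by
        apply mul_le_mul_of_nonneg_right _ (by positivity)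
        have h6 : (S.powerset.erase ∅).card ≤ 2 ^ D := by
          refine (card_erase_le).trans ?_
          rw [card_powerset]
          exact Nat.pow_le_pow_right (by norm_num) hSD
        exact_mod_cast h6
    _ = _ := by ring

/-- Banach's fixed point theorem in a cube. -/
lemma fixed_point {ι : Type*} [Fintype ι] (Φ : (ι → ℝ) → (ι → ℝ))
    (h1 : ∀ u, (∀ i, |u i| ≤ 1) → ∀ i, |Φ u i| ≤ 1)
    (h2 : ∀ u v, (∀ i, |u i| ≤ 1) → (∀ i, |v i| ≤ 1) → ∀ ε, (∀ i, |u i - v i| ≤ ε) →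
      ∀ i, |Φ u i - Φ v i| ≤ ε / 2) :
    ∃ u, (∀ i, |u i| ≤ 1) ∧ Φ u = u := by
  set s : Set (ι → ℝ) := Metric.closedBall 0 1 with hs
  have hmem : ∀ u : ι → ℝ, u ∈ s ↔ ∀ i, |u i| ≤ 1 := by
    intro u
    rw [hs, mem_closedBall_zero_iff, pi_norm_le_iff_of_nonneg (by norm_num)]
    rfl
  have hmaps : Set.MapsTo Φ s s := by
    intro u hu
    rw [hmem] at hu ⊢
    exact h1 u hu
  have hcontr : ContractingWith (1 / 2) (hmaps.restrict Φ s s) := by
    refine ⟨by norm_num, ?_⟩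
    apply LipschitzWith.of_dist_le_mul
    rintro ⟨u, hu⟩ ⟨v, hv⟩
    show dist (Φ u) (Φ v) ≤ ((1 / 2 : NNReal) : ℝ) * dist u v
    rw [hmem] at hu hv
    have h3 : (0 : ℝ) ≤ ((1 / 2 : NNReal) : ℝ) * dist u v := by positivity
    rw [dist_pi_le_iff h3]
    intro i
    rw [Real.dist_eq]
    have h4 := h2 u v hu hv (dist u v) (fun j => by
      rw [← Real.dist_eq]; exact dist_le_pi_dist u v j) i
    push_cast
    linarith
  have hcomp : IsComplete s := Metric.isClosed_closedBall.isComplete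
  have h0 : (0 : ι → ℝ) ∈ s := by rw [hmem]; intro i; simp
  obtain ⟨u, hus, hfix, -, -⟩ := ContractingWith.exists_fixedPoint' hcomp hmaps hcontr h0
    (edist_ne_top _ _)
  exact ⟨u, (hmem u).1 hus, hfix⟩

/-- There are corrections which make all coefficients of connected graphs vanish. -/
theorem exists_gam {D : ℕ} (hD1 : 1 ≤ D) (hn : n ≤ k ^ 2) (hk : 8 * D ^ 2 ≤ k)
    (hk2 : 2 * (Yc D * Cd D) ≤ k)
    (hk3 : 4 * D * (6 * 2 ^ D * Yc D ^ 3 * Cd D * 2 ^ (D + 1)) ≤ k) :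
    ∃ u : Finset (Pair n) → ℝ, (∀ H, |u H| ≤ 1) ∧
      ∀ S ∈ gd n D, ac k D (gam k (Cd D) u) S = 0 := by
  have hk0 := kpos (k := k)
  have hY := Yc_ge_one hD1
  have hD0 : (1 : ℝ) ≤ D := by exact_mod_cast hD1
  have h2D : (1 : ℝ) ≤ 2 ^ D := one_le_pow₀ (by norm_num)
  have hC1 : 1 ≤ Cd D := by
    unfold Cd
    have : (1 : ℝ) ≤ Yc D ^ 2 := one_le_pow₀ hY
    nlinarith
  have hC0 : 0 < Cd D := by linarith
  have hprS : ∀ S ∈ gd n D, (1 / 2 : ℝ) ^ (D + 1) ≤ pr k S := by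
    intro S hS
    obtain ⟨h1, h2⟩ := mem_gd.1 hS
    refine le_trans ?_ (pr_ge (k := k) h1.1 (vset_gd_le hk h2))
    exact pow_le_pow_of_le_one (by norm_num) (by norm_num) (by omega)
  have hkey : 2 ^ D * (6 * Yc D ^ 3 * Cd D ^ 2 / k) * 2 ^ (D + 1) / Cd D ≤ 1 / (4 * D) := by
    rw [div_le_div_iff₀ hC0 (by positivity)]
    have h1 : 2 ^ D * (6 * Yc D ^ 3 * Cd D ^ 2 / k) * 2 ^ (D + 1) * (4 * D) =
        (4 * D * (6 * 2 ^ D * Yc D ^ 3 * Cd D * 2 ^ (D + 1))) / k * Cd D := by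
      field_simp
    rw [h1]
    apply mul_le_mul_of_nonneg_right _ hC0.le
    rw [div_le_one hk0]
    exact hk3
  have hkey1 : 6 * Yc D ^ 2 * 2 ^ (D + 1) / Cd D = 1 / 4 := by
    unfold Cd
    field_simp
    ring
  obtain ⟨u, hu, hfix⟩ := fixed_point (ι := Finset (Pair n))
    (fun u S => if S ∈ gd n D then
      -(Tn k D (Cd D) u S * (k : ℝ) ^ (vset S).card) / (Cd D * pr k S) else 0)
    (by
      intro u hu S
      show |if S ∈ gd n D then _ else _| ≤ 1
      split_ifs with hS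
      · have h1 := abs_Tn_le hD1 hn hS hk hC1 hk2 u hu
        have h2 := hprS S hS
        have h3 : (0 : ℝ) < (1 / 2) ^ (D + 1) := by positivity
        have h4 : 0 < pr k S := lt_of_lt_of_le h3 h2
        rw [abs_div, abs_neg, abs_mul, abs_of_pos (mul_pos hC0 h4),
          abs_of_pos (show (0 : ℝ) < (k : ℝ) ^ (vset S).card by positivity)]
        rw [div_le_one (mul_pos hC0 h4)]
        have h5 : 6 * Yc D ^ 2 + 2 ^ D * (6 * Yc D ^ 3 * Cd D ^ 2 / k) ≤
            Cd D * (1 / 2) ^ (D + 1) := by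
          have h6 : (1 : ℝ) / (4 * D) ≤ 1 / 4 := by
            apply one_div_le_one_div_of_le (by norm_num)
            linarith
          have h7 : 6 * Yc D ^ 2 * 2 ^ (D + 1) / Cd D +
              2 ^ D * (6 * Yc D ^ 3 * Cd D ^ 2 / k) * 2 ^ (D + 1) / Cd D ≤ 1 := by
            rw [hkey1]; linarith
          rw [← add_div, div_le_one hC0, ← add_mul] at h7
          have h8 : (2 : ℝ) ^ (D + 1) * (1 / 2) ^ (D + 1) = 1 := by
            rw [← mul_pow]; norm_num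
          calc 6 * Yc D ^ 2 + 2 ^ D * (6 * Yc D ^ 3 * Cd D ^ 2 / k)
              = ((6 * Yc D ^ 2 + 2 ^ D * (6 * Yc D ^ 3 * Cd D ^ 2 / k)) * 2 ^ (D + 1)) *
                (1 / 2) ^ (D + 1) := by rw [mul_assoc _ ((2 : ℝ) ^ (D + 1)), h8, mul_one]
            _ ≤ _ := mul_le_mul_of_nonneg_right h7 (by positivity)
        calc _ ≤ _ := h1
          _ ≤ _ := h5
          _ ≤ _ := mul_le_mul_of_nonneg_left h2 hC0.le
      · simp)
    (by
      intro u v hu hv ε hε S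
      have hε0 : 0 ≤ ε := le_trans (abs_nonneg _) (hε ∅)
      show |(if S ∈ gd n D then _ else _) - (if S ∈ gd n D then _ else _)| ≤ ε / 2
      split_ifs with hS
      · have h1 := Tn_lip hD1 hn hS hk hC1 hk2 u v hu hv ε hε
        have h2 := hprS S hS
        have h3 : (0 : ℝ) < (1 / 2) ^ (D + 1) := by positivity
        have h4 : 0 < pr k S := lt_of_lt_of_le h3 h2
        have h5 : -(Tn k D (Cd D) u S * (k : ℝ) ^ (vset S).card) / (Cd D * pr k S) -
            -(Tn k D (Cd D) v S * (k : ℝ) ^ (vset S).card) / (Cd D * pr k S) =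
            -((Tn k D (Cd D) u S - Tn k D (Cd D) v S) * (k : ℝ) ^ (vset S).card) /
              (Cd D * pr k S) := by ring
        rw [h5, abs_div, abs_neg, abs_mul, abs_of_pos (mul_pos hC0 h4),
          abs_of_pos (show (0 : ℝ) < (k : ℝ) ^ (vset S).card by positivity)]
        rw [div_le_iff₀ (mul_pos hC0 h4)]
        have h8 : (2 : ℝ) ^ (D + 1) * (1 / 2) ^ (D + 1) = 1 := by
          rw [← mul_pow]; norm_num
        have h9 : D * ε * (2 ^ D * (6 * Yc D ^ 3 * Cd D ^ 2 / k)) ≤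
            ε / 2 * (Cd D * (1 / 2) ^ (D + 1)) := by
          have h10 : D * ε * (2 ^ D * (6 * Yc D ^ 3 * Cd D ^ 2 / k)) * 2 ^ (D + 1) / Cd D ≤
              ε / 2 := by
            calc D * ε * (2 ^ D * (6 * Yc D ^ 3 * Cd D ^ 2 / k)) * 2 ^ (D + 1) / Cd D
                = D * ε * (2 ^ D * (6 * Yc D ^ 3 * Cd D ^ 2 / k) * 2 ^ (D + 1) / Cd D) := by
                  ring
              _ ≤ D * ε * (1 / (4 * D)) := by
                  apply mul_le_mul_of_nonneg_left hkey (by positivity)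
              _ = ε / 4 := by field_simp
              _ ≤ ε / 2 := by linarith
          rw [div_le_iff₀ hC0] at h10
          calc D * ε * (2 ^ D * (6 * Yc D ^ 3 * Cd D ^ 2 / k))
              = (D * ε * (2 ^ D * (6 * Yc D ^ 3 * Cd D ^ 2 / k)) * 2 ^ (D + 1)) *
                (1 / 2) ^ (D + 1) := by rw [mul_assoc _ ((2 : ℝ) ^ (D + 1)), h8, mul_one]
            _ ≤ (ε / 2 * Cd D) * (1 / 2) ^ (D + 1) :=
                mul_le_mul_of_nonneg_right h10 (by positivity)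
            _ = _ := by ring
        calc _ ≤ _ := h1
          _ ≤ _ := h9
          _ ≤ _ := by
            apply mul_le_mul_of_nonneg_left _ (by linarith)
            exact mul_le_mul_of_nonneg_left h2 hC0.le
      · simp only [sub_self, abs_zero]
        linarith)
  refine ⟨u, hu, ?_⟩
  intro S hS
  have h1 := congrFun hfix S
  simp only [hS, if_true] at h1
  rw [ac_gam hk (Cd D) u hS]
  have h2 := hprS S hS
  have h3 : (0 : ℝ) < (1 / 2) ^ (D + 1) := by positivity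
  have h4 : 0 < pr k S := lt_of_lt_of_le h3 h2
  have h5 : (0 : ℝ) < (k : ℝ) ^ (vset S).card := by positivity
  rw [← h1]
  field_simp
  ring

end Pool.Agent.ColorLog
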