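import Pool.Agent.ColorLog.Rank
import Pool.Agent.ColorLog.Blocks
import Pool.Agent.ColorLog.Canc

/-!
Structure of the configurations that are not clean (connected graphs).
-/

namespace Pool.Agent.ColorLog

open Finset BigOperators
open scoped Classical
open Pool.Agent.ColorRef

set_option linter.unusedSectionVars false

variable {n : ℕ} {k : ℕ} [NeZero k]

lemma fin_append (L L' : List (Pair n × Finset (Pair n))) :
    ∀ S : Finset (Pair n), fin S (L ++ L') = fin (fin S L) L' := by
  induction L with
  | nil => intro S; rfl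
  | cons p L ih => intro S; exact ih _

lemma fin_perm {L L' : List (Pair n × Finset (Pair n))} (h : L.Perm L') :
    ∀ S : Finset (Pair n), fin S L = fin S L' := by
  induction h with
  | nil => intro S; rfl
  | cons p _ ih => intro S; exact ih _
  | swap p q L =>
    intro S
    show fin (symmDiff (symmDiff S q.2) p.2) L = fin (symmDiff (symmDiff S p.2) q.2) L
    rw [symmDiff_right_comm]
  | trans _ _ ih1 ih2 => intro S; rw [ih1, ih2]

/-- The list of the response edges in `T` with their gadgets. -/
noncomputable def LT (T : Finset (Pair n)) (φ : Pair n → St n) :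
    List (Pair n × Finset (Pair n)) := T.toList.map (fun e => (e, hs (φ e)))

lemma mem_LT {T : Finset (Pair n)} {φ : Pair n → St n} {p : Pair n × Finset (Pair n)} :
    p ∈ LT T φ ↔ ∃ e ∈ T, (e, hs (φ e)) = p := by
  simp [LT]

lemma length_LT (T : Finset (Pair n)) (φ : Pair n → St n) : (LT T φ).length = T.card := by
  simp [LT]

lemma sum_LT (T : Finset (Pair n)) (φ : Pair n → St n) (f : Finset (Pair n) → ℕ) :
    ((LT T φ).map (fun p => f p.2)).sum = ∑ e ∈ T, f (hs (φ e)) := by
  rw [LT, List.map_map]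
  exact sum_map_toList T (fun e => f (hs (φ e)))

lemma Lst_perm {S A : Finset (Pair n)} {φ : Pair n → St n} (hA : A ⊆ Tset S φ) :
    (Lst S φ).Perm (LT (Tset S φ \ A) φ ++ LT A φ) := by
  unfold Lst LT
  rw [← List.map_append]
  apply List.Perm.map
  rw [List.perm_ext_iff_of_nodup (nodup_toList _)]
  · intro e
    simp only [mem_toList, List.mem_append, mem_sdiff]
    constructor
    · intro h
      by_cases h1 : e ∈ A
      · exact Or.inr h1
      · exact Or.inl ⟨h, h1⟩
    · rintro (h | h)
      · exact h.1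
      · exact hA h
  · rw [List.nodup_append]
    refine ⟨nodup_toList _, nodup_toList _, ?_⟩
    intro a ha b hb hab
    rw [mem_toList] at ha hb
    subst hab
    exact (mem_sdiff.1 ha).2 hb

lemma Ok.fin_split {D : ℕ} {S A : Finset (Pair n)} {φ : Pair n → St n} (h : Ok k D S φ)
    (hA : A ⊆ Tset S φ) :
    fin (fin S (LT (Tset S φ \ A) φ)) (LT A φ) = Mset S φ := by
  rw [← fin_append, ← fin_perm (Lst_perm hA), h.fin_eq]

lemma Ok.pairwise {D : ℕ} {S T : Finset (Pair n)} {φ : Pair n → St n} (h : Ok k D S φ)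
    (hT : T ⊆ Tset S φ) : (LT T φ).Pairwise (fun p q => q.1 ∉ p.2) := by
  rw [LT, List.pairwise_map]
  have hnd : T.toList.Nodup := nodup_toList _
  have h2 : ∀ a ∈ T.toList, ∀ b ∈ T.toList, a ≠ b → b ∉ hs (φ a) := by
    intro a ha b hb hab
    exact h.sep b (hT (mem_toList.1 hb)) a (hT (mem_toList.1 ha)) (Ne.symm hab)
  exact List.Pairwise.imp_of_mem (fun {a b} ha hb hab => h2 a ha b hb hab) hnd

lemma Ok.mdisj {D : ℕ} {S : Finset (Pair n)} {φ : Pair n → St n} (h : Ok k D S φ)
    {e : Pair n} (he : e ∈ Tset S φ) : Disjoint (hs (φ e)) (Mset S φ) := by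
  obtain ⟨σ, h1, h2⟩ := h.wit
  rw [disjoint_left]
  intro f hf hfM
  exact (h2 e he).not_mono hf (h1 f hfM)

lemma tset_subset (S : Finset (Pair n)) (φ : Pair n → St n) : Tset S φ ⊆ S :=
  filter_subset _ _

/-- The main configuration of the response edge `e`. -/
noncomputable def mainφ (S : Finset (Pair n)) (e : Pair n) : Pair n → St n :=
  fun f => if f ∈ S then (if f = e then some (some S) else some none) else none

/-- A block whose state is good and whose complement is untouched is clean. -/
lemma clean_aux {D : ℕ} {S A B H : Finset (Pair n)} {φ : Pair n → St n} (h : Ok k D S φ)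
    (hblk : ∀ e ∈ Tset S φ \ A, Blk (hs (φ e)))
    (hact : act S (LT (Tset S φ \ A) φ) = 0)
    (hH : ∀ e ∈ A, hs (φ e) ⊆ H) (hHS : H ⊆ fin S (LT (Tset S φ \ A) φ))
    (hM : Mset S φ = fin S (LT (Tset S φ \ A) φ) \ H)
    (hB : IsBl S B) (hBH : Disjoint B H) : Clean S φ B := by
  set L0 := LT (Tset S φ \ A) φ with hL0
  have hBS : B ⊆ S := hB.2.1
  have hsubS : ∀ p ∈ L0, p.2 ⊆ S := act_zero_subset L0 S hact
  have hpure : Pure univ S L0 := act_zero_pure univ L0 S hact
  have hfS : fin S L0 ⊆ S := by
    have := (pure_aux univ L0 S (fun e _ => by simp) (fun p hp => by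
      obtain ⟨e, he, rfl⟩ := mem_LT.1 hp
      exact hblk e he) hpure).2
    intro e he
    exact this e he (Or.inl (mem_univ _))
  obtain ⟨h3, h4⟩ := pure_block univ B (subset_univ _) hB.1 L0 S (fun e _ => by simp)
    (fun p hp => by
      obtain ⟨e, he, rfl⟩ := mem_LT.1 hp
      exact hblk e he) hpure hBS hB.2.2
  have hd : ∀ p ∈ L0, p.2 = B ∨ Disjoint p.2 B := by
    intro p hp
    apply h3 p hp
    obtain ⟨e, he, rfl⟩ := mem_LT.1 hp
    rw [not_disjoint_iff]
    obtain ⟨f, hf⟩ := (hblk e he).1
    exact ⟨_, mem_univ _, fst_mem_vset hf⟩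
  refine ⟨?_, ?_⟩
  · rcases h4 with h4 | ⟨h4, p, hp, hpB⟩
    · left
      intro e he
      have : e ∈ Mset S φ := by
        rw [hM, mem_sdiff]
        exact ⟨h4 he, fun h5 => (disjoint_left.1 hBH) he h5⟩
      exact (mem_filter.1 this).2
    · right
      obtain ⟨e, he, rfl⟩ := mem_LT.1 hp
      simp only at hpB
      have heT : e ∈ Tset S φ := (mem_sdiff.1 he).1
      have heB : e ∈ B := by rw [← hpB]; exact (h.gadm e heT).2
      obtain ⟨heS, H', hH'⟩ := mem_filter.1 heT
      have hHB : H' = B := by rw [hH'] at hpB; exact hpB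
      refine ⟨e, heB, by rw [hH', hHB], ?_⟩
      intro f hf hfe
      rcases hφ : φ f with _ | _ | H''
      · exfalso
        have h5 : f ∈ Mset S φ := mem_filter.2 ⟨hBS hf, hφ⟩
        rw [hM, mem_sdiff] at h5
        exact (disjoint_left.1 h4) hf h5.1
      · rfl
      · exfalso
        have hfT : f ∈ Tset S φ := mem_filter.2 ⟨hBS hf, H'', hφ⟩
        have := h.sep f hfT e heT hfe
        rw [hpB] at this
        exact this hf
  · intro u hu v hv huv hc
    apply hB.2.2 u hu v hv huv
    refine hc.mono ?_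
    intro e he
    rw [Gset, mem_union, mem_biUnion] at he
    rcases he with he | ⟨f, hf, he⟩
    · exact he
    · obtain ⟨hfS', hfB⟩ := mem_sdiff.1 hf
      rcases hφ : φ f with _ | _ | H'
      · rw [hφ] at he; simp [hs] at he
      · rw [hφ] at he; simp [hs] at he
      · have hfT : f ∈ Tset S φ := mem_filter.2 ⟨hfS', H', hφ⟩
        by_cases hfA : f ∈ A
        · have h5 : e ∈ H := hH f hfA he
          rw [mem_sdiff]
          exact ⟨hfS (hHS h5), fun h6 => (disjoint_left.1 hBH) h6 h5⟩
        · have hp : (f, hs (φ f)) ∈ L0 := mem_LT.2 ⟨f, mem_sdiff.2 ⟨hfT, hfA⟩, rfl⟩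
          have h6 := hsubS _ hp
          rcases hd _ hp with h7 | h7
          · exfalso
            apply hfB
            simp only at h7
            rw [← h7]
            exact (h.gadm f hfT).2
          · rw [mem_sdiff]
            exact ⟨h6 he, (disjoint_left.1 h7) he⟩

/-- Non-clean configurations without response edges in `A` have an active step. -/
theorem struct0 {D : ℕ} {S : Finset (Pair n)} {φ : Pair n → St n} (hne : S.Nonempty)
    (h : Ok k D S φ) (hblk : ∀ e ∈ Tset S φ, Blk (hs (φ e)))
    (hnc : ∀ B, IsBl S B → ¬ Clean S φ B) :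
    1 ≤ act S (LT (Tset S φ \ ∅) φ) := by
  by_contra hcon
  have hact : act S (LT (Tset S φ \ ∅) φ) = 0 := by omega
  obtain ⟨f, hf⟩ := hne
  obtain ⟨B, hB, -⟩ := exists_block_mem S hf
  apply hnc B hB
  refine clean_aux (A := ∅) (H := ∅) h ?_ hact (by simp) (by simp) ?_ hB (by simp)
  · intro e he
    exact hblk e (mem_sdiff.1 he).1
  · have := h.fin_split (A := ∅) (empty_subset _)
    rw [sdiff_empty, ← this]
    simp [LT, fin]

/-- Non-clean configurations with response edges in `A` have at least two active steps, unless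
they are main configurations. -/
theorem struct1 {D : ℕ} {S A : Finset (Pair n)} {φ : Pair n → St n} (hφ : φ ∈ Phi S)
    (h : Ok k D S φ) (hA : A ⊆ Tset S φ) (hAne : A.Nonempty)
    (hblk : ∀ e ∈ Tset S φ \ A, Blk (hs (φ e)))
    (hnc : ∀ B, IsBl S B → Disjoint B A → ¬ Clean S φ B)
    (hmain : ∀ e, A = {e} → φ ≠ mainφ S e) :
    2 ≤ act S (LT (Tset S φ \ A) φ) + A.card := by
  by_contra hcon
  have hA1 : 1 ≤ A.card := card_pos.2 hAne
  have hact : act S (LT (Tset S φ \ A) φ) = 0 := by omega
  have hAc : A.card = 1 := by omega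
  obtain ⟨e1, rfl⟩ := card_eq_one.1 hAc
  have he1 : e1 ∈ Tset S φ := hA (mem_singleton_self _)
  set L0 := LT (Tset S φ \ {e1}) φ with hL0
  set H1 := hs (φ e1) with hH1
  have hM : Mset S φ = symmDiff (fin S L0) H1 := by
    have h5 := h.fin_split hA
    have h6 : LT {e1} φ = [(e1, H1)] := by simp [LT, hH1]
    rw [← h5, h6]
    rfl
  have hMd := h.mdisj he1
  have hHsub : H1 ⊆ fin S L0 := by
    intro f hf
    by_contra hcon2
    have h5 : f ∈ Mset S φ := by
      rw [hM, mem_symmDiff]; exact Or.inr ⟨hf, hcon2⟩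
    exact (disjoint_left.1 hMd) hf h5
  have hM' : Mset S φ = fin S L0 \ H1 := by
    rw [hM, symmDiff_of_subset hHsub]
  have hpure : Pure univ S L0 := act_zero_pure univ L0 S hact
  have hblk' : ∀ p ∈ L0, Blk p.2 := by
    intro p hp
    obtain ⟨e, he, rfl⟩ := mem_LT.1 hp
    exact hblk e he
  have hfS : fin S L0 ⊆ S := by
    have := (pure_aux univ L0 S (fun e _ => by simp) hblk' hpure).2
    intro e he
    exact this e he (Or.inl (mem_univ _))
  have hSH : S ⊆ H1 := by
    intro f0 hf0
    by_contra hf0H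
    obtain ⟨B, hB, hfB⟩ := exists_block_mem S hf0
    by_cases hBH : Disjoint B H1
    · apply hnc B hB _ (clean_aux (A := {e1}) (H := H1) h hblk hact
        (by intro e he; rw [mem_singleton.1 he]) hHsub hM' hB hBH)
      rw [disjoint_singleton_right]
      intro h5
      exact (disjoint_left.1 hBH) h5 (h.gadm e1 he1).2
    · -- partial overlap
      obtain ⟨h3, h4⟩ := pure_block univ B (subset_univ _) hB.1 L0 S (fun e _ => by simp)
        hblk' hpure hB.2.1 hB.2.2
      have hBfin : B ⊆ fin S L0 := by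
        rcases h4 with h4 | ⟨h4, -⟩
        · exact h4
        · exfalso
          apply hBH
          rw [disjoint_left]
          intro e he heH
          exact (disjoint_left.1 h4) he (hHsub heH)
      have hZne : (B ∩ H1).Nonempty := by
        rw [not_disjoint_iff] at hBH
        obtain ⟨e, h5, h6⟩ := hBH
        exact ⟨e, mem_inter.2 ⟨h5, h6⟩⟩
      have hZB : B ∩ H1 ≠ B := by
        intro h5
        apply hf0H
        have : f0 ∈ B ∩ H1 := by rw [h5]; exact hfB
        exact (mem_inter.1 this).2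
      obtain ⟨u, hu, v, hv, huv, hc⟩ := hB.1.2 (B ∩ H1) inter_subset_left hZne hZB
      obtain ⟨σ, hσ1, hσ2⟩ := h.wit
      have huv' : σ u = σ v := by
        apply Conn.map σ _ hc
        intro e he
        rw [mem_sdiff, mem_inter] at he
        apply hσ1 e
        rw [hM', mem_sdiff]
        exact ⟨hBfin he.1, fun h5 => he.2 ⟨he.1, h5⟩⟩
      exact huv (hσ2 e1 he1 u (vset_mono inter_subset_right hu) v
        (vset_mono inter_subset_right hv) huv')
  have hH1S : H1 = S := Subset.antisymm (hHsub.trans hfS) hSH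
  apply hmain e1 rfl
  funext f
  by_cases hf : f ∈ S
  · rw [mainφ, if_pos hf]
    by_cases hfe : f = e1
    · subst hfe
      rw [if_pos rfl]
      obtain ⟨-, H', hH'⟩ := mem_filter.1 he1
      rw [hH']
      have : H' = S := by rw [← hH1S, hH1, hH']; rfl
      rw [this]
    · rw [if_neg hfe]
      rcases hφf : φ f with _ | _ | H'
      · exfalso
        have h5 : f ∈ Mset S φ := mem_filter.2 ⟨hf, hφf⟩
        have h6 := (disjoint_left.1 hMd) (hSH hf)
        exact h6 h5
      · rfl
      · exfalso
        have hfT : f ∈ Tset S φ := mem_filter.2 ⟨hf, H', hφf⟩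
        exact h.sep f hfT e1 he1 hfe (hSH hf)
  · rw [mainφ, if_neg hf]
    exact mem_Phi.1 hφ f hf

end Pool.Agent.ColorLog
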